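import Pool.Agent.W523.Smooth2

open AlgebraicGeometry CategoryTheory Limits Polynomial

namespace Pool.Agent.W523

/-- a map which is injective and locally on the source an open immersion -/
lemma isOpenImmersion_of_cover {X Y : Scheme.{0}} (k : X ⟶ Y) (hinj : Function.Injective k)
    (𝒰 : Scheme.OpenCover.{0} X) (h : ∀ i, IsOpenImmersion (𝒰.f i ≫ k)) : IsOpenImmersion k := by
  rw [IsOpenImmersion.iff_isIso_stalkMap]
  constructor
  · refine .of_continuous_injective_isOpenMap k.continuous hinj ?_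
    intro U hU
    have : k '' U = ⋃ i, (𝒰.f i ≫ k) '' ((𝒰.f i) ⁻¹' U) := by
      ext y
      simp only [Set.mem_image, Set.mem_iUnion, Set.mem_preimage]
      constructor
      · rintro ⟨x, hx, rfl⟩
        obtain ⟨i, z, rfl⟩ := 𝒰.exists_eq x
        exact ⟨i, z, hx, by simp⟩
      · rintro ⟨i, z, hz, rfl⟩
        exact ⟨𝒰.f i z, hz, by simp⟩
    rw [this]
    refine isOpen_iUnion fun i => ?_
    exact (𝒰.f i ≫ k).isOpenEmbedding.isOpenMap _ (hU.preimage (𝒰.f i).continuous)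
  · intro x
    obtain ⟨i, z, rfl⟩ := 𝒰.exists_eq x
    have := h i
    have h1 := Scheme.Hom.stalkMap_comp (𝒰.f i) k z
    have h2 : IsIso (k.stalkMap (𝒰.f i z) ≫ (𝒰.f i).stalkMap z) := by
      rw [← h1]; exact (IsOpenImmersion.iff_isIso_stalkMap.1 (h i)).2 z
    exact IsIso.of_isIso_comp_right _ ((𝒰.f i).stalkMap z)

lemma exists_of_isPullback {P X Y Z : Scheme.{0}} {fst : P ⟶ X} {snd : P ⟶ Y} {f : X ⟶ Z}
    {g : Y ⟶ Z} (h : IsPullback fst snd f g) {x : X} {y : Y} (hxy : f x = g y) :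
    ∃ z, fst z = x ∧ snd z = y := by
  obtain ⟨z, h1, h2⟩ := Scheme.Pullback.exists_preimage_pullback x y hxy
  refine ⟨h.isoPullback.inv z, ?_, ?_⟩
  · rw [← Scheme.Hom.comp_apply, h.isoPullback_inv_fst, h1]
  · rw [← Scheme.Hom.comp_apply, h.isoPullback_inv_snd, h2]

namespace Charts

variable {R A₁ A₂ A₁₂ : Type} [CommRing R] [CommRing A₁] [CommRing A₂] [CommRing A₁₂]
    {X : Scheme.{0}} {f : X ⟶ Spec (.of R)} (c : Charts R A₁ A₂ A₁₂ f)

lemma isUnit_x : IsUnit (c.r₁ c.x) := IsUnit.of_mul_eq_one _ c.mul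

lemma ne_zero_of_mem {K : Type} [Field K] (φ : A₁ →+* K) (q : Spec (.of A₁))
    (hφ : ∀ x : Spec (.of K), Spec.map (CommRingCat.ofHom φ) x = q)
    (hq : ∃ q', c.j₂ q' = c.j₁ q) : φ c.x ≠ 0 := by
  obtain ⟨q', hq'⟩ := hq
  obtain ⟨w, hw, -⟩ := exists_of_isPullback c.pb hq'.symm
  intro h0
  let x : Spec (.of K) := ⟨⊥, Ideal.isPrime_bot⟩
  have h1 : c.x ∈ q.asIdeal := by
    rw [← hφ x]
    change φ c.x ∈ (⊥ : Ideal K)
    rw [h0]; exact Ideal.zero_mem _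
  rw [← hw] at h1
  have h2 : c.r₁ c.x ∈ w.asIdeal := h1
  exact w.isPrime.ne_top (Ideal.eq_top_of_isUnit_mem _ h2 c.isUnit_x)

variable {S B₁ B₂ B₁₂ : Type} [CommRing S] [CommRing B₁] [CommRing B₂] [CommRing B₁₂]
    {Y : Scheme.{0}} {f' : Y ⟶ Spec (.of S)} (c' : Charts S B₁ B₂ B₁₂ f')

lemma mem_of_mem (m₁ : A₁ →+* B₁) (q : Spec (.of B₁))
    (h : ∃ q', c.j₂ q' = c.j₁ (Spec.map (CommRingCat.ofHom m₁) q)) (e : B₁) (he : m₁ c.x = e * c'.x) :
    ∃ q', c'.j₂ q' = c'.j₁ q := by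
  obtain ⟨K, _, φ, hφ⟩ := exists_pt q
  have h1 : (φ.comp m₁) c.x ≠ 0 := by
    refine c.ne_zero_of_mem (φ.comp m₁) (Spec.map (CommRingCat.ofHom m₁) q) ?_ h
    intro x
    rw [CommRingCat.ofHom_comp, Spec.map_comp, Scheme.Hom.comp_apply, hφ]
  rw [RingHom.comp_apply, he, map_mul] at h1
  have h2 : φ c'.x ≠ 0 := right_ne_zero_of_mul h1
  obtain ⟨ψ, -, hψ⟩ := c'.change φ (isUnit_iff_ne_zero.2 h2)
  let x : Spec (.of K) := ⟨⊥, Ideal.isPrime_bot⟩
  refine ⟨Spec.map (CommRingCat.ofHom ψ) x, ?_⟩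
  have := congr($hψ x)
  rw [Scheme.Hom.comp_apply, Scheme.Hom.comp_apply, hφ] at this
  exact this.symm

/-- the canonical square of a chart -/
lemma chart_pullback {φ : R →+* S} {m₁ : A₁ →+* B₁}
    (p₁ : IsPushout (CommRingCat.ofHom c.s₁) (CommRingCat.ofHom φ) (CommRingCat.ofHom m₁)
      (CommRingCat.ofHom c'.s₁)) (k : Spec (.of B₁) ⟶ pullback f (Spec.map (CommRingCat.ofHom φ)))
    (hk1 : k ≫ pullback.fst _ _ = Spec.map (CommRingCat.ofHom m₁) ≫ c.j₁)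
    (hk2 : k ≫ pullback.snd _ _ = Spec.map (CommRingCat.ofHom c'.s₁)) :
    IsPullback k (Spec.map (CommRingCat.ofHom m₁)) (pullback.fst _ _) c.j₁ := by
  have h1 := isPullback_SpecMap_of_isPushout _ _ _ _ p₁
  rw [← c.h₁, ← hk2] at h1
  exact IsPullback.of_right h1.flip hk1 (IsPullback.of_hasPullback _ _).flip

/-- A morphism given by charts is cartesian if it is so on charts. -/
theorem cartesian {φ : R →+* S} {m₁ : A₁ →+* B₁} {m₂ : A₂ →+* B₂}
    (p₁ : IsPushout (CommRingCat.ofHom c.s₁) (CommRingCat.ofHom φ) (CommRingCat.ofHom m₁)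
      (CommRingCat.ofHom c'.s₁))
    (p₂ : IsPushout (CommRingCat.ofHom c.s₂) (CommRingCat.ofHom φ) (CommRingCat.ofHom m₂)
      (CommRingCat.ofHom c'.s₂))
    (e : B₁) (he : m₁ c.x = e * c'.x) (m : Y ⟶ X)
    (hm : m ≫ f = f' ≫ Spec.map (CommRingCat.ofHom φ))
    (hm₁ : c'.j₁ ≫ m = Spec.map (CommRingCat.ofHom m₁) ≫ c.j₁)
    (hm₂ : c'.j₂ ≫ m = Spec.map (CommRingCat.ofHom m₂) ≫ c.j₂) :
    IsPullback m f' f (Spec.map (CommRingCat.ofHom φ)) := by
  let k : Y ⟶ pullback f (Spec.map (CommRingCat.ofHom φ)) := pullback.lift m f' hm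
  have hk1 : k ≫ pullback.fst _ _ = m := pullback.lift_fst _ _ _
  have hk2 : k ≫ pullback.snd _ _ = f' := pullback.lift_snd _ _ _
  have q₁ : IsPullback (c'.j₁ ≫ k) (Spec.map (CommRingCat.ofHom m₁)) (pullback.fst _ _) c.j₁ :=
    c.chart_pullback c' p₁ (c'.j₁ ≫ k) (by rw [Category.assoc, hk1, hm₁])
      (by rw [Category.assoc, hk2, c'.h₁])
  have q₂ : IsPullback (c'.j₂ ≫ k) (Spec.map (CommRingCat.ofHom m₂)) (pullback.fst _ _) c.j₂ :=
    c.swap.chart_pullback c'.swap p₂ (c'.j₂ ≫ k) (by rw [Category.assoc, hk1, hm₂]; rfl)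
      (by rw [Category.assoc, hk2, c'.h₂]; rfl)
  have o₁ : IsOpenImmersion (c'.j₁ ≫ k) :=
    MorphismProperty.of_isPullback (P := @IsOpenImmersion) q₁.flip c.o₁
  have o₂ : IsOpenImmersion (c'.j₂ ≫ k) :=
    MorphismProperty.of_isPullback (P := @IsOpenImmersion) q₂.flip c.o₂
  have surj : Function.Surjective k := by
    intro p
    rcases c.cov (pullback.fst f (Spec.map (CommRingCat.ofHom φ)) p) with ⟨q, hq⟩ | ⟨q, hq⟩
    · obtain ⟨z, hz, -⟩ := exists_of_isPullback q₁ hq.symm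
      exact ⟨c'.j₁ z, by rw [← Scheme.Hom.comp_apply, hz]⟩
    · obtain ⟨z, hz, -⟩ := exists_of_isPullback q₂ hq.symm
      exact ⟨c'.j₂ z, by rw [← Scheme.Hom.comp_apply, hz]⟩
  have mixed : ∀ q₁ q₂, k (c'.j₁ q₁) = k (c'.j₂ q₂) → c'.j₁ q₁ = c'.j₂ q₂ := by
    intro q₁ q₂ h
    have h1 : ∃ q', c.j₂ q' = c.j₁ (Spec.map (CommRingCat.ofHom m₁) q₁) := by
      refine ⟨Spec.map (CommRingCat.ofHom m₂) q₂, ?_⟩
      rw [← Scheme.Hom.comp_apply, ← Scheme.Hom.comp_apply, ← hm₁, ← hm₂, ← hk1,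
        Scheme.Hom.comp_apply, Scheme.Hom.comp_apply, Scheme.Hom.comp_apply,
        Scheme.Hom.comp_apply, h]
    obtain ⟨q', hq'⟩ := c.mem_of_mem c' m₁ q₁ h1 e he
    rw [← hq'] at h ⊢
    rw [← Scheme.Hom.comp_apply, ← Scheme.Hom.comp_apply] at h
    rw [(c'.j₂ ≫ k).isOpenEmbedding.injective h]
  have inj : Function.Injective k := by
    intro p p' h
    rcases c'.cov p with ⟨q, rfl⟩ | ⟨q, rfl⟩ <;> rcases c'.cov p' with ⟨q', rfl⟩ | ⟨q', rfl⟩
    · rw [← Scheme.Hom.comp_apply, ← Scheme.Hom.comp_apply] at h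
      rw [(c'.j₁ ≫ k).isOpenEmbedding.injective h]
    · exact mixed _ _ h
    · exact (mixed _ _ h.symm).symm
    · rw [← Scheme.Hom.comp_apply, ← Scheme.Hom.comp_apply] at h
      rw [(c'.j₂ ≫ k).isOpenEmbedding.injective h]
  have ho : IsOpenImmersion k := by
    refine isOpenImmersion_of_cover k inj c'.cover ?_
    rintro (_ | _)
    · exact o₂
    · exact o₁
  have h3 : Epi k.base := by
    rw [TopCat.epi_iff_surjective]; exact surj
  have h4 : IsIso k := IsOpenImmersion.isIso k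
  exact IsPullback.of_iso_pullback ⟨hm⟩ (@asIso _ _ _ _ k h4) hk1 hk2

end Charts

end Pool.Agent.W523
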