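import Pool.Agent.W523.Genus

open AlgebraicGeometry CategoryTheory Limits Polynomial

namespace Pool.Agent.W523

section domain

variable {K : Type} [Field K]

lemma nosq {f : K[X]} (hf : Squarefree f) (hd : f.natDegree ≠ 0) {p q : K[X]}
    (h : p ^ 2 = f * q ^ 2) : q = 0 := by
  by_contra hq
  have h1 : q ∣ p := (IsIntegrallyClosed.pow_dvd_pow_iff two_ne_zero).1 (Dvd.intro_left f h.symm)
  obtain ⟨r, rfl⟩ := h1
  have h2 : r * r = f := by
    have h3 : q ^ 2 * (r * r - f) = 0 := by linear_combination h
    rcases mul_eq_zero.1 h3 with h4 | h4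
    · exact (hq (pow_eq_zero_iff two_ne_zero |>.1 h4)).elim
    · exact sub_eq_zero.1 h4
  have h3 : IsUnit r := hf r ⟨1, by rw [mul_one, h2]⟩
  have h4 : IsUnit f := by rw [← h2]; exact h3.mul h3
  exact hd (Polynomial.natDegree_eq_zero_of_isUnit h4)

lemma isDomain_CR {f : K[X]} (hf : Squarefree f) (hd : f.natDegree ≠ 0) : IsDomain (CR K f) := by
  have hnt : Nontrivial (CR K f) := ⟨0, 1, fun h => by
    have := congrArg QuadraticAlgebra.re h
    rw [QuadraticAlgebra.re_zero, QuadraticAlgebra.re_one] at this
    exact zero_ne_one this⟩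
  have hnz : NoZeroDivisors (CR K f) := by
    constructor
    intro z w h
    by_contra hne
    rw [not_or] at hne
    have h1 : (⟨z.re ^ 2 - f * z.im ^ 2, 0⟩ : CR K f) * w = 0 := by
      have h2 : (⟨z.re ^ 2 - f * z.im ^ 2, 0⟩ : CR K f) = ⟨z.re, -z.im⟩ * z := by
        ext1
        · rw [QuadraticAlgebra.re_mul]; ring
        · rw [QuadraticAlgebra.im_mul]; ring
      rw [h2, mul_assoc, h, mul_zero]
    have h3 : (z.re ^ 2 - f * z.im ^ 2) * w.re = 0 := by
      have := congrArg QuadraticAlgebra.re h1
      rw [QuadraticAlgebra.re_mul, QuadraticAlgebra.re_zero] at this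
      linear_combination this
    have h4 : (z.re ^ 2 - f * z.im ^ 2) * w.im = 0 := by
      have := congrArg QuadraticAlgebra.im h1
      rw [QuadraticAlgebra.im_mul, QuadraticAlgebra.im_zero] at this
      linear_combination this
    have h5 : z.re ^ 2 - f * z.im ^ 2 = 0 := by
      by_contra h6
      apply hne.2
      ext1
      · rw [QuadraticAlgebra.re_zero]; exact (mul_eq_zero.1 h3).resolve_left h6
      · rw [QuadraticAlgebra.im_zero]; exact (mul_eq_zero.1 h4).resolve_left h6
    have h6 : z.im = 0 := nosq hf hd (sub_eq_zero.1 h5)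
    have h7 : z.re = 0 := by
      rw [h6] at h5
      simpa using h5
    apply hne.1
    ext1
    · rw [QuadraticAlgebra.re_zero]; exact h7
    · rw [QuadraticAlgebra.im_zero]; exact h6
  exact NoZeroDivisors.to_isDomain _

variable (g : ℕ) (a b : K)

lemma F1_squarefree (hd : disc g a b ≠ 0) : Squarefree (F1 g a b) := by
  apply Polynomial.Separable.squarefree
  refine (Polynomial.isCoprime_iff_aeval_ne_zero_of_isAlgClosed K (AlgebraicClosure K) _ _).2 ?_
  intro x
  by_contra h
  rw [not_or, not_not, not_not, aeval_def, aeval_def, eval₂_F1, eval₂_dF1] at h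
  have h1 := disc_eq_zero g _ _ h.1 h.2
  rw [← disc_map] at h1
  exact hd ((map_eq_zero _).1 h1)

lemma domain₁ (hd : disc g a b ≠ 0) : IsDomain (CR K (F1 g a b)) :=
  isDomain_CR (F1_squarefree g a b hd) (by rw [F1_natDegree]; omega)

lemma domain₁₂ (hd : disc g a b ≠ 0) : IsDomain (CL K (F1 g a b)) := by
  let _ := (inc (F1 g a b)).toAlgebra
  have := isLocalization_inc (F1 g a b)
  have := domain₁ g a b hd
  refine IsLocalization.isDomain_of_le_nonZeroDivisors (R := CR K (F1 g a b))
    (M := .powers (xx (F1 g a b))) (CL K (F1 g a b)) ?_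
  refine powers_le_nonZeroDivisors_of_noZeroDivisors ?_
  intro h
  have := congrArg QuadraticAlgebra.re h
  exact X_ne_zero this

lemma inc2_injective : Function.Injective (inc2 g a b) := by
  intro p q h
  apply inc_injective
  have h1 := congrArg (i12 g a b) h
  rw [inc2, RingHom.comp_apply, RingHom.comp_apply, i12_i21, i12_i21] at h1
  exact h1

lemma domain₂ (hd : disc g a b ≠ 0) : IsDomain (CR K (F2 g a b)) := by
  have := domain₁₂ g a b hd
  exact (inc2_injective g a b).isDomain (inc2 g a b)

lemma crv_connected (hd : disc g a b ≠ 0) : ConnectedSpace (Crv g a b) := by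
  have := domain₁ g a b hd
  have := domain₂ g a b hd
  have := domain₁₂ g a b hd
  rw [connectedSpace_iff_univ]
  have h1 : (Set.univ : Set (Crv g a b)) =
      Set.range (crvCharts g a b).j₁ ∪ Set.range (crvCharts g a b).j₂ := by
    ext p
    simp only [Set.mem_univ, true_iff]
    exact (crvCharts g a b).cov p
  let x : Spec (.of (CL K (F1 g a b))) := ⟨⊥, Ideal.isPrime_bot⟩
  let y := (crvCharts g a b).j₁ (Spec.map (CommRingCat.ofHom (inc _)) x)
  have hy : y = (crvCharts g a b).j₂ (Spec.map (CommRingCat.ofHom (inc2 g a b)) x) := by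
    have := congr($((crvCharts g a b).pb.w) x)
    rw [Scheme.Hom.comp_apply, Scheme.Hom.comp_apply] at this
    exact this
  refine ⟨⟨y, trivial⟩, ?_⟩
  rw [h1]
  refine IsPreconnected.union y ⟨_, rfl⟩ ⟨_, hy.symm⟩ ?_ ?_
  · have : IrreducibleSpace (Spec (.of (CR K (F1 g a b)))) := PrimeSpectrum.irreducibleSpace
    exact isPreconnected_range (crvCharts g a b).j₁.continuous
  · have : IrreducibleSpace (Spec (.of (CR K (F2 g a b)))) := PrimeSpectrum.irreducibleSpace
    exact isPreconnected_range (crvCharts g a b).j₂.continuous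

end domain

section family

variable {R : Type} [CommRing R] (g : ℕ) (a b : R)

/-- plain base change of the family -/
lemma bc {S : Type} [CommRing S] (φ : R →+* S) : Tw g φ 1 1 a b (φ a) (φ b) :=
  ⟨one_mul 1, by simp, by simp⟩

lemma HasGenus.of_iso {K : Type} [Field K] {C C' : Scheme.{0}} {p : C ⟶ Spec (.of K)}
    {p' : C' ⟶ Spec (.of K)} {g : ℕ} (h : HasGenus p g) (e : C ⟶ C') [IsIso e]
    (he : e ≫ p' = p) : HasGenus p' g := by
  obtain ⟨D, h1, h2⟩ := h
  have o1 := D.open₁
  have o2 := D.open₂
  let D' : TwoAffines p' :=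
    { A₁ := D.A₁
      A₂ := D.A₂
      A₁₂ := D.A₁₂
      r₁ := D.r₁
      r₂ := D.r₂
      j₁ := D.j₁ ≫ e
      j₂ := D.j₂ ≫ e
      open₁ := inferInstance
      open₂ := inferInstance
      over₁ := by rw [Category.assoc, he, D.over₁]
      over₂ := by rw [Category.assoc, he, D.over₂]
      covers := fun x => by
        rcases D.covers (inv e x) with ⟨y, hy⟩ | ⟨y, hy⟩
        · left
          refine ⟨y, ?_⟩
          rw [Scheme.Hom.comp_apply, hy, ← Scheme.Hom.comp_apply, IsIso.inv_hom_id]
          rfl
        · right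
          refine ⟨y, ?_⟩
          rw [Scheme.Hom.comp_apply, hy, ← Scheme.Hom.comp_apply, IsIso.inv_hom_id]
          rfl
      inter := by
        have := D.inter
        refine IsPullback.of_iso this (Iso.refl _) (Iso.refl _) (Iso.refl _) (asIso e) ?_ ?_ ?_ ?_
        all_goals simp }
  exact ⟨D', h1, h2⟩

/-- the curves form a family -/
theorem isCurveFamily [IsNoetherianRing R] [Nontrivial R] (hd : IsUnit (disc g a b))
    (h2 : IsUnit (2 : R)) : IsCurveFamily g (crvMap g a b) where
  smooth := crv_smooth g a b hd h2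
  proper := crv_proper g a b
  connected := by
    refine ⟨?_⟩
    intro K _ y Z fst snd h
    let φ := (Spec.preimage y).hom
    have hy : y = Spec.map (CommRingCat.ofHom φ) := by
      rw [CommRingCat.ofHom_hom, Spec.map_preimage]
    rw [hy] at h
    have hb := (bc g a b φ).isPullback
    let e := hb.isoIsPullback _ _ h
    have hd' : disc g (φ a) (φ b) ≠ 0 := by
      rw [← disc_map]; exact (hd.map φ).ne_zero
    have := crv_connected g _ _ hd'
    exact (Scheme.homeoOfIso e).surjective.connectedSpace (Scheme.homeoOfIso e).continuous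
  genus := by
    intro K _ y Z fst snd h
    let φ := (Spec.preimage y).hom
    have hy : y = Spec.map (CommRingCat.ofHom φ) := by
      rw [CommRingCat.ofHom_hom, Spec.map_preimage]
    rw [hy] at h
    have hb := (bc g a b φ).isPullback
    let e := hb.isoIsPullback _ _ h
    exact (crv_hasGenus g (φ a) (φ b)).of_iso e.hom (hb.isoIsPullback_hom_snd _ _ h)

end family

end Pool.Agent.W523
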