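import Mathlib

open Polynomial

namespace Pool.Agent.W523

section lift

variable {R S T : Type} [CommRing R] [CommRing S] [CommRing T]

/-- ring homs out of `R[ω]/(ω² = a)` -/
def qlift {a : R} (e : R →+* S) (y : S) (h : y * y = e a) : QuadraticAlgebra R a 0 →+* S where
  toFun z := e z.re + e z.im * y
  map_one' := by simp [QuadraticAlgebra.re_one, QuadraticAlgebra.im_one]
  map_zero' := by simp
  map_add' z w := by simp; ring
  map_mul' z w := by
    simp only [QuadraticAlgebra.re_mul, QuadraticAlgebra.im_mul, map_add, map_mul, ← h, map_zero]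
    ring

@[simp] lemma qlift_apply {a : R} (e : R →+* S) (y : S) (h : y * y = e a)
    (z : QuadraticAlgebra R a 0) : qlift e y h z = e z.re + e z.im * y := rfl

lemma qlift_ext {a : R} (φ ψ : QuadraticAlgebra R a 0 →+* S)
    (h1 : ∀ r, φ ⟨r, 0⟩ = ψ ⟨r, 0⟩) (h2 : φ ⟨0, 1⟩ = ψ ⟨0, 1⟩) : φ = ψ := by
  ext z
  have hz : z = ⟨z.re, 0⟩ + ⟨z.im, 0⟩ * ⟨0, 1⟩ := by
    ext <;> simp
  rw [hz, map_add, map_mul, map_add, map_mul, h1, h1, h2]

/-- the map `ω ↦ w ω` over `φ` -/
def qmap {a : R} {c : S} (φ : R →+* S) (w : S) (h : φ a = w ^ 2 * c) :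
    QuadraticAlgebra R a 0 →+* QuadraticAlgebra S c 0 where
  toFun z := ⟨φ z.re, φ z.im * w⟩
  map_one' := by ext <;> simp [QuadraticAlgebra.re_one, QuadraticAlgebra.im_one]
  map_zero' := by ext <;> simp
  map_add' z z' := by ext <;> simp; ring
  map_mul' z z' := by
    ext
    · simp only [QuadraticAlgebra.re_mul, map_add, map_mul, h]; ring
    · simp only [QuadraticAlgebra.im_mul, map_add, map_mul, map_zero]; ring

@[simp] lemma qmap_re {a : R} {c : S} (φ : R →+* S) (w : S) (h : φ a = w ^ 2 * c)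
    (z : QuadraticAlgebra R a 0) : (qmap φ w h z).re = φ z.re := rfl

@[simp] lemma qmap_im {a : R} {c : S} (φ : R →+* S) (w : S) (h : φ a = w ^ 2 * c)
    (z : QuadraticAlgebra R a 0) : (qmap φ w h z).im = φ z.im * w := rfl

end lift

section Laurent

variable (R : Type) [CommRing R]

open scoped LaurentPolynomial
open LaurentPolynomial (T invert T_add T_zero involutive_invert invert_T invert_C)

/-- `R[x, y]/(y² - f)` -/
abbrev CR (f : R[X]) : Type := QuadraticAlgebra R[X] f 0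

/-- `R[x, 1/x, y]/(y² - f)` -/
abbrev CL (f : R[X]) : Type := QuadraticAlgebra R[T;T⁻¹] (toLaurent f) 0

variable {R}

/-- the inclusion of the ring of the chart in the ring of the overlap -/
noncomputable def inc (f : R[X]) : CR R f →+* CL R f := qmap toLaurent 1 (by simp)

lemma inc_injective (f : R[X]) : Function.Injective (inc f) := by
  intro a b h
  have h1 := congrArg QuadraticAlgebra.re h
  have h2 := congrArg QuadraticAlgebra.im h
  simp only [inc, qmap_re, qmap_im, mul_one] at h1 h2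
  ext1
  · exact toLaurent_injective h1
  · exact toLaurent_injective h2

/-- the coordinate function `x` -/
noncomputable def xx (f : R[X]) : CR R f := ⟨X, 0⟩

lemma xx_pow (f : R[X]) (n : ℕ) : xx f ^ n = ⟨X ^ n, 0⟩ := by
  induction n with
  | zero => rfl
  | succ n ih => rw [pow_succ, ih, xx]; ext1 <;> simp [pow_succ]

lemma inc_xx (f : R[X]) : inc f (xx f) = ⟨T 1, 0⟩ := by
  ext1 <;> simp [inc, xx]

lemma isUnit_inc_xx (f : R[X]) : IsUnit (inc f (xx f)) := by
  rw [inc_xx]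
  refine IsUnit.of_mul_eq_one (⟨T (-1), 0⟩ : CL R f) ?_
  ext1
  · rw [QuadraticAlgebra.re_mul, ← T_add, QuadraticAlgebra.re_one, add_neg_cancel, T_zero,
      mul_zero, add_zero]
  · rw [QuadraticAlgebra.im_mul, QuadraticAlgebra.im_one]; simp only [mul_zero, zero_mul, add_zero]

lemma T_pow' (f : R[X]) (m : ℕ) : (⟨T 1, 0⟩ : CL R f) ^ m = ⟨T m, 0⟩ := by
  induction m with
  | zero => simp; rfl
  | succ m ih =>
    rw [pow_succ, ih]
    ext1
    · rw [QuadraticAlgebra.re_mul, ← T_add, mul_zero, add_zero, Nat.cast_succ]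
    · rw [QuadraticAlgebra.im_mul]; simp only [mul_zero, zero_mul, add_zero]

lemma isLocalization_inc (f : R[X]) :
    @IsLocalization.Away (CR R f) _ (xx f) (CL R f) _ (inc f).toAlgebra := by
  let _ := (inc f).toAlgebra
  have hal : ∀ z, algebraMap (CR R f) (CL R f) z = inc f z := fun z => rfl
  refine (isLocalization_iff _ _).2 ⟨?_, ?_, ?_⟩
  · rintro ⟨_, n, rfl⟩
    rw [hal, map_pow]
    exact (isUnit_inc_xx f).pow n
  · intro z
    obtain ⟨n₁, p₁, h₁⟩ := LaurentPolynomial.exists_T_pow z.re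
    obtain ⟨n₂, p₂, h₂⟩ := LaurentPolynomial.exists_T_pow z.im
    refine ⟨⟨⟨X ^ n₂ * p₁, X ^ n₁ * p₂⟩, ⟨xx f ^ (n₁ + n₂), n₁ + n₂, rfl⟩⟩, ?_⟩
    rw [hal, hal, map_pow, inc_xx, T_pow']
    ext1
    · simp only [QuadraticAlgebra.re_mul, inc, qmap_re, map_mul, h₁, Nat.cast_add, T_add,
        Polynomial.toLaurent_X_pow, mul_zero, add_zero]
      ring
    · simp only [QuadraticAlgebra.im_mul, inc, qmap_im, map_mul, h₂, Nat.cast_add, T_add,
        Polynomial.toLaurent_X_pow, mul_zero, add_zero, zero_add, mul_one, zero_mul]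
      ring
  · intro a b h
    rw [hal, hal] at h
    exact ⟨1, by rw [inc_injective f h]⟩

/-- universal property of the overlap -/
lemma exists_extend (f : R[X]) {K : Type} [CommRing K] (φ : CR R f →+* K) (h : IsUnit (φ (xx f))) :
    ∃ φ' : CL R f →+* K, φ'.comp (inc f) = φ := by
  let _ := (inc f).toAlgebra
  have := isLocalization_inc f
  refine ⟨IsLocalization.Away.lift (S := CL R f) (xx f) h, ?_⟩
  exact IsLocalization.Away.lift_comp (xx f) h

/-- `x^(2g+2) + a x + b` -/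
noncomputable def F1 (g : ℕ) (a b : R) : R[X] := X ^ (2 * g + 2) + C a * X + C b

/-- `1 + a u^(2g+1) + b u^(2g+2)` -/
noncomputable def F2 (g : ℕ) (a b : R) : R[X] := 1 + C a * X ^ (2 * g + 1) + C b * X ^ (2 * g + 2)

lemma T_sq (g : ℕ) : (T (-(g + 1 : ℤ)) : R[T;T⁻¹]) ^ 2 = T (-(2 * g + 2 : ℤ)) := by
  rw [sq, ← T_add]; congr 1; ring

lemma invert_F2 (g : ℕ) (a b : R) :
    (invert : R[T;T⁻¹] ≃ₐ[R] R[T;T⁻¹]) (toLaurent (F2 g a b)) =
      T (-(g + 1 : ℤ)) ^ 2 * toLaurent (F1 g a b) := by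
  rw [T_sq]
  simp only [F1, F2, map_add, map_mul, map_one, toLaurent_X_pow, toLaurent_C, invert_T, invert_C,
    toLaurent_X, mul_add, ← T_add]
  have e1 : (T (-(2 * g + 2 : ℤ)) : R[T;T⁻¹]) * (LaurentPolynomial.C a * T 1) =
      LaurentPolynomial.C a * T (-((2 * g + 1 : ℕ) : ℤ)) := by
    rw [mul_left_comm, ← T_add, show (-(2 * (g : ℤ) + 2) + 1) = -((2 * g + 1 : ℕ) : ℤ) by push_cast; ring]
  have e2 : (T (-(2 * g + 2 : ℤ)) : R[T;T⁻¹]) * LaurentPolynomial.C b =
      LaurentPolynomial.C b * T (-((2 * g + 2 : ℕ) : ℤ)) := by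
    rw [mul_comm]; push_cast; rfl
  have e3 : (T (-(2 * g + 2 : ℤ) + ((2 * g + 2 : ℕ) : ℤ)) : R[T;T⁻¹]) = 1 := by
    rw [← T_zero]; congr 1; push_cast; ring
  rw [e1, e2, e3]

lemma invert_F1 (g : ℕ) (a b : R) :
    (invert : R[T;T⁻¹] ≃ₐ[R] R[T;T⁻¹]) (toLaurent (F1 g a b)) =
      T (-(g + 1 : ℤ)) ^ 2 * toLaurent (F2 g a b) := by
  have h := congrArg (invert : R[T;T⁻¹] ≃ₐ[R] R[T;T⁻¹]) (invert_F2 g a b)
  rw [T_sq, map_mul, invert_T] at h
  rw [T_sq, ← mul_right_inj_of_invertible (T (-(-(2 * g + 2 : ℤ))) : R[T;T⁻¹]), ← h, ← mul_assoc,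
    ← T_add]
  have e : (-(-(2 * (g : ℤ) + 2)) + -(2 * (g : ℤ) + 2)) = 0 := by ring
  rw [e, T_zero, one_mul]
  exact involutive_invert _

variable (g : ℕ) (a b : R)

/-- change of chart -/
noncomputable def i21 : CL R (F2 g a b) →+* CL R (F1 g a b) :=
  qmap (invert : R[T;T⁻¹] ≃ₐ[R] R[T;T⁻¹]).toAlgHom.toRingHom (T (-(g + 1 : ℤ))) (invert_F2 g a b)

/-- change of chart -/
noncomputable def i12 : CL R (F1 g a b) →+* CL R (F2 g a b) :=
  qmap (invert : R[T;T⁻¹] ≃ₐ[R] R[T;T⁻¹]).toAlgHom.toRingHom (T (-(g + 1 : ℤ))) (invert_F1 g a b)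

@[simp] lemma i12_i21 (z) : i12 g a b (i21 g a b z) = z := by
  ext1
  · change invert (invert z.re) = z.re
    exact involutive_invert _
  · change invert (invert z.im * T (-(g + 1 : ℤ))) * T (-(g + 1 : ℤ)) = z.im
    rw [map_mul, involutive_invert, invert_T, mul_assoc, ← T_add, neg_neg, add_neg_cancel, T_zero,
      mul_one]

@[simp] lemma i21_i12 (z) : i21 g a b (i12 g a b z) = z := by
  ext1
  · change invert (invert z.re) = z.re
    exact involutive_invert _
  · change invert (invert z.im * T (-(g + 1 : ℤ))) * T (-(g + 1 : ℤ)) = z.im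
    rw [map_mul, involutive_invert, invert_T, mul_assoc, ← T_add, neg_neg, add_neg_cancel, T_zero,
      mul_one]

/-- the two overlap rings are the same -/
noncomputable def iEquiv : CL R (F2 g a b) ≃+* CL R (F1 g a b) where
  toFun := i21 g a b
  invFun := i12 g a b
  left_inv := i12_i21 g a b
  right_inv := i21_i12 g a b
  map_mul' := map_mul _
  map_add' := map_add _

/-- the inclusion of the second chart in the overlap -/
noncomputable def inc2 : CR R (F2 g a b) →+* CL R (F1 g a b) := (i21 g a b).comp (inc (F2 g a b))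

lemma exists_extend2 {K : Type} [CommRing K] (φ : CR R (F2 g a b) →+* K)
    (h : IsUnit (φ (xx (F2 g a b)))) :
    ∃ φ' : CL R (F1 g a b) →+* K, φ'.comp (inc2 g a b) = φ := by
  obtain ⟨φ', h'⟩ := exists_extend _ φ h
  refine ⟨φ'.comp (i12 g a b), ?_⟩
  rw [← h']
  ext1 z
  simp [inc2]

lemma inc2_xx : inc2 g a b (xx _) = ⟨T (-1), 0⟩ := by
  rw [inc2, RingHom.comp_apply, inc_xx]
  ext1
  · change invert (T 1) = T (-1)
    simp
  · change invert 0 * T _ = 0
    simp

lemma inc_mul_inc2 : inc (F1 g a b) (xx _) * inc2 g a b (xx _) = 1 := by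
  rw [inc2_xx, inc_xx]
  ext1
  · rw [QuadraticAlgebra.re_mul, ← T_add, QuadraticAlgebra.re_one, add_neg_cancel, T_zero,
      mul_zero, add_zero]
  · rw [QuadraticAlgebra.im_mul, QuadraticAlgebra.im_one]; simp only [mul_zero, zero_mul, add_zero]

/-- the scalars -/
noncomputable def sc (f : R[X]) : R →+* CR R f :=
  (algebraMap R[X] (QuadraticAlgebra R[X] f 0)).comp Polynomial.C

lemma sc_apply (f : R[X]) (r : R) : sc f r = ⟨C r, 0⟩ := rfl

lemma inc_sc : (inc (F1 g a b)).comp (sc _) = (inc2 g a b).comp (sc _) := by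
  ext1 r
  simp only [RingHom.comp_apply, sc_apply, inc2]
  ext1
  · change toLaurent (C r) = invert (toLaurent (C r))
    simp
  · change toLaurent 0 * 1 = invert (toLaurent 0 * 1) * _
    simp

lemma isIntegral_eval (f : R[X]) : (Polynomial.eval₂RingHom (sc f) (xx f)).IsIntegral := by
  have h : Polynomial.eval₂RingHom (sc f) (xx f) = algebraMap R[X] (QuadraticAlgebra R[X] f 0) := by
    apply Polynomial.ringHom_ext
    · intro r; simp [sc]
    · simp; rfl
  rw [h]
  exact algebraMap_isIntegral_iff.2 inferInstance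

lemma finiteType_sc (f : R[X]) : (sc f).FiniteType := by
  apply RingHom.FiniteType.comp
  · rw [RingHom.finiteType_algebraMap]; infer_instance
  · exact (RingHom.finiteType_algebraMap (A := R) (B := R[X])).2 inferInstance

end Laurent

end Pool.Agent.W523
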