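import Pool.Agent.W523.Proper
import Pool.Agent.W523.Quad

open AlgebraicGeometry CategoryTheory Limits Polynomial

namespace Pool.Agent.W523

variable {R : Type} [CommRing R]

instance open_inc (f : R[X]) : IsOpenImmersion (Spec.map (CommRingCat.ofHom (inc f))) := by
  let _ := (inc f).toAlgebra
  have := isLocalization_inc f
  exact IsOpenImmersion.of_isLocalization (R := CR R f) (S := CL R f) (xx f)

variable (g : ℕ) (a b : R)

instance open_inc2 : IsOpenImmersion (Spec.map (CommRingCat.ofHom (inc2 g a b))) := by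
  have h : Spec.map (CommRingCat.ofHom (inc2 g a b)) =
      Spec.map (CommRingCat.ofHom (iEquiv g a b).toRingHom) ≫
        Spec.map (CommRingCat.ofHom (inc (F2 g a b))) := by
    rw [← Spec.map_comp, ← CommRingCat.ofHom_comp]
    rfl
  have : IsIso (Spec.map (CommRingCat.ofHom (iEquiv g a b).toRingHom)) := by
    have : IsIso (CommRingCat.ofHom (iEquiv g a b).toRingHom) :=
      (iEquiv g a b).toCommRingCatIso.isIso_hom
    infer_instance
  rw [h]
  infer_instance

/-- the curve `y² = x^(2g+2) + a x + b` -/
noncomputable def Crv : Scheme.{0} :=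
  pushout (Spec.map (CommRingCat.ofHom (inc (F1 g a b)))) (Spec.map (CommRingCat.ofHom (inc2 g a b)))

/-- its structure morphism -/
noncomputable def crvMap : Crv g a b ⟶ Spec (.of R) :=
  pushout.desc (Spec.map (CommRingCat.ofHom (sc (F1 g a b))))
    (Spec.map (CommRingCat.ofHom (sc (F2 g a b)))) (by
      rw [← Spec.map_comp, ← Spec.map_comp, ← CommRingCat.ofHom_comp, ← CommRingCat.ofHom_comp,
        inc_sc])

/-- the two charts -/
noncomputable def crvCharts :
    Charts R (CR R (F1 g a b)) (CR R (F2 g a b)) (CL R (F1 g a b)) (crvMap g a b) where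
  s₁ := sc _
  s₂ := sc _
  r₁ := inc _
  r₂ := inc2 g a b
  x := xx _
  u := xx _
  j₁ := pushout.inl _ _
  j₂ := pushout.inr _ _
  o₁ := inl_open _ _
  o₂ := inr_open _ _
  h₁ := pushout.inl_desc _ _ _
  h₂ := pushout.inr_desc _ _ _
  cov := pushout_cases _ _
  pb := pushout_isPullback _ _
  mul := inc_mul_inc2 g a b
  l₁ := exists_extend _
  l₂ := exists_extend2 g a b

lemma crv_proper [IsNoetherianRing R] : IsProper (crvMap g a b) :=
  (crvCharts g a b).proper (isIntegral_eval _) (isIntegral_eval _) (finiteType_sc _)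
    (finiteType_sc _)

end Pool.Agent.W523
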