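import Mathlib

open AlgebraicGeometry CategoryTheory Limits

namespace Pool.Agent.W523

/-- A cover of a scheme `C` over a field `K` by two affine open subschemes `Spec A₁`, `Spec A₂`
whose intersection is the affine scheme `Spec A₁₂`. -/
structure TwoAffines {K : Type} [Field K] {C : Scheme.{0}} (p : C ⟶ Spec (.of K)) where
  A₁ : Type
  A₂ : Type
  A₁₂ : Type
  [ring₁ : CommRing A₁]
  [ring₂ : CommRing A₂]
  [ring₁₂ : CommRing A₁₂]
  [alg₁ : Algebra K A₁]
  [alg₂ : Algebra K A₂]
  [alg₁₂ : Algebra K A₁₂]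
  /-- restriction of functions from the first chart to the intersection -/
  r₁ : A₁ →ₐ[K] A₁₂
  /-- restriction of functions from the second chart to the intersection -/
  r₂ : A₂ →ₐ[K] A₁₂
  j₁ : Spec (.of A₁) ⟶ C
  j₂ : Spec (.of A₂) ⟶ C
  open₁ : IsOpenImmersion j₁
  open₂ : IsOpenImmersion j₂
  over₁ : j₁ ≫ p = Spec.map (CommRingCat.ofHom (algebraMap K A₁))
  over₂ : j₂ ≫ p = Spec.map (CommRingCat.ofHom (algebraMap K A₂))
  covers : ∀ x : C, (∃ y, j₁ y = x) ∨ ∃ y, j₂ y = x
  inter : IsPullback (Spec.map (CommRingCat.ofHom r₁.toRingHom))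
    (Spec.map (CommRingCat.ofHom r₂.toRingHom)) j₁ j₂

attribute [instance] TwoAffines.ring₁ TwoAffines.ring₂ TwoAffines.ring₁₂ TwoAffines.alg₁
  TwoAffines.alg₂ TwoAffines.alg₁₂

/-- The coboundaries: the functions on the intersection which are the sum of a function on the
first chart and a function on the second chart. -/
def TwoAffines.coboundaries {K : Type} [Field K] {C : Scheme.{0}} {p : C ⟶ Spec (.of K)}
    (D : TwoAffines p) : Submodule K D.A₁₂ :=
  LinearMap.range D.r₁.toLinearMap ⊔ LinearMap.range D.r₂.toLinearMap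

/-- The first cohomology `H¹(C, O_C)`, computed as the Čech cohomology of a cover by two affine
open subschemes. -/
abbrev TwoAffines.H1 {K : Type} [Field K] {C : Scheme.{0}} {p : C ⟶ Spec (.of K)}
    (D : TwoAffines p) : Type :=
  D.A₁₂ ⧸ D.coboundaries

/-- The curve `C` over the field `K` has genus `g`: the space `H¹(C, O_C)` has dimension `g`. -/
def HasGenus {K : Type} [Field K] {C : Scheme.{0}} (p : C ⟶ Spec (.of K)) (g : ℕ) : Prop :=
  ∃ D : TwoAffines p, Module.Finite K D.H1 ∧ Module.finrank K D.H1 = g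

/-- `f : X ⟶ S` is a family of smooth projective curves of genus `g` over `S`: a smooth proper
morphism of relative dimension one, with geometrically connected fibres, all of genus `g`. -/
structure IsCurveFamily (g : ℕ) {X S : Scheme.{0}} (f : X ⟶ S) : Prop where
  smooth : SmoothOfRelativeDimension 1 f
  proper : IsProper f
  connected : GeometricallyConnected f
  genus : ∀ (K : Type) [Field K] (y : Spec (.of K) ⟶ S) (Z : Scheme.{0}) (fst : Z ⟶ X)
    (snd : Z ⟶ Spec (.of K)), IsPullback fst snd f y → HasGenus snd g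

/-- A natural transformation from the moduli functor of smooth projective curves of genus `g`
(on schemes over `ℂ`) to the functor of points of the scheme `M` over `ℂ`. -/
structure ModuliTransformation (g : ℕ) {M : Scheme.{0}} (sM : M ⟶ Spec (.of ℂ)) where
  /-- the classifying map of a family over a base `S` over `ℂ` -/
  cl : ∀ {X S : Scheme.{0}} (_ : S ⟶ Spec (.of ℂ)) (f : X ⟶ S), IsCurveFamily g f → (S ⟶ M)
  cl_over : ∀ {X S : Scheme.{0}} (s : S ⟶ Spec (.of ℂ)) (f : X ⟶ S) (h : IsCurveFamily g f),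
    cl s f h ≫ sM = s
  natural : ∀ {X S X' S' : Scheme.{0}} (s : S ⟶ Spec (.of ℂ)) (f : X ⟶ S) (h : IsCurveFamily g f)
    (f' : X' ⟶ S') (h' : IsCurveFamily g f') (m : X' ⟶ X) (t : S' ⟶ S),
    IsPullback m f' f t → cl (t ≫ s) f' h' = t ≫ cl s f h

/-- A coarse moduli space of smooth projective curves of genus `g` over `ℂ`: a separated scheme
`M` of finite type over `ℂ` with a transformation from the moduli functor to the functor of
points of `M` which is bijective on isomorphism classes of curves over `ℂ` and universal among the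
transformations from the moduli functor to functors of points of schemes over `ℂ`. -/
structure CoarseModuliSpace (g : ℕ) where
  M : Scheme.{0}
  sM : M ⟶ Spec (.of ℂ)
  separated : IsSeparated sM
  finiteType : LocallyOfFiniteType sM
  quasiCompact : QuasiCompact sM
  τ : ModuliTransformation g sM
  /-- two curves over `ℂ` with the same class are isomorphic -/
  injective : ∀ {X X' : Scheme.{0}} (f : X ⟶ Spec (.of ℂ)) (h : IsCurveFamily g f)
    (f' : X' ⟶ Spec (.of ℂ)) (h' : IsCurveFamily g f'),
    τ.cl (𝟙 _) f h = τ.cl (𝟙 _) f' h' → ∃ e : X ≅ X', e.hom ≫ f' = f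
  /-- every complex point of `M` is the class of a curve -/
  surjective : ∀ p : Spec (.of ℂ) ⟶ M, p ≫ sM = 𝟙 _ →
    ∃ (X : Scheme.{0}) (f : X ⟶ Spec (.of ℂ)) (h : IsCurveFamily g f), τ.cl (𝟙 _) f h = p
  universal : ∀ {N : Scheme.{0}} (sN : N ⟶ Spec (.of ℂ)) (ρ : ModuliTransformation g sN),
    ∃! φ : M ⟶ N, φ ≫ sN = sM ∧ ∀ {X S : Scheme.{0}} (s : S ⟶ Spec (.of ℂ)) (f : X ⟶ S)
      (h : IsCurveFamily g f), ρ.cl s f h = τ.cl s f h ≫ φ

/-- The scheme `M` over `ℂ` contains an affine line: there is a non-constant morphism over `ℂ`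
from the affine line `Spec ℂ[X]` to `M`; it takes different values at two complex points. -/
def ContainsA1 {M : Scheme.{0}} (sM : M ⟶ Spec (.of ℂ)) : Prop :=
  ∃ φ : Spec (.of (Polynomial ℂ)) ⟶ M,
    φ ≫ sM = Spec.map (CommRingCat.ofHom (Polynomial.C : ℂ →+* Polynomial ℂ)) ∧
    ∃ u v : ℂ, Spec.map (CommRingCat.ofHom (Polynomial.evalRingHom u)) ≫ φ ≠
      Spec.map (CommRingCat.ofHom (Polynomial.evalRingHom v)) ≫ φ

end Pool.Agent.W523
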