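import Pool.Agent.W523.Smooth2

open Polynomial

namespace Pool.Agent.W523

section derivation

variable {L : Type} [Field L] [Algebra ℂ L]

/-- evaluation of a polynomial at a dual number -/
lemma dual_eval (x m : L) (p : ℂ[X]) :
    aeval (TrivSqZeroExt.inl x + TrivSqZeroExt.inr m : TrivSqZeroExt L L) p =
      TrivSqZeroExt.inl (aeval x p) + TrivSqZeroExt.inr (aeval x (derivative p) * m) := by
  induction p using Polynomial.induction_on with
  | C c =>
    simp only [aeval_C, derivative_C, map_zero, zero_mul, TrivSqZeroExt.inr_zero, add_zero]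
    rfl
  | add p q hp hq =>
    rw [map_add, hp, hq]
    ext <;> simp [add_mul]
  | monomial n c h =>
    have e : (C c * X ^ (n + 1) : ℂ[X]) = C c * X ^ n * X := by ring
    rw [e, map_mul, h, aeval_X]
    ext
    · simp
    · simp only [TrivSqZeroExt.snd_mul, TrivSqZeroExt.fst_add, TrivSqZeroExt.fst_inl,
        TrivSqZeroExt.fst_inr, add_zero, TrivSqZeroExt.snd_add, TrivSqZeroExt.snd_inl,
        TrivSqZeroExt.snd_inr, zero_add, smul_eq_mul, MulOpposite.smul_eq_mul_unop,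
        MulOpposite.unop_op, derivative_mul, derivative_X, mul_one, map_add, map_mul, aeval_X]
      ring

/-- A derivation from a ring of fractions, built from a section of dual numbers. -/
lemma exists_derivation_of_dual {A : Type} [CommRing A] [IsDomain A] [Algebra A L]
    [IsFractionRing A L] (Φ₀ : A →+* TrivSqZeroExt L L) (h1 : ∀ a, (Φ₀ a).fst = algebraMap A L a)
    (c₀ : ℂ →+* A) (hc : ∀ c, algebraMap A L (c₀ c) = algebraMap ℂ L c)
    (h2 : ∀ c : ℂ, (Φ₀ (c₀ c)).snd = 0) :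
    ∃ D : Derivation ℂ L L, ∀ a, D (algebraMap A L a) = (Φ₀ a).snd := by
  have hu : ∀ y : nonZeroDivisors A, IsUnit (Φ₀ y) := by
    intro y
    rw [TrivSqZeroExt.isUnit_iff_isUnit_fst, h1]
    exact IsUnit.mk0 _ (IsFractionRing.to_map_ne_zero_of_mem_nonZeroDivisors y.2)
  let Φ : L →+* TrivSqZeroExt L L := IsLocalization.lift (M := nonZeroDivisors A) hu
  have hΦ : ∀ a, Φ (algebraMap A L a) = Φ₀ a := fun a => IsLocalization.lift_eq hu a
  have hfst : ∀ w, (Φ w).fst = w := by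
    have : ((TrivSqZeroExt.fstHom ℂ L L).toRingHom.comp Φ) = RingHom.id L := by
      apply IsLocalization.ringHom_ext (nonZeroDivisors A)
      ext1 a
      simp only [RingHom.comp_apply, RingHom.id_apply, hΦ]
      exact h1 a
    intro w
    exact congr($this w)
  have hC : ∀ c : ℂ, (Φ (algebraMap ℂ L c)).snd = 0 := by
    intro c
    rw [← hc, hΦ, h2]
  have hmul : ∀ z w, (Φ (z * w)).snd = z * (Φ w).snd + w * (Φ z).snd := by
    intro z w
    rw [map_mul, TrivSqZeroExt.snd_mul, hfst, hfst, smul_eq_mul, MulOpposite.smul_eq_mul_unop,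
      MulOpposite.unop_op]
    ring
  refine ⟨Derivation.mk'
    { toFun := fun w => (Φ w).snd
      map_add' := fun z w => by rw [map_add, TrivSqZeroExt.snd_add]
      map_smul' := fun c w => by
        rw [Algebra.smul_def, hmul, hC, mul_zero, add_zero, RingHom.id_apply, Algebra.smul_def] }
    (fun z w => by
      simp only [LinearMap.coe_mk, AddHom.coe_mk, smul_eq_mul]
      exact hmul z w), ?_⟩
  intro a
  change (Φ (algebraMap A L a)).snd = _
  rw [hΦ]

variable {f : ℂ[X]}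

/-- the function field structure -/
structure IsFF (f : ℂ[X]) (L : Type) [Field L] [Algebra ℂ L] (ι : CR ℂ f →+* L) : Prop where
  inj : Function.Injective ι
  frac : ∀ w : L, ∃ (n s : CR ℂ f), s ≠ 0 ∧ w * ι s = ι n
  hsc : ∀ c, ι (sc f c) = algebraMap ℂ L c

lemma IsFF.eval {ι : CR ℂ f →+* L} (h : IsFF f L ι) (p : ℂ[X]) : ι ⟨p, 0⟩ = aeval (ι (xx f)) p := by
  rw [← sc_eval, hom_eval₂, aeval_def]
  congr 1
  ext c
  exact h.hsc c

lemma IsFF.sq {ι : CR ℂ f →+* L} (h : IsFF f L ι) :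
    ι ⟨0, 1⟩ * ι ⟨0, 1⟩ = aeval (ι (xx f)) f := by
  rw [← map_mul, om_sq, h.eval]

lemma CR_decomp {R : Type} [CommRing R] {f : R[X]} (z : CR R f) :
    z = ⟨z.re, 0⟩ + ⟨z.im, 0⟩ * ⟨0, 1⟩ := by
  ext <;> simp

/-- the derivation `2 y d/dx` -/
lemma IsFF.exists_derivation [IsDomain (CR ℂ f)] {ι : CR ℂ f →+* L} (h : IsFF f L ι) :
    ∃ D : Derivation ℂ L L, D (ι (xx f)) = 2 * ι ⟨0, 1⟩ ∧
      D (ι ⟨0, 1⟩) = aeval (ι (xx f)) (derivative f) := by
  let _ : Algebra (CR ℂ f) L := ι.toAlgebra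
  have hal : ∀ z, algebraMap (CR ℂ f) L z = ι z := fun _ => rfl
  have hfr : IsFractionRing (CR ℂ f) L := by
    refine (isLocalization_iff _ _).2 ⟨?_, ?_, ?_⟩
    · intro s
      refine IsUnit.mk0 _ ?_
      rw [hal]
      intro h0
      exact nonZeroDivisors.ne_zero s.2 (h.inj (by rw [h0, map_zero]))
    · intro w
      obtain ⟨n, s, hs, hw⟩ := h.frac w
      exact ⟨⟨n, ⟨s, mem_nonZeroDivisors_of_ne_zero hs⟩⟩, hw⟩
    · intro a b hab
      exact ⟨1, by rw [h.inj hab]⟩
  let x' : TrivSqZeroExt L L :=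
    TrivSqZeroExt.inl (ι (xx f)) + TrivSqZeroExt.inr (2 * ι ⟨0, 1⟩)
  let y' : TrivSqZeroExt L L :=
    TrivSqZeroExt.inl (ι ⟨0, 1⟩) + TrivSqZeroExt.inr (aeval (ι (xx f)) (derivative f))
  have rel : y' * y' = (aeval x').toRingHom f := by
    change y' * y' = aeval x' f
    rw [dual_eval]
    ext
    · simp only [y', TrivSqZeroExt.fst_mul, TrivSqZeroExt.fst_add, TrivSqZeroExt.fst_inl,
        TrivSqZeroExt.fst_inr, add_zero]
      exact h.sq
    · simp only [y', TrivSqZeroExt.snd_mul, TrivSqZeroExt.fst_add, TrivSqZeroExt.fst_inl,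
        TrivSqZeroExt.fst_inr, add_zero, TrivSqZeroExt.snd_add, TrivSqZeroExt.snd_inl,
        TrivSqZeroExt.snd_inr, zero_add, smul_eq_mul, MulOpposite.smul_eq_mul_unop,
        MulOpposite.unop_op]
      ring
  let Φ₀ : CR ℂ f →+* TrivSqZeroExt L L := qlift (aeval x').toRingHom y' rel
  have e1 : ∀ p : ℂ[X], Φ₀ ⟨p, 0⟩ = aeval x' p := by
    intro p
    change aeval x' p + aeval x' (0 : ℂ[X]) * y' = _
    rw [map_zero, zero_mul, add_zero]
  have e2 : Φ₀ ⟨0, 1⟩ = y' := by
    change aeval x' (0 : ℂ[X]) + aeval x' (1 : ℂ[X]) * y' = _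
    rw [map_zero, map_one, one_mul, zero_add]
  have h1 : ∀ a, (Φ₀ a).fst = algebraMap (CR ℂ f) L a := by
    intro a
    rw [CR_decomp a, map_add, map_mul, e1, e1, e2, dual_eval, dual_eval, hal, map_add, map_mul,
      h.eval, h.eval]
    simp [y']
  obtain ⟨D, hD⟩ := exists_derivation_of_dual Φ₀ h1 (sc f) h.hsc (by
    intro c
    rw [sc_apply, e1, dual_eval]
    simp)
  refine ⟨D, ?_, ?_⟩
  · rw [← hal, hD]
    have : xx f = ⟨X, 0⟩ := rfl
    rw [this, e1, aeval_X]
    simp [x']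
  · rw [← hal, hD, e2]
    simp [y']

end derivation

end Pool.Agent.W523
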