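import Pool.Agent.W523.Moeb

open Polynomial

namespace Pool.Agent.W523

/-- a pair of functions given in one of the two charts over a subring -/
def Dich (g : ℕ) {L : Type} [Field L] (O : Subring L) (ξ η : L) : Prop :=
  (ξ ∈ O ∧ η ∈ O) ∨ ∃ υ ∈ O, ∃ ν ∈ O, ξ * υ = 1 ∧ η * υ ^ (g + 1) = ν

namespace FF

variable {g : ℕ} {a b : ℂ} {L : Type} [Field L] [Algebra ℂ L] {ι : CL ℂ (F1 g a b) →+* L}
  (h : FF g a b L ι)

include h

theorem regular (hg : 1 ≤ g) (D : Derivation ℂ L L)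
    (hx : D (ι (inc _ (xx _))) = 2 * ι (inc _ ⟨0, 1⟩))
    (hy : D (ι (inc _ ⟨0, 1⟩)) = aeval (ι (inc _ (xx _))) (derivative (F1 g a b)))
    (hx₂ : ((-ι (inc2 g a b (xx _)) ^ (g - 1)) • D) (ι (inc2 g a b (xx _))) =
      2 * ι (inc2 g a b ⟨0, 1⟩))
    (hy₂ : ((-ι (inc2 g a b (xx _)) ^ (g - 1)) • D) (ι (inc2 g a b ⟨0, 1⟩)) =
      aeval (ι (inc2 g a b (xx _))) (derivative (F2 g a b)))
    (a₁ b₁ : ℂ) (hd₁ : disc g a₁ b₁ ≠ 0) (ξ η : L) (hη : η ≠ 0)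
    (hsq : η * η = aeval ξ (F1 g a₁ b₁))
    (d₁ : ∀ (P : Ideal (CR ℂ (F1 g a b))) [P.IsPrime], Dich g (rho h.isFF₁ P).range ξ η)
    (d₂ : ∀ (P : Ideal (CR ℂ (F2 g a b))) [P.IsPrime], Dich g (rho h.isFF₂ P).range ξ η)
    (i : ℕ) (hi : i < g) : ∃ p : ℂ[X], p.natDegree ≤ g - 1 ∧
      ξ ^ i * (D ξ / η) = aeval (ι (inc _ (xx _))) p := by
  have hC₁ : ∀ (P : Ideal (CR ℂ (F1 g a b))) [P.IsPrime] (c : ℂ),
      algebraMap ℂ L c ∈ (rho h.isFF₁ P).range := fun P _ c =>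
    ⟨_, (rho_eq h.isFF₁ P (sc _ c)).trans (h.isFF₁.hsc c)⟩
  have hC₂ : ∀ (P : Ideal (CR ℂ (F2 g a b))) [P.IsPrime] (c : ℂ),
      algebraMap ℂ L c ∈ (rho h.isFF₂ P).range := fun P _ c =>
    ⟨_, (rho_eq h.isFF₂ P (sc _ c)).trans (h.isFF₂.hsc c)⟩
  obtain ⟨p, hp⟩ := mem_of_forall_prime h.isFF₁ (ξ ^ i * (D ξ / η)) (fun P _ =>
    regular_mem g a₁ b₁ (E := D) _ (hC₁ P)
      (rho_closed h.isFF₁ P D (fun b' => ⟨_, h.isFF₁.pres D hx hy b'⟩)) hd₁ hη hsq (d₁ P) i hi)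
  obtain ⟨q, hq⟩ := mem_of_forall_prime h.isFF₂
    (ξ ^ i * (((-ι (inc2 g a b (xx _)) ^ (g - 1)) • D) ξ / η)) (fun P _ =>
    regular_mem g a₁ b₁ (E := (-ι (inc2 g a b (xx _)) ^ (g - 1)) • D) _ (hC₂ P)
      (rho_closed h.isFF₂ P _ (fun b' => ⟨_, h.isFF₂.pres _ hx₂ hy₂ b'⟩)) hd₁ hη hsq (d₂ P) i hi)
  rw [Derivation.smul_apply, smul_eq_mul] at hq
  have h1 : inc2 g a b (xx _) ^ (g - 1) * inc _ p = inc2 g a b (-q) := by
    apply h.inj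
    rw [RingHom.comp_apply] at hp hq
    rw [map_mul, map_pow, ← hp, map_neg, map_neg, ← hq]
    ring
  obtain ⟨h2, h3⟩ := global_form g a b hg p (-q) h1
  refine ⟨p.re, h3, ?_⟩
  rw [hp, h.isFF₁.apply p, h2, map_zero, zero_mul, add_zero]
  rfl

end FF

lemma const_of_integral {L : Type} [Field L] [Algebra ℂ L] (ξ : L) (h : IsIntegral ℂ ξ) :
    ∃ c : ℂ, algebraMap ℂ L c = ξ := by
  have h1 := IsAlgClosed.degree_eq_one_of_irreducible ℂ (minpoly.irreducible h)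
  have h2 : (minpoly ℂ ξ).leadingCoeff = 1 := minpoly.monic h
  have h3 : aeval ξ (minpoly ℂ ξ) = 0 := minpoly.aeval ℂ ξ
  rw [eq_X_add_C_of_degree_eq_one h1, h2, C_1, one_mul, aeval_add, aeval_X, aeval_C,
    add_eq_zero_iff_eq_neg] at h3
  exact ⟨-(minpoly ℂ ξ).coeff 0, by rw [map_neg]; exact h3.symm⟩

/-- no map from the function field of `y² = x^n + α x` which satisfies the properties of an
isomorphism of curves -/
theorem no_map {g : ℕ} (hg : 2 ≤ g) {α β : ℂ} (hβ : β ≠ 0) (hd : disc g α 0 ≠ 0)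
    (hd₁ : disc g 0 β ≠ 0) {L : Type} [Field L] [Algebra ℂ L] {ι : CL ℂ (F1 g α 0) →+* L}
    (h : FF g α 0 L ι) (ξ η : L) (hsq : η * η = aeval ξ (F1 g 0 β))
    (hc : ∀ c, ξ ≠ algebraMap ℂ L c)
    (d₁ : ∀ (P : Ideal (CR ℂ (F1 g α 0))) [P.IsPrime], Dich g (rho h.isFF₁ P).range ξ η)
    (d₂ : ∀ (P : Ideal (CR ℂ (F2 g α 0))) [P.IsPrime], Dich g (rho h.isFF₂ P).range ξ η) :
    False := by
  have hη : η ≠ 0 := by
    rintro rfl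
    rw [mul_zero] at hsq
    -- `ξ` is algebraic over `ℂ`, hence a constant
    have hne : F1 g 0 β ≠ 0 := (F1_monic g 0 β).ne_zero
    have halg : IsAlgebraic ℂ ξ := ⟨_, hne, hsq.symm⟩
    obtain ⟨c, hc'⟩ := const_of_integral ξ halg.isIntegral
    exact hc c hc'.symm
  obtain ⟨D, hx, hy, hx₂, hy₂⟩ := h.exists_der hd (by omega)
  obtain ⟨P, Q, k, hP, hQ, hW, hk⟩ := h.moebius hd hg D hx hy 0 β ξ η hη hsq hc
    (fun i hi => h.regular (by omega) D hx hy hx₂ hy₂ 0 β hd₁ ξ η hη hsq d₁ d₂ i hi)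
  exact no_moebius g hg α β hβ P Q k hP hQ hW hk (F1_squarefree g α 0 hd)

end Pool.Agent.W523
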