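import Pool.Agent.W523.Twist
import Pool.Agent.W523.Defs

open AlgebraicGeometry CategoryTheory Limits Polynomial
open scoped LaurentPolynomial
open LaurentPolynomial (T invert)

namespace Pool.Agent.W523

section laurent

variable {R : Type} [CommRing R]

lemma laurent_split (k : ℕ) (w : R[T;T⁻¹]) : ∃ p q : R[X],
    w = toLaurent p + ∑ i ∈ Finset.range k, LaurentPolynomial.C (w.coeff (-(i + 1 : ℤ))) *
      T (-(i + 1 : ℤ)) + invert (toLaurent q) * T (-(k + 1 : ℤ)) := by
  induction w using LaurentPolynomial.induction_on' with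
  | add w₁ w₂ h₁ h₂ =>
    obtain ⟨p₁, q₁, h₁⟩ := h₁
    obtain ⟨p₂, q₂, h₂⟩ := h₂
    refine ⟨p₁ + p₂, q₁ + q₂, ?_⟩
    nth_rw 1 [h₁, h₂]
    have h3 : ∑ i ∈ Finset.range k, LaurentPolynomial.C ((w₁ + w₂).coeff (-(i + 1 : ℤ))) *
      T (-(i + 1 : ℤ)) = ∑ i ∈ Finset.range k, LaurentPolynomial.C (w₁.coeff (-(i + 1 : ℤ))) *
      T (-(i + 1 : ℤ)) + ∑ i ∈ Finset.range k, LaurentPolynomial.C (w₂.coeff (-(i + 1 : ℤ))) *
      T (-(i + 1 : ℤ)) := by
      rw [← Finset.sum_add_distrib]
      refine Finset.sum_congr rfl fun i _ => ?_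
      rw [AddMonoidAlgebra.coeff_add, Finsupp.add_apply, map_add, add_mul]
    rw [h3, map_add, map_add, map_add]
    ring
  | C_mul_T n a =>
    have hc : ∀ j : ℤ, (LaurentPolynomial.C a * T n).coeff j = if n = j then a else 0 := by
      intro j
      rw [← LaurentPolynomial.single_eq_C_mul_T]
      exact Finsupp.single_apply
    by_cases h0 : 0 ≤ n
    · refine ⟨monomial n.toNat a, 0, ?_⟩
      rw [Polynomial.toLaurent_C_mul_T, map_zero, map_zero, zero_mul, add_zero, Finset.sum_eq_zero,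
        add_zero, Int.toNat_of_nonneg h0]
      intro i _
      rw [hc, if_neg (by omega), map_zero, zero_mul]
    · by_cases h1 : -(k : ℤ) ≤ n
      · refine ⟨0, 0, ?_⟩
        rw [map_zero, map_zero, zero_mul, add_zero, zero_add,
          Finset.sum_eq_single (-n - 1).toNat]
        · have e : (-(((-n - 1).toNat : ℤ) + 1)) = n := by omega
          rw [hc, e, if_pos rfl]
        · intro i _ hi
          rw [hc, if_neg (by omega), map_zero, zero_mul]
        · intro hi
          rw [Finset.mem_range] at hi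
          omega
      · refine ⟨0, monomial (-n - k - 1).toNat a, ?_⟩
        rw [Polynomial.toLaurent_C_mul_T, map_zero, zero_add, Finset.sum_eq_zero, zero_add,
          map_mul, LaurentPolynomial.invert_C, LaurentPolynomial.invert_T, mul_assoc,
          ← LaurentPolynomial.T_add]
        · congr 2; omega
        · intro i hi
          rw [Finset.mem_range] at hi
          rw [hc, if_neg (by omega), map_zero, zero_mul]

lemma coeff_toLaurent_neg (p : R[X]) (n : ℤ) (hn : n < 0) : (toLaurent p).coeff n = 0 := by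
  induction p using Polynomial.induction_on' with
  | add p q hp hq => rw [map_add, AddMonoidAlgebra.coeff_add, Finsupp.add_apply, hp, hq, add_zero]
  | monomial m a =>
    rw [Polynomial.toLaurent_C_mul_T, ← LaurentPolynomial.single_eq_C_mul_T]
    refine Finsupp.single_eq_of_ne ?_
    omega

lemma coeff_mul_T (w : R[T;T⁻¹]) (m n : ℤ) : (w * T m).coeff n = w.coeff (n - m) := by
  induction w using LaurentPolynomial.induction_on' with
  | add w₁ w₂ h₁ h₂ =>
    rw [add_mul, AddMonoidAlgebra.coeff_add, Finsupp.add_apply, h₁, h₂,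
      AddMonoidAlgebra.coeff_add, Finsupp.add_apply]
  | C_mul_T k a =>
    rw [mul_assoc, ← LaurentPolynomial.T_add, ← LaurentPolynomial.single_eq_C_mul_T,
      ← LaurentPolynomial.single_eq_C_mul_T]
    change (Finsupp.single (k + m) a) n = (Finsupp.single k a) (n - m)
    rw [Finsupp.single_apply, Finsupp.single_apply]
    congr 1
    exact propext ⟨fun h => by omega, fun h => by omega⟩

end laurent

section genus

/-- computing the genus with the help of two charts -/
lemma hasGenus_of_charts {K : Type} [Field K] {A₁ A₂ A₁₂ : Type} [CommRing A₁] [CommRing A₂]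
    [CommRing A₁₂] {X : Scheme.{0}} {f : X ⟶ Spec (.of K)} (c : Charts K A₁ A₂ A₁₂ f)
    (hs : ∀ k, c.r₁ (c.s₁ k) = c.r₂ (c.s₂ k)) {g : ℕ} (l : A₁₂ →+ (Fin g → K))
    (hl : ∀ k z, l (c.r₁ (c.s₁ k) * z) = k • l z) (surj : Function.Surjective l)
    (ker : ∀ z, l z = 0 ↔ ∃ p q, z = c.r₁ p + c.r₂ q) : HasGenus f g := by
  let _i1 : Algebra K A₁ := c.s₁.toAlgebra
  let _i2 : Algebra K A₂ := c.s₂.toAlgebra
  let _i3 : Algebra K A₁₂ := (c.r₁.comp c.s₁).toAlgebra
  let r₁ : A₁ →ₐ[K] A₁₂ := ⟨c.r₁, fun _ => rfl⟩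
  let r₂ : A₂ →ₐ[K] A₁₂ := ⟨c.r₂, fun r => (hs r).symm⟩
  let D : TwoAffines f :=
    { A₁ := A₁
      A₂ := A₂
      A₁₂ := A₁₂
      r₁ := r₁
      r₂ := r₂
      j₁ := c.j₁
      j₂ := c.j₂
      open₁ := c.o₁
      open₂ := c.o₂
      over₁ := c.h₁
      over₂ := c.h₂
      covers := c.cov
      inter := c.pb }
  let L : A₁₂ →ₗ[K] (Fin g → K) :=
    { toFun := l
      map_add' := map_add l
      map_smul' := fun k z => by
        rw [RingHom.id_apply, ← hl, Algebra.smul_def]; rfl }
  have hker : D.coboundaries = LinearMap.ker L := by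
    change (LinearMap.range r₁.toLinearMap ⊔ LinearMap.range r₂.toLinearMap) = _
    ext z
    rw [LinearMap.mem_ker, Submodule.mem_sup]
    constructor
    · rintro ⟨_, ⟨p, rfl⟩, _, ⟨q, rfl⟩, rfl⟩
      exact (ker _).2 ⟨p, q, rfl⟩
    · intro h
      obtain ⟨p, q, rfl⟩ := (ker z).1 h
      exact ⟨_, ⟨p, rfl⟩, _, ⟨q, rfl⟩, rfl⟩
  let e : D.H1 ≃ₗ[K] (Fin g → K) :=
    (Submodule.quotEquivOfEq _ _ hker).trans (L.quotKerEquivOfSurjective surj)
  refine ⟨D, Module.Finite.equiv e.symm, ?_⟩
  rw [e.finrank_eq, Module.finrank_fin_fun]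

variable {K : Type} [Field K] (g : ℕ) (a b : K)

/-- the negative coefficients of the part linear in `y` -/
noncomputable def lam : CL K (F1 g a b) →+ (Fin g → K) where
  toFun z i := z.im.coeff (-((i : ℕ) + 1 : ℤ))
  map_zero' := by
    funext i
    rw [QuadraticAlgebra.im_zero]
    rfl
  map_add' z z' := by
    funext i
    rw [QuadraticAlgebra.im_add]
    rfl

lemma lam_inc (p : CR K (F1 g a b)) : lam g a b (inc _ p) = 0 := by
  funext i
  change (toLaurent p.im * 1).coeff _ = 0
  rw [mul_one]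
  exact coeff_toLaurent_neg _ _ (by omega)

lemma lam_inc2 (p : CR K (F2 g a b)) : lam g a b (inc2 g a b p) = 0 := by
  funext i
  change (invert (toLaurent p.im * 1) * T (-(g + 1 : ℤ))).coeff (-((i : ℕ) + 1 : ℤ)) = 0
  rw [mul_one, coeff_mul_T, LaurentPolynomial.invert_apply]
  exact coeff_toLaurent_neg _ _ (by have := i.2; omega)

lemma lam_ker (z : CL K (F1 g a b)) :
    lam g a b z = 0 ↔ ∃ p q, z = inc _ p + inc2 g a b q := by
  constructor
  · intro h
    obtain ⟨p, q, h1⟩ := laurent_split 0 z.re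
    obtain ⟨p', q', h2⟩ := laurent_split g z.im
    rw [Finset.sum_range_zero, add_zero] at h1
    rw [Finset.sum_eq_zero, add_zero] at h2
    · refine ⟨⟨p, p'⟩, ⟨q * X, q'⟩, ?_⟩
      ext1
      · rw [QuadraticAlgebra.re_add]
        change z.re = toLaurent p + invert (toLaurent (q * X))
        rw [map_mul, Polynomial.toLaurent_X, map_mul, LaurentPolynomial.invert_T]
        simpa using h1
      · rw [QuadraticAlgebra.im_add]
        change z.im = toLaurent p' * 1 + invert (toLaurent q' * 1) * T (-(g + 1 : ℤ))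
        rw [mul_one, mul_one]
        exact h2
    · intro i hi
      have h3 := congrFun h ⟨i, Finset.mem_range.1 hi⟩
      have h4 : z.im.coeff (-(i + 1 : ℤ)) = 0 := h3
      rw [h4, map_zero, zero_mul]
  · rintro ⟨p, q, rfl⟩
    rw [map_add, lam_inc, lam_inc2, add_zero]

lemma lam_surj : Function.Surjective (lam g a b) := by
  intro v
  refine ⟨⟨0, ∑ i : Fin g, LaurentPolynomial.C (v i) * T (-((i : ℕ) + 1 : ℤ))⟩, ?_⟩
  funext j
  change (∑ i : Fin g, LaurentPolynomial.C (v i) * T (-((i : ℕ) + 1 : ℤ))).coeff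
    (-((j : ℕ) + 1 : ℤ)) = v j
  rw [AddMonoidAlgebra.coeff_sum, Finsupp.finsetSum_apply, Finset.sum_eq_single j]
  · rw [← LaurentPolynomial.single_eq_C_mul_T]
    exact Finsupp.single_eq_same
  · intro i _ hi
    rw [← LaurentPolynomial.single_eq_C_mul_T]
    refine Finsupp.single_eq_of_ne ?_
    intro h
    apply hi
    ext
    omega
  · intro h; exact (h (Finset.mem_univ _)).elim

lemma crv_hasGenus : HasGenus (crvMap g a b) g := by
  refine hasGenus_of_charts (crvCharts g a b) (fun k => congr($(inc_sc g a b) k)) (lam g a b) ?_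
    (lam_surj g a b) (lam_ker g a b)
  intro k z
  funext i
  change (QuadraticAlgebra.im (inc (F1 g a b) (sc _ k) * z)).coeff (-((i : ℕ) + 1 : ℤ)) =
    k * z.im.coeff (-((i : ℕ) + 1 : ℤ))
  have h : inc (F1 g a b) (sc _ k) = ⟨LaurentPolynomial.C k, 0⟩ := by
    ext1
    · simp [inc, sc_apply]
    · simp [inc, sc_apply]
  rw [h, QuadraticAlgebra.im_mul]
  simp only [zero_mul, mul_zero, add_zero]
  rw [← LaurentPolynomial.smul_eq_C_mul]
  rfl

end genus

end Pool.Agent.W523
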