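import Pool.Agent.W523.Reg

open Polynomial
open scoped LaurentPolynomial
open LaurentPolynomial (T invert)

namespace Pool.Agent.W523

section overlap

variable (g : ℕ) (a b : ℂ)

lemma inc_surj (n : CL ℂ (F1 g a b)) : ∃ (k : ℕ) (n' : CR ℂ (F1 g a b)),
    n * inc _ (xx _) ^ k = inc _ n' := by
  let _ := (inc (F1 g a b)).toAlgebra
  have := isLocalization_inc (F1 g a b)
  obtain ⟨⟨n', ⟨_, k, rfl⟩⟩, h⟩ := IsLocalization.surj (.powers (xx (F1 g a b))) n
  refine ⟨k, n', ?_⟩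
  rw [← map_pow]
  exact h

lemma inc_surj' (f : ℂ[X]) (n : CL ℂ f) : ∃ (k : ℕ) (n' : CR ℂ f),
    n * inc _ (xx _) ^ k = inc _ n' := by
  let _ := (inc f).toAlgebra
  have := isLocalization_inc f
  obtain ⟨⟨n', ⟨_, k, rfl⟩⟩, h⟩ := IsLocalization.surj (.powers (xx f)) n
  refine ⟨k, n', ?_⟩
  rw [← map_pow]
  exact h

lemma inc2_surj (n : CL ℂ (F1 g a b)) : ∃ (k : ℕ) (n' : CR ℂ (F2 g a b)),
    n * inc2 g a b (xx _) ^ k = inc2 g a b n' := by
  obtain ⟨k, n', h⟩ := inc_surj' (F2 g a b) (i12 g a b n)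
  refine ⟨k, n', ?_⟩
  have := congrArg (i21 g a b) h
  rw [map_mul, map_pow, i21_i12] at this
  exact this

/-- a global function -/
lemma global_form (hg : 1 ≤ g) (p : CR ℂ (F1 g a b)) (q : CR ℂ (F2 g a b))
    (h : inc2 g a b (xx _) ^ (g - 1) * inc _ p = inc2 g a b q) :
    p.im = 0 ∧ p.re.natDegree ≤ g - 1 := by
  have hpow : ∀ m : ℕ, (⟨T (-1), 0⟩ : CL ℂ (F1 g a b)) ^ m = ⟨T (-m), 0⟩ := by
    intro m
    induction m with
    | zero => simp; rfl
    | succ m ih =>
      rw [pow_succ, ih]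
      ext1
      · rw [QuadraticAlgebra.re_mul, ← LaurentPolynomial.T_add, mul_zero, add_zero, Nat.cast_succ,
          neg_add]
      · rw [QuadraticAlgebra.im_mul]; simp only [mul_zero, zero_mul, add_zero]
  rw [inc2_xx, hpow] at h
  have hre := congrArg QuadraticAlgebra.re h
  have him := congrArg QuadraticAlgebra.im h
  rw [QuadraticAlgebra.re_mul] at hre
  rw [QuadraticAlgebra.im_mul] at him
  simp only [mul_zero, zero_mul, add_zero] at hre him
  change T (-((g - 1 : ℕ) : ℤ)) * toLaurent p.re = invert (toLaurent q.re) at hre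
  change T (-((g - 1 : ℕ) : ℤ)) * (toLaurent p.im * 1) =
    invert (toLaurent q.im * 1) * T (-(g + 1 : ℤ)) at him
  rw [mul_one, mul_one, mul_comm] at him
  rw [mul_comm] at hre
  have hcl : ∀ (r : ℂ[X]) (n : ℕ), (toLaurent r).coeff n = r.coeff n := by
    intro r n
    induction r using Polynomial.induction_on' with
    | add p q hp hq =>
      rw [map_add, AddMonoidAlgebra.coeff_add, Finsupp.add_apply, hp, hq, coeff_add]
    | monomial m c =>
      rw [Polynomial.toLaurent_C_mul_T, ← LaurentPolynomial.single_eq_C_mul_T,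
        Polynomial.coeff_monomial]
      change (Finsupp.single (m : ℤ) c) (n : ℤ) = _
      rw [Finsupp.single_apply]
      congr 1
      exact propext ⟨fun h => by exact_mod_cast h, fun h => by exact_mod_cast h⟩
  constructor
  · ext n
    have h1 := congrArg (fun w => w.coeff ((n : ℤ) - ((g - 1 : ℕ) : ℤ))) him
    simp only [coeff_mul_T, LaurentPolynomial.invert_apply] at h1
    rw [show (n : ℤ) - ((g - 1 : ℕ) : ℤ) - -((g - 1 : ℕ) : ℤ) = n by ring, hcl] at h1
    rw [h1, coeff_zero]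
    exact coeff_toLaurent_neg _ _ (by omega)
  · rw [Polynomial.natDegree_le_iff_coeff_eq_zero]
    intro n hn
    have h1 := congrArg (fun w => w.coeff ((n : ℤ) - ((g - 1 : ℕ) : ℤ))) hre
    simp only [coeff_mul_T, LaurentPolynomial.invert_apply] at h1
    rw [show (n : ℤ) - ((g - 1 : ℕ) : ℤ) - -((g - 1 : ℕ) : ℤ) = n by ring, hcl] at h1
    rw [h1]
    exact coeff_toLaurent_neg _ _ (by omega)

end overlap

/-- function field of a curve of the family -/
structure FF (g : ℕ) (a b : ℂ) (L : Type) [Field L] [Algebra ℂ L]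
    (ι : CL ℂ (F1 g a b) →+* L) : Prop where
  inj : Function.Injective ι
  frac : ∀ w : L, ∃ (n s : CL ℂ (F1 g a b)), s ≠ 0 ∧ w * ι s = ι n
  hsc : ∀ c, ι (inc _ (sc _ c)) = algebraMap ℂ L c

namespace FF

variable {g : ℕ} {a b : ℂ} {L : Type} [Field L] [Algebra ℂ L] {ι : CL ℂ (F1 g a b) →+* L}
  (h : FF g a b L ι)

include h

lemma isFF₁ : IsFF (F1 g a b) L (ι.comp (inc _)) where
  inj := h.inj.comp (inc_injective _)
  frac := by
    intro w
    obtain ⟨n, s, hs, hw⟩ := h.frac w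
    obtain ⟨k, n', hn⟩ := inc_surj g a b n
    obtain ⟨l, s', hs'⟩ := inc_surj g a b s
    refine ⟨n' * xx _ ^ l, s' * xx _ ^ k, ?_, ?_⟩
    · intro h0
      have h1 : ι (inc _ (s' * xx _ ^ k)) = 0 := by rw [h0, map_zero, map_zero]
      rw [map_mul, ← hs', map_mul, map_mul, map_pow, map_pow, map_pow] at h1
      have hx : ι (inc _ (xx (F1 g a b))) ≠ 0 := ((isUnit_inc_xx _).map ι).ne_zero
      have hsi : ι s ≠ 0 := fun h2 => hs (h.inj (by rw [h2, map_zero]))
      exact mul_ne_zero (mul_ne_zero hsi (pow_ne_zero _ hx)) (pow_ne_zero _ hx) h1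
    · rw [RingHom.comp_apply, RingHom.comp_apply, map_mul (inc _), map_mul (inc _), ← hn, ← hs',
        map_mul, map_mul, map_mul, map_mul, ← hw]
      simp only [map_pow]
      ring
  hsc := fun c => h.hsc c

lemma isFF₂ : IsFF (F2 g a b) L (ι.comp (inc2 g a b)) where
  inj := h.inj.comp (inc2_injective _ _ _)
  frac := by
    intro w
    obtain ⟨n, s, hs, hw⟩ := h.frac w
    obtain ⟨k, n', hn⟩ := inc2_surj g a b n
    obtain ⟨l, s', hs'⟩ := inc2_surj g a b s
    have hu : IsUnit (inc2 g a b (xx _)) :=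
      IsUnit.of_mul_eq_one (inc _ (xx _)) (by rw [mul_comm]; exact inc_mul_inc2 g a b)
    refine ⟨n' * xx _ ^ l, s' * xx _ ^ k, ?_, ?_⟩
    · intro h0
      have h1 : ι (inc2 g a b (s' * xx _ ^ k)) = 0 := by rw [h0, map_zero, map_zero]
      rw [map_mul, ← hs', map_mul, map_mul, map_pow, map_pow, map_pow] at h1
      have hx : ι (inc2 g a b (xx _)) ≠ 0 := (hu.map ι).ne_zero
      have hsi : ι s ≠ 0 := fun h2 => hs (h.inj (by rw [h2, map_zero]))
      exact mul_ne_zero (mul_ne_zero hsi (pow_ne_zero _ hx)) (pow_ne_zero _ hx) h1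
    · rw [RingHom.comp_apply, RingHom.comp_apply, map_mul (inc2 g a b), map_mul (inc2 g a b), ← hn,
        ← hs', map_mul, map_mul, map_mul, map_mul, ← hw]
      simp only [map_pow]
      ring
  hsc := fun c => by
    rw [← h.hsc, RingHom.comp_apply]
    exact congrArg ι (congr($(inc_sc g a b) c)).symm

/-- the derivation `2 y d/dx` in both charts -/
lemma exists_der (hd : disc g a b ≠ 0) (hg : 1 ≤ g) : ∃ D : Derivation ℂ L L,
    D (ι (inc _ (xx _))) = 2 * ι (inc _ ⟨0, 1⟩) ∧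
    D (ι (inc _ ⟨0, 1⟩)) = aeval (ι (inc _ (xx _))) (derivative (F1 g a b)) ∧
    ((-ι (inc2 g a b (xx _)) ^ (g - 1)) • D) (ι (inc2 g a b (xx _))) =
      2 * ι (inc2 g a b ⟨0, 1⟩) ∧
    ((-ι (inc2 g a b (xx _)) ^ (g - 1)) • D) (ι (inc2 g a b ⟨0, 1⟩)) =
      aeval (ι (inc2 g a b (xx _))) (derivative (F2 g a b)) := by
  have := domain₁ g a b hd
  obtain ⟨D, h1, h2⟩ := h.isFF₁.exists_derivation
  rw [RingHom.comp_apply, RingHom.comp_apply] at h1
  rw [RingHom.comp_apply, RingHom.comp_apply] at h2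
  have hxu : ι (inc _ (xx _)) * ι (inc2 g a b (xx _)) = 1 := by
    rw [← map_mul, inc_mul_inc2, map_one]
  have hv : ι (inc2 g a b ⟨0, 1⟩) = ι (inc _ ⟨0, 1⟩) * ι (inc2 g a b (xx _)) ^ (g + 1) := by
    rw [inc2_yy, map_mul, map_pow]
  have hu1 : ((-ι (inc2 g a b (xx _)) ^ (g - 1)) • D) (ι (inc2 g a b (xx _))) =
      2 * ι (inc2 g a b ⟨0, 1⟩) := by
    have h3 := congrArg D hxu
    rw [Derivation.leibniz, smul_eq_mul, smul_eq_mul, Derivation.map_one_eq_zero, h1] at h3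
    have h4 : D (ι (inc2 g a b (xx _))) =
        -2 * ι (inc2 g a b (xx _)) ^ 2 * ι (inc _ ⟨0, 1⟩) := by
      linear_combination ι (inc2 g a b (xx _)) * h3 - D (ι (inc2 g a b (xx _))) * hxu
    rw [Derivation.smul_apply, smul_eq_mul, h4, hv]
    obtain ⟨k, rfl⟩ : ∃ k, g = k + 1 := ⟨g - 1, by omega⟩
    rw [Nat.add_sub_cancel]
    ring
  refine ⟨D, h1, h2, hu1, ?_⟩
  have h5 := congrArg ((-ι (inc2 g a b (xx _)) ^ (g - 1)) • D) h.isFF₂.sq
  rw [Derivation.leibniz, Derivation.map_aeval, RingHom.comp_apply, RingHom.comp_apply, hu1,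
    smul_eq_mul, smul_eq_mul] at h5
  have h6 : ι (inc2 g a b ⟨0, 1⟩) ≠ 0 := by
    intro h0
    have h7 : (⟨0, 1⟩ : CR ℂ (F2 g a b)) = 0 := h.isFF₂.inj (by rw [RingHom.comp_apply, h0, map_zero])
    have := congrArg QuadraticAlgebra.im h7
    rw [QuadraticAlgebra.im_zero] at this
    exact one_ne_zero this
  apply mul_left_cancel₀ h6
  have h2' : (2 : L) ≠ 0 := by
    have : (algebraMap ℂ L) 2 ≠ 0 := (_root_.map_ne_zero _).2 two_ne_zero
    rwa [map_ofNat] at this
  apply mul_left_cancel₀ h2'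
  linear_combination h5

end FF

end Pool.Agent.W523
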