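import Mathlib

open AlgebraicGeometry CategoryTheory Limits

namespace Pool.Agent.W523

universe u

variable {U V W : Scheme.{u}} (a : W ⟶ U) (b : W ⟶ V) [IsOpenImmersion a] [IsOpenImmersion b]

instance spanOpen {i j : WalkingSpan} (f : i ⟶ j) : IsOpenImmersion ((span a b).map f) := by
  match i, j, f with
  | _, _, .id X =>
    have h : (span a b).map (WidePushoutShape.Hom.id X) = 𝟙 _ := (span a b).map_id X
    rw [h]; infer_instance
  | _, _, .init WalkingPair.left => dsimp; infer_instance
  | _, _, .init WalkingPair.right => dsimp; infer_instance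

instance inl_open : IsOpenImmersion (pushout.inl a b) :=
  inferInstanceAs (IsOpenImmersion (colimit.ι (span a b) WalkingSpan.left))

instance inr_open : IsOpenImmersion (pushout.inr a b) :=
  inferInstanceAs (IsOpenImmersion (colimit.ι (span a b) WalkingSpan.right))

lemma pushout_cases (x : ↥(pushout a b)) :
    (∃ u, pushout.inl a b u = x) ∨ ∃ v, pushout.inr a b v = x := by
  obtain ⟨i, xi, h⟩ := Scheme.IsLocallyDirected.ι_jointly_surjective (span a b) x
  rcases i with (_ | _ | _)
  · left
    refine ⟨a xi, ?_⟩
    have h1 : a ≫ pushout.inl a b = colimit.ι (span a b) WalkingSpan.zero :=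
      colimit.w (span a b) WalkingSpan.Hom.fst
    have h2 : (a ≫ pushout.inl a b) xi = colimit.ι (span a b) WalkingSpan.zero xi :=
      congr($h1 xi)
    exact h2.trans h
  · exact Or.inl ⟨xi, h⟩
  · exact Or.inr ⟨xi, h⟩

lemma inl_eq_inr {x : ↥U} {y : ↥V} (h : pushout.inl a b x = pushout.inr a b y) :
    ∃ w, a w = x ∧ b w = y := by
  obtain ⟨k, fi, fj, w, h1, h2⟩ := (Scheme.IsLocallyDirected.ι_eq_ι_iff (span a b)
    (i := WalkingSpan.left) (j := WalkingSpan.right) (xi := x) (xj := y)).1 h
  match k, fi, fj, w, h1, h2 with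
  | _, .init WalkingPair.left, .init WalkingPair.right, w, h1, h2 => exact ⟨w, h1, h2⟩

lemma pushout_isPullback : IsPullback a b (pushout.inl a b) (pushout.inr a b) := by
  -- the induced map is an open immersion which is surjective
  let φ : W ⟶ pullback (pushout.inl a b) (pushout.inr a b) :=
    pullback.lift a b pushout.condition
  have h1 : IsOpenImmersion φ := by
    have : IsOpenImmersion (φ ≫ pullback.fst _ _) := by
      rw [pullback.lift_fst]; infer_instance
    exact IsOpenImmersion.of_comp φ (pullback.fst _ _)
  have h2 : Function.Surjective φ := by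
    intro z
    have hz : pushout.inl a b (pullback.fst (pushout.inl a b) (pushout.inr a b) z) =
        pushout.inr a b (pullback.snd (pushout.inl a b) (pushout.inr a b) z) := by
      rw [← Scheme.Hom.comp_apply, ← Scheme.Hom.comp_apply, pullback.condition]
    obtain ⟨w, hw1, hw2⟩ := inl_eq_inr a b hz
    refine ⟨w, ?_⟩
    apply (pullback.fst (pushout.inl a b) (pushout.inr a b)).isOpenEmbedding.injective
    rw [← Scheme.Hom.comp_apply, pullback.lift_fst, hw1]
  have h3 : Epi φ.base := by
    rw [TopCat.epi_iff_surjective]; exact h2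
  have h4 : IsIso φ := IsOpenImmersion.isIso φ
  exact IsPullback.of_iso_pullback ⟨pushout.condition⟩ (@asIso _ _ _ _ φ h4)
    (pullback.lift_fst _ _ _) (pullback.lift_snd _ _ _)

end Pool.Agent.W523
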