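import Pool.Agent.W960.HC.Defs

/-! Project HC, part H: the half turn. -/

set_option autoImplicit false

open Set Topology Filter MeasureTheory

namespace Pool.Agent.W523.HC

open Pool.Agent.W960.HC

theorem kp_lt_one {X : ℝ} (hX : 0 < X) : kp X < 1 := by
  unfold kp
  have h1 : X ^ 2 + 1 < Real.exp (X ^ 2) := Real.add_one_lt_exp (by positivity)
  have h2 : Real.exp (-X ^ 2) * Real.exp (X ^ 2) = 1 := by
    rw [← Real.exp_add]; simp
  nlinarith [Real.exp_pos (-X ^ 2)]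

theorem et_pos {X : ℝ} (hX : 0 < X) : 0 < et X := by
  unfold et
  exact Real.sqrt_pos.2 (by linarith [kp_lt_one hX])

theorem et_smooth {X : ℝ} (hX : 0 < X) : ContDiffAt ℝ 2 et X := by
  unfold et
  apply ContDiffAt.sqrt
  · unfold kp; fun_prop
  · have := kp_lt_one hX
    intro h
    linarith

theorem fld_smooth (a c ε : ℝ) : ContDiff ℝ 1 (fld a c ε) := by
  unfold fld; fun_prop

theorem G_cont (a c : ℝ) : Continuous (G a c) := by
  unfold G; fun_prop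

section

variable {a c R : ℝ} {Z : ℝ → ℝ × ℝ → ℝ → ℝ × ℝ} {W : ℝ → ℝ × ℝ → ℝ → ℝ}

theorem Z_cont (h : Flw a c R Z W) (p : ℝ × ℝ) (ε : ℝ) : Continuous (fun t => Z t p ε) :=
  h.smZ.continuous.comp (by fun_prop : Continuous fun t : ℝ => (t, p, ε))

theorem uniq (h : Flw a c R Z W) {p : ℝ × ℝ} {T : ℝ} {γ : ℝ → ℝ × ℝ} {B : ℝ} (hB : B < R)
    (h0 : γ 0 = p) (hd : ∀ t ∈ Icc 0 T, HasDerivAt γ (fld a c 0 (γ t)) t)
    (hb : ∀ t ∈ Icc 0 T, ‖γ t‖ ≤ B) : ∀ t ∈ Icc 0 T, Z t p 0 = γ t := by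
  rcases lt_or_ge T 0 with hT | hT
  · intro t ht
    exact absurd (ht.1.trans ht.2) (not_le.2 hT)
  have hZc := Z_cont h p 0
  have hγc : ContinuousOn γ (Icc 0 T) := fun t ht => (hd t ht).continuousAt.continuousWithinAt
  obtain ⟨K, hK⟩ := (fld_smooth a c 0).contDiffOn.exists_lipschitzOnWith
    (s := Metric.closedBall (0 : ℝ × ℝ) R) one_ne_zero (convex_closedBall _ _)
    (isCompact_closedBall _ _)
  have key : Icc 0 T ⊆ {t | Z t p 0 = γ t} := by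
    apply IsClosed.Icc_subset_of_forall_exists_gt
    · have e : {t | Z t p 0 = γ t} ∩ Icc 0 T = {t ∈ Icc 0 T | Z t p 0 = γ t} := by
        ext t; simp [and_comm]
      rw [e]
      exact isClosed_Icc.isClosed_eq hZc.continuousOn hγc
    · show Z 0 p 0 = γ 0
      rw [h.zero, h0]
    · intro x hx y hy
      have hx0 : Z x p 0 = γ x := hx.1
      have hx1 : ‖Z x p 0‖ < R := by
        rw [hx0]; exact (hb x ⟨hx.2.1, hx.2.2.le⟩).trans_lt hB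
      have hev : ∀ᶠ t in 𝓝 x, ‖Z t p 0‖ < R :=
        hZc.norm.continuousAt.eventually (eventually_lt_nhds hx1)
      obtain ⟨η, hη, hη'⟩ := Metric.eventually_nhds_iff.1 hev
      have hy' : x < y := hy
      set z := min y (min T (x + η / 2)) with hz
      have hxz : x < z := by
        rw [hz, lt_min_iff, lt_min_iff]; exact ⟨hy', hx.2.2, by linarith⟩
      have hzT : z ≤ T := (min_le_right _ _).trans (min_le_left _ _)
      have hzη : z ≤ x + η / 2 := (min_le_right _ _).trans (min_le_right _ _)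
      have hin : ∀ t ∈ Icc x z, ‖Z t p 0‖ < R := by
        intro t ht
        apply hη'
        rw [Real.dist_eq, abs_lt]
        constructor <;> linarith [ht.1, ht.2]
      refine ⟨z, ?_, hxz, min_le_left _ _⟩
      have := ODE_solution_unique_of_mem_Icc_right (v := fun _ => fld a c 0)
        (s := fun _ => Metric.closedBall (0 : ℝ × ℝ) R) (K := K) (f := fun t => Z t p 0) (g := γ)
        (a := x) (b := z) (fun t _ => hK) hZc.continuousOn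
        (fun t ht => (h.der p 0 t (hin t ⟨ht.1, ht.2.le⟩) (by simp)).hasDerivWithinAt)
        (fun t ht => by
          rw [mem_closedBall_zero_iff]; exact (hin t ⟨ht.1, ht.2.le⟩).le)
        (hγc.mono (Icc_subset_Icc hx.2.1 hzT))
        (fun t ht => (hd t ⟨hx.2.1.trans ht.1, ht.2.le.trans hzT⟩).hasDerivWithinAt)
        (fun t ht => by
          rw [mem_closedBall_zero_iff]
          exact (hb t ⟨hx.2.1.trans ht.1, ht.2.le.trans hzT⟩).trans hB.le)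
        hx0
      exact this ⟨hxz.le, le_rfl⟩
  exact key

theorem mvt (h : Flw a c R Z W) {p : ℝ × ℝ} {ε t₁ t₂ : ℝ} (ht : t₁ < t₂)
    (hb : ∀ t ∈ Icc t₁ t₂, ‖Z t p ε‖ < R) (hε : |ε| < 1) :
    ∃ s ∈ Ioo t₁ t₂, (Z s p ε).2 * (t₂ - t₁) = (Z t₂ p ε).1 - (Z t₁ p ε).1 := by
  have hd : ∀ t ∈ Icc t₁ t₂, HasDerivAt (fun t => (Z t p ε).1) ((Z t p ε).2) t := by
    intro t ht'
    exact (h.der p ε t (hb t ht') hε).fst
  obtain ⟨s, hs, hs'⟩ := exists_hasDerivAt_eq_slope (fun t => (Z t p ε).1)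
    (fun t => (Z t p ε).2) ht (Z_cont h p ε).fst.continuousOn
    (fun t ht' => hd t ⟨ht'.1.le, ht'.2.le⟩)
  refine ⟨s, hs, ?_⟩
  rw [hs', div_mul_cancel₀]
  linarith

end

theorem inv_of_ne {L : ℝ →L[ℝ] ℝ} {m : ℝ} (hm : m ≠ 0) (h : L 1 = m) : L.IsInvertible := by
  refine ⟨ContinuousLinearEquiv.unitsEquivAut ℝ (Units.mk0 m hm), ?_⟩
  ext
  simp [h]

theorem exists_half
    (hB : ∀ (a c : ℝ) {X : ℝ}, 0 < X → ∃ T > 0, ∃ γ : ℝ → ℝ × ℝ,
      γ 0 = (0, et X) ∧ γ T = (0, -et X) ∧ (∀ t ∈ Icc 0 T, HasDerivAt γ (fld a c 0 (γ t)) t) ∧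
      (∀ t ∈ Icc 0 T, kap (γ t) = kp X) ∧ (∀ t ∈ Icc 0 T, ‖γ t‖ ≤ 1 + X) ∧
      (∀ t ∈ Ioo 0 T, 0 < (γ t).1) ∧ ∫ t in (0:ℝ)..T, G a c (γ t) = 2 * Mel a c X)
    {a c R X₀ : ℝ} (hX : 0 < X₀) (hR : 2 + X₀ < R)
    {Z : ℝ → ℝ × ℝ → ℝ → ℝ × ℝ} {W : ℝ → ℝ × ℝ → ℝ → ℝ} (h : Flw a c R Z W) :
    ∃ τ δ, Half a c R X₀ Z W τ δ := by
  obtain ⟨T₀, hT₀, γ, g0, gT, gd, -, gb, gs, -⟩ := hB a c hX
  have hZγ := uniq h (B := 1 + X₀) (by linarith) g0 gd gb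
  have hη := et_pos hX
  let F : (ℝ × ℝ) × ℝ → ℝ × ℝ := fun q => Z q.2 (0, et q.1.1) q.1.2
  have hF : ∀ t, ContDiffAt ℝ 2 F ((X₀, 0), t) := by
    intro t
    have h1 : ContDiffAt ℝ 2 (fun q : (ℝ × ℝ) × ℝ => et q.1.1) ((X₀, 0), t) :=
      ContDiffAt.comp (g := et) (f := fun q : (ℝ × ℝ) × ℝ => q.1.1) _ (et_smooth hX)
        (by fun_prop)
    have h2 : ContDiffAt ℝ 2 (fun q : (ℝ × ℝ) × ℝ => (q.2, ((0 : ℝ), et q.1.1), q.1.2))
        ((X₀, 0), t) :=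
      ContDiffAt.prodMk (by fun_prop)
        (ContDiffAt.prodMk (ContDiffAt.prodMk contDiffAt_const h1) (by fun_prop))
    exact h.smZ.contDiffAt.comp _ h2
  have hf : ContDiffAt ℝ 2 (fun q => (F q).1) ((X₀, 0), T₀) := (hF T₀).fst
  have hFT : Z T₀ (0, et X₀) 0 = (0, -et X₀) := by rw [hZγ T₀ ⟨hT₀.le, le_rfl⟩, gT]
  have hnT : ‖Z T₀ (0, et X₀) 0‖ < R := by
    rw [hZγ T₀ ⟨hT₀.le, le_rfl⟩]
    exact (gb _ ⟨hT₀.le, le_rfl⟩).trans_lt (by linarith)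
  have hdt : HasDerivAt (fun t => (Z t (0, et X₀) 0).1) (-et X₀) T₀ := by
    have := (h.der (0, et X₀) 0 T₀ hnT (by simp)).fst
    rw [hFT] at this
    exact this
  have hinv : (fderiv ℝ (fun q => (F q).1) ((X₀, 0), T₀) ∘L
      .inr ℝ (ℝ × ℝ) ℝ).IsInvertible := by
    apply inv_of_ne (m := -et X₀) (neg_ne_zero.2 hη.ne')
    have h1 : HasDerivAt (fun t : ℝ => ((((X₀, 0) : ℝ × ℝ), t) : (ℝ × ℝ) × ℝ))
        ((0 : ℝ × ℝ), (1 : ℝ)) T₀ := (hasDerivAt_const _ _).prodMk (hasDerivAt_id _)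
    have h2 := (hf.differentiableAt (by norm_num)).hasFDerivAt.comp_hasDerivAt T₀ h1
    exact h2.unique hdt
  set τ := hf.implicitFunction (by norm_num) hinv with hτdef
  have hτ0 : τ (X₀, 0) = T₀ := hf.implicitFunction_apply_self (by norm_num) hinv
  have hτe : ∀ᶠ p in 𝓝 ((X₀, 0) : ℝ × ℝ), (F (p, τ p)).1 = 0 := by
    have h1 := hf.eventually_apply_implicitFunction (by norm_num) hinv
    filter_upwards [h1] with p hp
    rw [hp]
    show (Z T₀ (0, et X₀) 0).1 = 0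
    rw [hFT]
  have hτC : ContDiffAt ℝ 2 τ (X₀, 0) := hf.contDiffAt_implicitFunction (by norm_num) hinv
  have hτc : ContinuousAt τ (X₀, 0) := hτC.continuousAt
  have hm : ∀ s : ℝ, ContinuousAt (fun z : (ℝ × ℝ) × ℝ => z.2 * τ z.1) ((X₀, 0), s) := by
    intro s
    have h0 : ContinuousAt (fun z : (ℝ × ℝ) × ℝ => τ z.1) ((X₀, 0), s) :=
      ContinuousAt.comp (f := Prod.fst) (g := τ) hτc continuousAt_fst
    exact continuousAt_snd.mul h0
  have hH : ∀ s : ℝ, ContinuousAt (fun z : (ℝ × ℝ) × ℝ => F (z.1, z.2 * τ z.1))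
      ((X₀, 0), s) := by
    intro s
    have h1 : ContinuousAt (fun z : (ℝ × ℝ) × ℝ => (z.1, z.2 * τ z.1)) ((X₀, 0), s) :=
      continuousAt_fst.prodMk (hm s)
    exact ContinuousAt.comp (g := F) (f := fun z : (ℝ × ℝ) × ℝ => (z.1, z.2 * τ z.1))
      (hF _).continuousAt h1
  have hbase : ∀ s ∈ Icc (0 : ℝ) 1, F ((X₀, 0), s * τ (X₀, 0)) = γ (s * T₀) := by
    intro s hs
    rw [hτ0]
    exact hZγ _ ⟨mul_nonneg hs.1 hT₀.le, by nlinarith [hs.2]⟩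
  have hE1 : ∀ᶠ p in 𝓝 ((X₀, 0) : ℝ × ℝ), 0 < τ p :=
    hτc.eventually (eventually_gt_nhds (by rw [hτ0]; exact hT₀))
  have hE2 : ∀ᶠ p in 𝓝 ((X₀, 0) : ℝ × ℝ), ∀ s ∈ Icc (0 : ℝ) 1, ‖F (p, s * τ p)‖ < R := by
    apply isCompact_Icc.eventually_forall_of_forall_eventually
    intro s hs
    have h1 : ‖F ((X₀, 0), s * τ (X₀, 0))‖ < R := by
      rw [hbase s hs]
      exact (gb _ ⟨mul_nonneg hs.1 hT₀.le, by nlinarith [hs.2]⟩).trans_lt (by linarith)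
    exact (hH s).norm.eventually (eventually_lt_nhds h1)
  have hsm : ∀ t, ∀ᶠ q in 𝓝 (((X₀, 0), t) : (ℝ × ℝ) × ℝ), |q.1.2| < 1 := by
    intro t
    have h1 : ContinuousAt (fun q : (ℝ × ℝ) × ℝ => |q.1.2|) ((X₀, 0), t) := by fun_prop
    exact h1.eventually (eventually_lt_nhds (by simp))
  have hE3 : ∀ᶠ p in 𝓝 ((X₀, 0) : ℝ × ℝ), ∀ s ∈ Icc (0 : ℝ) 1,
      (s ∈ Ioo (0 : ℝ) 1 → 0 < (F (p, s * τ p)).1) := by
    apply isCompact_Icc.eventually_forall_of_forall_eventually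
    intro s hs
    have hτpos : ∀ᶠ z in 𝓝 (((X₀, 0), s) : (ℝ × ℝ) × ℝ), 0 < τ z.1 :=
      (continuousAt_fst : ContinuousAt Prod.fst (((X₀, 0), s) : (ℝ × ℝ) × ℝ)).eventually
        (p := fun p => 0 < τ p) hE1
    rcases eq_or_lt_of_le hs.1 with hs0 | hs0
    · subst hs0
      have hv : F ((X₀, 0), 0) = (0, et X₀) := h.zero _ _
      have q1 : ∀ᶠ q in 𝓝 (((X₀, 0), 0) : (ℝ × ℝ) × ℝ), 0 < (F q).2 :=
        (hF 0).continuousAt.snd.eventually (eventually_gt_nhds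
          (by show 0 < (F ((X₀, 0), 0)).2; rw [hv]; exact hη))
      have q2 : ∀ᶠ q in 𝓝 (((X₀, 0), 0) : (ℝ × ℝ) × ℝ), ‖F q‖ < R := by
        refine (hF 0).continuousAt.norm.eventually (eventually_lt_nhds ?_)
        show ‖F ((X₀, 0), 0)‖ < R
        rw [hv, ← g0]
        exact (gb 0 ⟨le_rfl, hT₀.le⟩).trans_lt (by linarith)
      obtain ⟨r, hr, hr'⟩ := Metric.eventually_nhds_iff.1 (q1.and (q2.and (hsm 0)))
      have c1 : ∀ᶠ z in 𝓝 (((X₀, 0), 0) : (ℝ × ℝ) × ℝ), dist z.1 (X₀, 0) < r :=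
        continuousAt_fst.eventually (Metric.ball_mem_nhds _ hr)
      have c2 : ∀ᶠ z in 𝓝 (((X₀, 0), 0) : (ℝ × ℝ) × ℝ), z.2 * τ z.1 < r :=
        (hm 0).eventually (eventually_lt_nhds (by simpa using hr))
      filter_upwards [c1, c2, hτpos] with z z1 z2 z3 z4
      have t1 : 0 < z.2 * τ z.1 := mul_pos z4.1 z3
      have hq : ∀ t ∈ Icc 0 (z.2 * τ z.1), 0 < (F (z.1, t)).2 ∧ ‖F (z.1, t)‖ < R ∧
          |z.1.2| < 1 := by
        intro t ht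
        refine hr' ?_
        rw [Prod.dist_eq, max_lt_iff]
        refine ⟨z1, ?_⟩
        rw [Real.dist_eq, sub_zero, abs_of_nonneg ht.1]
        exact ht.2.trans_lt z2
      obtain ⟨s', hs', e⟩ := mvt (p := (0, et z.1.1)) (ε := z.1.2) h t1
        (fun t ht => (hq t ht).2.1) (hq 0 ⟨le_rfl, t1.le⟩).2.2
      have p1 : 0 < (Z s' (0, et z.1.1) z.1.2).2 := (hq s' ⟨hs'.1.le, hs'.2.le⟩).1
      have p2 : (Z 0 (0, et z.1.1) z.1.2).1 = 0 := by rw [h.zero]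
      rw [p2] at e
      show 0 < (Z (z.2 * τ z.1) (0, et z.1.1) z.1.2).1
      nlinarith [mul_pos p1 t1]
    rcases eq_or_lt_of_le hs.2 with hs1 | hs1
    · subst hs1
      have q1 : ∀ᶠ q in 𝓝 (((X₀, 0), T₀) : (ℝ × ℝ) × ℝ), (F q).2 < 0 := by
        refine (hF T₀).continuousAt.snd.eventually (eventually_lt_nhds ?_)
        show (Z T₀ (0, et X₀) 0).2 < 0
        rw [hFT]
        show -et X₀ < 0
        linarith
      have q2 : ∀ᶠ q in 𝓝 (((X₀, 0), T₀) : (ℝ × ℝ) × ℝ), ‖F q‖ < R :=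
        (hF T₀).continuousAt.norm.eventually (eventually_lt_nhds hnT)
      obtain ⟨r, hr, hr'⟩ := Metric.eventually_nhds_iff.1 (q1.and (q2.and (hsm T₀)))
      have c1 : ∀ᶠ z in 𝓝 (((X₀, 0), 1) : (ℝ × ℝ) × ℝ), dist z.1 (X₀, 0) < r :=
        continuousAt_fst.eventually (Metric.ball_mem_nhds _ hr)
      have c2 : ∀ᶠ z in 𝓝 (((X₀, 0), 1) : (ℝ × ℝ) × ℝ), T₀ - r < z.2 * τ z.1 := by
        refine (hm 1).eventually (eventually_gt_nhds ?_)
        show T₀ - r < 1 * τ (X₀, 0)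
        rw [hτ0]; linarith
      have c3 : ∀ᶠ z in 𝓝 (((X₀, 0), 1) : (ℝ × ℝ) × ℝ), τ z.1 < T₀ + r :=
        (continuousAt_fst : ContinuousAt Prod.fst (((X₀, 0), 1) : (ℝ × ℝ) × ℝ)).eventually
          (p := fun p => τ p < T₀ + r)
          (hτc.eventually (eventually_lt_nhds (by rw [hτ0]; linarith)))
      have c4 : ∀ᶠ z in 𝓝 (((X₀, 0), 1) : (ℝ × ℝ) × ℝ), (F (z.1, τ z.1)).1 = 0 :=
        (continuousAt_fst : ContinuousAt Prod.fst (((X₀, 0), 1) : (ℝ × ℝ) × ℝ)).eventually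
          (p := fun p => (F (p, τ p)).1 = 0) hτe
      filter_upwards [c1, c2, c3, c4, hτpos] with z z1 z2 z3 z4 z5 z6
      have t1 : z.2 * τ z.1 < τ z.1 := mul_lt_of_lt_one_left z5 z6.2
      have hq : ∀ t ∈ Icc (z.2 * τ z.1) (τ z.1), (F (z.1, t)).2 < 0 ∧ ‖F (z.1, t)‖ < R ∧
          |z.1.2| < 1 := by
        intro t ht
        refine hr' ?_
        rw [Prod.dist_eq, max_lt_iff]
        refine ⟨z1, ?_⟩
        rw [Real.dist_eq, abs_lt]
        show -r < t - T₀ ∧ t - T₀ < r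
        constructor <;> linarith [ht.1, ht.2]
      obtain ⟨s', hs', e⟩ := mvt (p := (0, et z.1.1)) (ε := z.1.2) h t1
        (fun t ht => (hq t ht).2.1) (hq (τ z.1) ⟨t1.le, le_rfl⟩).2.2
      have p1 : (Z s' (0, et z.1.1) z.1.2).2 < 0 := (hq s' ⟨hs'.1.le, hs'.2.le⟩).1
      have p2 : (Z (τ z.1) (0, et z.1.1) z.1.2).1 = 0 := z4
      rw [p2] at e
      show 0 < (Z (z.2 * τ z.1) (0, et z.1.1) z.1.2).1
      have p3 : 0 < τ z.1 - z.2 * τ z.1 := by linarith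
      nlinarith [mul_pos (neg_pos.2 p1) p3]
    · have h3 : 0 < (F ((X₀, 0), s * τ (X₀, 0))).1 := by
        rw [hbase s hs]
        exact gs _ ⟨mul_pos hs0 hT₀, by nlinarith⟩
      filter_upwards [(hH s).fst.eventually (eventually_gt_nhds h3)] with z hz _
      exact hz
  have hE4 : ∀ᶠ p in 𝓝 ((X₀, 0) : ℝ × ℝ), (F (p, τ p)).2 < 0 := by
    have h1 : ContinuousAt (fun p : ℝ × ℝ => F (p, τ p)) (X₀, 0) := by
      refine ContinuousAt.comp (g := F) (f := fun p : ℝ × ℝ => (p, τ p)) (hF _).continuousAt ?_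
      exact continuousAt_id.prodMk hτc
    refine h1.snd.eventually (eventually_lt_nhds ?_)
    show (Z (τ (X₀, 0)) (0, et X₀) 0).2 < 0
    rw [hτ0, hFT]
    show -et X₀ < 0
    linarith
  have hE5 : ∀ᶠ p in 𝓝 ((X₀, 0) : ℝ × ℝ), ContDiffAt ℝ 2 τ p :=
    hτC.eventually (by norm_num)
  obtain ⟨δ₀, hδ₀, hδ'⟩ := Metric.eventually_nhds_iff.1
    (hτe.and (hE1.and (hE2.and (hE3.and (hE4.and hE5)))))
  set δ := min δ₀ (min (X₀ / 2) (1 / 2)) with hδ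
  have d0 : 0 < δ := by
    rw [hδ, lt_min_iff, lt_min_iff]; exact ⟨hδ₀, by linarith, by norm_num⟩
  have d1 : δ ≤ δ₀ := min_le_left _ _
  have d2 : δ ≤ X₀ / 2 := (min_le_right _ _).trans (min_le_left _ _)
  have d3 : δ ≤ 1 / 2 := (min_le_right _ _).trans (min_le_right _ _)
  have hin : ∀ X ∈ Ioo (X₀ - δ) (X₀ + δ), ∀ ε ∈ Ioo (-δ) δ, dist (X, ε) (X₀, 0) < δ₀ := by
    intro X hX' ε hε
    rw [Prod.dist_eq, max_lt_iff, Real.dist_eq, Real.dist_eq, abs_lt, abs_lt]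
    refine ⟨⟨?_, ?_⟩, ?_, ?_⟩ <;> simp only [] <;> linarith [hX'.1, hX'.2, hε.1, hε.2]
  have ball' : ∀ X ∈ Ioo (X₀ - δ) (X₀ + δ), ∀ ε ∈ Ioo (-δ) δ, ∀ t ∈ Icc 0 (τ (X, ε)),
      ‖Z t (0, et X) ε‖ < R := by
    intro X hX' ε hε t ht
    obtain ⟨e0, e1, e2, e3, e4, e5⟩ := hδ' (hin X hX' ε hε)
    have := e2 (t / τ (X, ε)) ⟨div_nonneg ht.1 e1.le, (div_le_one e1).2 ht.2⟩
    rw [div_mul_cancel₀ _ e1.ne'] at this
    exact this
  have side' : ∀ X ∈ Ioo (X₀ - δ) (X₀ + δ), ∀ ε ∈ Ioo (-δ) δ, ∀ t ∈ Ioo 0 (τ (X, ε)),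
      0 < (Z t (0, et X) ε).1 := by
    intro X hX' ε hε t ht
    obtain ⟨e0, e1, e2, e3, e4, e5⟩ := hδ' (hin X hX' ε hε)
    have i1 : 0 < t / τ (X, ε) := div_pos ht.1 e1
    have i2 : t / τ (X, ε) < 1 := (div_lt_one e1).2 ht.2
    have := e3 (t / τ (X, ε)) ⟨i1.le, i2.le⟩ ⟨i1, i2⟩
    rw [div_mul_cancel₀ _ e1.ne'] at this
    exact this
  refine ⟨τ, δ, d0, by linarith, by linarith, ?_, ?_, ball', side', ?_, ?_, ?_⟩
  · intro p hp
    obtain ⟨e0, e1, e2, e3, e4, e5⟩ := hδ' (hin p.1 hp.1 p.2 hp.2)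
    exact (e5.of_le (by norm_num)).contDiffWithinAt
  · intro X hX' ε hε
    exact (hδ' (hin X hX' ε hε)).2.1
  · intro X hX' ε hε
    exact (hδ' (hin X hX' ε hε)).1
  · intro X hX' ε hε
    exact (hδ' (hin X hX' ε hε)).2.2.2.2.1
  · intro X hX'
    have hε : (0 : ℝ) ∈ Ioo (-δ) δ := ⟨by linarith, d0⟩
    have hXp : 0 < X := by linarith [hX'.1]
    obtain ⟨T, hT, γ', k0, kT, kd, -, kb, ks, ki⟩ := hB a c hXp
    have hXR : 1 + X < R := by linarith [hX'.2]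
    have hZ' := uniq h hXR k0 kd kb
    have e1 : 0 < τ (X, 0) := (hδ' (hin X hX' 0 hε)).2.1
    have e0 : (Z (τ (X, 0)) (0, et X) 0).1 = 0 := (hδ' (hin X hX' 0 hε)).1
    have hτT : τ (X, 0) = T := by
      rcases lt_trichotomy (τ (X, 0)) T with hlt | heq | hgt
      · exfalso
        have := ks _ ⟨e1, hlt⟩
        rw [← hZ' _ ⟨e1.le, hlt.le⟩, e0] at this
        exact lt_irrefl _ this
      · exact heq
      · exfalso
        have := side' X hX' 0 hε T ⟨hT, hgt⟩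
        rw [hZ' _ ⟨hT.le, le_rfl⟩, kT] at this
        exact lt_irrefl _ this
    rw [hτT, ← ki]
    have hW : ∀ t ∈ uIcc 0 T, HasDerivAt (fun t => W t (0, et X) 0)
        (G a c (Z t (0, et X) 0)) t := by
      intro t ht
      rw [uIcc_of_le hT.le] at ht
      refine h.derW _ _ _ ?_ (by simp)
      rw [hZ' t ht]
      exact (kb t ht).trans_lt hXR
    have hI := intervalIntegral.integral_eq_sub_of_hasDerivAt hW
      (((G_cont a c).comp (Z_cont h (0, et X) 0)).intervalIntegrable _ _)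
    rw [h.wzero, sub_zero] at hI
    rw [← hI]
    apply intervalIntegral.integral_congr
    intro t ht
    rw [uIcc_of_le hT.le] at ht
    show G a c (Z t (0, et X) 0) = G a c (γ' t)
    rw [hZ' t ht]

end Pool.Agent.W523.HC
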