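import Pool.Agent.W523.Glob

open Polynomial

namespace Pool.Agent.W523

lemma wronskian_zero {N p : ℂ[X]} (hN : N ≠ 0) (h : N * derivative p = derivative N * p) :
    ∃ c : ℂ, p = C c * N := by
  classical
  obtain ⟨N₁, p₁, hcop, h1, h2⟩ : ∃ N₁ p₁ : ℂ[X], IsCoprime N₁ p₁ ∧
      N = gcd N p * N₁ ∧ p = gcd N p * p₁ := by
    have hd : gcd N p ≠ 0 := gcd_ne_zero_of_left hN
    obtain ⟨N₁, hN₁⟩ := gcd_dvd_left N p
    obtain ⟨p₁, hp₁⟩ := gcd_dvd_right N p
    refine ⟨N₁, p₁, ?_, hN₁, hp₁⟩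
    rw [← gcd_isUnit_iff]
    have h3 : gcd N p * gcd N₁ p₁ ∣ gcd N p * 1 := by
      rw [mul_one]
      have h4 : gcd N p * gcd N₁ p₁ ∣ N := by
        nth_rw 2 [hN₁]; exact mul_dvd_mul_left _ (gcd_dvd_left _ _)
      have h5 : gcd N p * gcd N₁ p₁ ∣ p := by
        nth_rw 2 [hp₁]; exact mul_dvd_mul_left _ (gcd_dvd_right _ _)
      exact dvd_gcd h4 h5
    exact isUnit_of_dvd_one ((mul_dvd_mul_iff_left hd).1 h3)
  set d := gcd N p with hd
  have hd0 : d ≠ 0 := by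
    intro h0
    rw [h0, zero_mul] at h1
    exact hN h1
  have hw : N₁.wronskian p₁ = 0 := by
    rw [wronskian]
    have h3 : d ^ 2 * (N₁ * derivative p₁ - derivative N₁ * p₁) = 0 := by
      rw [h1, h2] at h
      simp only [derivative_mul] at h
      linear_combination h
    exact (mul_eq_zero.1 h3).resolve_left (pow_ne_zero _ hd0)
  obtain ⟨h4, h5⟩ := hcop.wronskian_eq_zero_iff.1 hw
  have h6 := Polynomial.derivative_eq_zero.1 h4
  have h7 := Polynomial.derivative_eq_zero.1 h5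
  rw [Polynomial.natDegree_eq_zero] at h6 h7
  obtain ⟨c₁, rfl⟩ := h6
  obtain ⟨c₂, rfl⟩ := h7
  have hc₁ : c₁ ≠ 0 := by
    rintro rfl
    rw [map_zero, mul_zero] at h1
    exact hN h1
  refine ⟨c₂ / c₁, ?_⟩
  rw [h1, h2]
  have : (C (c₂ / c₁) : ℂ[X]) * C c₁ = C c₂ := by
    rw [← map_mul, div_mul_cancel₀ _ hc₁]
  rw [← this]
  ring

section kernel

variable {L : Type} [Field L] [Algebra ℂ L] {f : ℂ[X]} {ι : CR ℂ f →+* L}

lemma IsFF.ker_aux (h : IsFF f L ι) (hf : Squarefree f) (hd : f.natDegree ≠ 0)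
    (D : Derivation ℂ L L) (hx : D (ι (xx f)) = 2 * ι ⟨0, 1⟩)
    (hy : D (ι ⟨0, 1⟩) = aeval (ι (xx f)) (derivative f)) (w : L) (hw : D w = 0) (N p q : ℂ[X])
    (hN0 : N ≠ 0) (hwN : w * ι ⟨N, 0⟩ = ι ⟨p, q⟩) : ∃ c, w = algebraMap ℂ L c := by
  have h1 := congrArg D hwN
  rw [Derivation.leibniz, hw, smul_zero, add_zero, smul_eq_mul, h.pres D hx hy, h.pres D hx hy] at h1
  have h2 : ι (⟨p, q⟩ * ⟨0 * derivative f + 2 * derivative 0 * f, 2 * derivative N⟩) =
      ι (⟨N, 0⟩ * ⟨q * derivative f + 2 * derivative q * f, 2 * derivative p⟩) := by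
    rw [map_mul ι ⟨N, 0⟩, map_mul ι ⟨p, q⟩, ← hwN]
    have h1' : w * ι ⟨0 * derivative f + 2 * derivative 0 * f, 2 * derivative N⟩ =
      ι ⟨q * derivative f + 2 * derivative q * f, 2 * derivative p⟩ := h1
    rw [← h1']
    ring
  have h3 := h.inj h2
  have h4 := congrArg QuadraticAlgebra.re h3
  have h5 := congrArg QuadraticAlgebra.im h3
  rw [QuadraticAlgebra.re_mul, QuadraticAlgebra.re_mul] at h4
  rw [QuadraticAlgebra.im_mul, QuadraticAlgebra.im_mul] at h5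
  simp only [derivative_zero, mul_zero, zero_mul, add_zero, zero_add] at h4 h5
  have two : (2 : ℂ[X]) ≠ 0 := two_ne_zero
  obtain ⟨c, hc⟩ := wronskian_zero (N := N) (p := p) hN0 (by
    apply mul_left_cancel₀ two
    linear_combination -h5)
  obtain ⟨c', hc'⟩ := wronskian_zero (N := N ^ 2) (p := q ^ 2 * f) (pow_ne_zero _ hN0) (by
    simp only [derivative_mul, derivative_pow, Nat.cast_ofNat, map_ofNat, Nat.add_one_sub_one,
      pow_one]
    linear_combination -N * q * h4)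
  have hq : q = 0 := by
    obtain ⟨r, hr⟩ := IsAlgClosed.exists_pow_nat_eq c' (n := 2) (by norm_num)
    apply nosq hf hd (p := C r * N) (q := q)
    rw [mul_pow, ← map_pow, hr]
    linear_combination -hc'
  refine ⟨c, ?_⟩
  have hm : (⟨p, q⟩ : CR ℂ f) = ⟨C c, 0⟩ * ⟨N, 0⟩ := by
    ext1
    · rw [QuadraticAlgebra.re_mul, hc]; ring
    · rw [QuadraticAlgebra.im_mul, hq]; ring
  have hNι : ι ⟨N, 0⟩ ≠ 0 := by
    intro h0
    have := congrArg QuadraticAlgebra.re (h.inj (h0.trans (map_zero ι).symm))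
    exact hN0 this
  apply mul_right_cancel₀ hNι
  rw [hwN, hm, map_mul, ← h.hsc]
  rfl

/-- the kernel of the derivation consists of constants -/
lemma IsFF.ker (h : IsFF f L ι) (hf : Squarefree f) (hd : f.natDegree ≠ 0)
    (D : Derivation ℂ L L) (hx : D (ι (xx f)) = 2 * ι ⟨0, 1⟩)
    (hy : D (ι ⟨0, 1⟩) = aeval (ι (xx f)) (derivative f)) (w : L) (hw : D w = 0) :
    ∃ c, w = algebraMap ℂ L c := by
  have := isDomain_CR hf hd
  obtain ⟨n, s, hs, hws⟩ := h.frac w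
  have hN : (⟨s.re ^ 2 - f * s.im ^ 2, 0⟩ : CR ℂ f) = s * ⟨s.re, -s.im⟩ := by
    ext1
    · rw [QuadraticAlgebra.re_mul]; ring
    · rw [QuadraticAlgebra.im_mul]; ring
  have hsb : (⟨s.re, -s.im⟩ : CR ℂ f) ≠ 0 := by
    intro h0
    apply hs
    have h1 := congrArg QuadraticAlgebra.re h0
    have h2 := congrArg QuadraticAlgebra.im h0
    rw [QuadraticAlgebra.re_zero] at h1
    rw [QuadraticAlgebra.im_zero] at h2
    ext1
    · rw [QuadraticAlgebra.re_zero]; exact h1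
    · rw [QuadraticAlgebra.im_zero]; exact neg_eq_zero.1 h2
  have hN0 : s.re ^ 2 - f * s.im ^ 2 ≠ 0 := by
    intro h0
    rw [h0] at hN
    exact mul_ne_zero hs hsb hN.symm
  refine h.ker_aux hf hd D hx hy w hw _ (n * ⟨s.re, -s.im⟩).re (n * ⟨s.re, -s.im⟩).im hN0 ?_
  rw [hN, map_mul, ← mul_assoc, hws, ← map_mul]

end kernel

end Pool.Agent.W523
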