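import Mathlib

open AlgebraicGeometry CategoryTheory Limits Polynomial
open scoped TensorProduct

namespace Pool.Agent.W523

/-- two morphisms to a separated scheme which agree on a jointly injective family are equal -/
lemma eq_of_jointly {M Z : Scheme.{0}} (sM : M ⟶ Z) [IsSeparated sM] {T : Type} [CommRing T]
    (p q : Spec (.of T) ⟶ M) (h : p ≫ sM = q ≫ sM) {ι : Type} {B : Type} [CommRing B]
    (μ : ι → (T →+* B))
    (hμ : ∀ k, Spec.map (CommRingCat.ofHom (μ k)) ≫ p = Spec.map (CommRingCat.ofHom (μ k)) ≫ q)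
    (inj : ∀ x, (∀ k, μ k x = 0) → x = 0) : p = q := by
  let X' : Over Z := Over.mk (p ≫ sM)
  let Y' : Over Z := Over.mk sM
  let f' : X' ⟶ Y' := Over.homMk p
  let g' : X' ⟶ Y' := Over.homMk q h.symm
  have : IsSeparated Y'.hom := ‹_›
  have hc := isClosedImmersion_equalizer_ι_left f' g'
  obtain ⟨I, e, he⟩ := (IsClosedImmersion.Spec_iff (R := .of T)).1 hc
  have hcond : (equalizer.ι f' g').left ≫ p = (equalizer.ι f' g').left ≫ q :=
    congr($(equalizer.condition f' g').left)
  have hI : ∀ x ∈ I, x = 0 := by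
    intro x hx
    apply inj
    intro k
    let U' : Over Z := Over.mk (Spec.map (CommRingCat.ofHom (μ k)) ≫ p ≫ sM)
    let ι' : U' ⟶ X' := Over.homMk (Spec.map (CommRingCat.ofHom (μ k)))
    let l := equalizer.lift (f := f') (g := g') ι' (by ext1; exact hμ k)
    have hl : l.left ≫ (equalizer.ι f' g').left = Spec.map (CommRingCat.ofHom (μ k)) := by
      have : (l ≫ equalizer.ι f' g').left = ι'.left := by rw [equalizer.lift_ι]
      exact this
    rw [he, ← Category.assoc, ← Spec.map_preimage (l.left ≫ e.hom), ← Spec.map_comp] at hl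
    have h2 := congrArg CommRingCat.Hom.hom (Spec.map_injective hl)
    have h3 := congr($h2 x)
    rw [CommRingCat.hom_ofHom] at h3
    rw [← h3]
    change (Spec.preimage (l.left ≫ e.hom)).hom (Ideal.Quotient.mk I x) = 0
    rw [Ideal.Quotient.eq_zero_iff_mem.2 hx, map_zero]
  have hbij : Function.Bijective (Ideal.Quotient.mk I) := by
    refine ⟨?_, Ideal.Quotient.mk_surjective⟩
    rw [injective_iff_map_eq_zero]
    intro x hx
    exact hI x (Ideal.Quotient.eq_zero_iff_mem.1 hx)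
  have h4 : IsIso (CommRingCat.ofHom (Ideal.Quotient.mk I)) :=
    (RingEquiv.ofBijective _ hbij).toCommRingCatIso.isIso_hom
  have h5 : IsIso (equalizer.ι f' g').left := by
    rw [he]; infer_instance
  rw [← cancel_epi (equalizer.ι f' g').left]
  exact hcond

section algebra

variable {R : Type} [CommRing R] (m : ℕ) (a : R)

/-- the Kummer polynomial -/
noncomputable def kpol : R[X] := X ^ m - C a

/-- the Kummer extension `R[X]/(X^m - a)` -/
abbrev KR : Type := AdjoinRoot (kpol m a)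

variable {m a}

lemma kpol_monic (hm : m ≠ 0) : (kpol m a).Monic := monic_X_pow_sub_C a hm

lemma kroot_pow : (AdjoinRoot.root (kpol m a)) ^ m = AdjoinRoot.of (kpol m a) a := by
  have h := AdjoinRoot.eval₂_root (kpol m a)
  have h2 : ∀ (T : Type) [CommRing T] (φ : R →+* T) (z : T),
      eval₂ φ z (kpol m a) = z ^ m - φ a := by
    intro T _ φ z
    rw [kpol, eval₂_sub, eval₂_pow, eval₂_X, eval₂_C]
  rw [h2] at h
  exact sub_eq_zero.1 h

/-- lift from a Kummer extension -/
noncomputable def klift {T : Type} [CommRing T] (φ : R →+* T) (z : T) (h : z ^ m = φ a) :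
    KR m a →+* T :=
  AdjoinRoot.lift φ z (by rw [kpol, eval₂_sub, eval₂_pow, eval₂_X, eval₂_C, h, sub_self])

section
variable {T : Type} [CommRing T] (φ : R →+* T) (z : T) (h : z ^ m = φ a)

lemma klift_of (r : R) : klift φ z h (AdjoinRoot.of _ r) = φ r := by
  rw [klift, AdjoinRoot.lift_of]

lemma klift_root : klift φ z h (AdjoinRoot.root _) = z := by
  rw [klift, AdjoinRoot.lift_root]
end

lemma ksig_rel (z : R) (hz : z ^ m = 1) :
    (AdjoinRoot.of (kpol m a) z * AdjoinRoot.root (kpol m a)) ^ m = AdjoinRoot.of (kpol m a) a := by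
  rw [mul_pow, ← map_pow, hz, map_one, one_mul, kroot_pow]

/-- the automorphism given by a root of unity -/
noncomputable def ksig (z : R) (hz : z ^ m = 1) : KR m a →ₐ[R] KR m a where
  toRingHom := klift (AdjoinRoot.of _) (AdjoinRoot.of _ z * AdjoinRoot.root _) (ksig_rel z hz)
  commutes' := fun r => klift_of _ _ _ r

lemma ksig_root (z : R) (hz : z ^ m = 1) :
    ksig z hz (AdjoinRoot.root (kpol m a)) = AdjoinRoot.of _ z * AdjoinRoot.root _ :=
  klift_root _ _ (ksig_rel z hz)

/-- `b ⊗ b' ↦ b σ(b')` -/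
noncomputable def kmu (z : R) (hz : z ^ m = 1) : (KR m a) ⊗[R] (KR m a) →ₐ[KR m a] KR m a :=
  Algebra.TensorProduct.lift (AlgHom.id _ _) (ksig z hz) (fun _ _ => Commute.all _ _)

lemma kmu_tmul (z : R) (hz : z ^ m = 1) (x y : KR m a) :
    kmu z hz (x ⊗ₜ y) = x * ksig z hz y := by
  rw [kmu, Algebra.TensorProduct.lift_tmul]; rfl

lemma root_nzd (hm : m ≠ 0) (ha : ∀ c : R, a * c = 0 → c = 0) (b : KR m a)
    (hb : b * AdjoinRoot.root _ = 0) : b = 0 := by
  have h1 : b * AdjoinRoot.root _ ^ m = 0 := by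
    obtain ⟨k, rfl⟩ := Nat.exists_eq_succ_of_ne_zero hm
    rw [pow_succ', ← mul_assoc, hb, zero_mul]
  rw [kroot_pow] at h1
  have h2 : a • b = 0 := by
    rw [Algebra.smul_def, mul_comm]; exact h1
  let pb := AdjoinRoot.powerBasis' (kpol_monic (a := a) hm)
  apply pb.basis.repr.injective
  rw [map_zero]
  ext i
  have h3 := congr($(congrArg pb.basis.repr h2) i)
  rw [map_smul, map_zero, Finsupp.smul_apply, smul_eq_mul, Finsupp.zero_apply] at h3
  rw [Finsupp.zero_apply]
  exact ha _ h3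

lemma root_pow_nzd (hm : m ≠ 0) (ha : ∀ c : R, a * c = 0 → c = 0) (b : KR m a) (k : ℕ)
    (hb : b * AdjoinRoot.root _ ^ k = 0) : b = 0 := by
  induction k with
  | zero => rwa [pow_zero, mul_one] at hb
  | succ k ih =>
    rw [pow_succ, ← mul_assoc] at hb
    exact ih (root_nzd hm ha _ hb)

lemma sum_eta {ζ : ℂ} (h : IsPrimitiveRoot ζ m) (i j : ℕ) (hi : i < m) (hj : j < m) :
    ∑ k ∈ Finset.range m, ζ ^ ((m - i) * k) * (ζ ^ k) ^ j = if i = j then (m : ℂ) else 0 := by
  have h1 : ∀ k ∈ Finset.range m, ζ ^ ((m - i) * k) * (ζ ^ k) ^ (j : ℕ) =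
      (ζ ^ (m - i + j)) ^ k := by
    intro k _
    rw [← pow_mul, ← pow_add, ← pow_mul]
    congr 1
    ring
  rw [Finset.sum_congr rfl h1]
  split_ifs with hij
  · subst hij
    rw [Nat.sub_add_cancel hi.le, h.pow_eq_one]
    simp
  · have h2 : ζ ^ (m - i + j) ≠ 1 := by
      intro h3
      have h4 := (h.pow_eq_one_iff_dvd _).1 h3
      obtain ⟨q, hq⟩ := h4
      rcases Nat.lt_trichotomy q 1 with hq1 | hq1 | hq1
      · interval_cases q; omega
      · subst hq1
        apply hij; omega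
      · have : m * 2 ≤ m * q := Nat.mul_le_mul_left _ hq1
        omega
    have h3 := mul_neg_geom_sum (ζ ^ (m - i + j)) m
    rw [← pow_mul, mul_comm _ m, pow_mul, h.pow_eq_one, one_pow, sub_self] at h3
    rcases mul_eq_zero.1 h3 with h4 | h4
    · exact (h2 (sub_eq_zero.1 h4).symm).elim
    · exact h4

/-- joint injectivity -/
lemma kmu_inj [Nontrivial R] (γ : ℂ →+* R) {ζ : ℂ} (h : IsPrimitiveRoot ζ m) (hm : m ≠ 0)
    (ha : ∀ c : R, a * c = 0 → c = 0) (x : (KR m a) ⊗[R] (KR m a))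
    (hz : ∀ k, (γ (ζ ^ k)) ^ m = 1)
    (hx : ∀ k, kmu (γ (ζ ^ k)) (hz k) x = 0) : x = 0 := by
  let pb := AdjoinRoot.powerBasis' (kpol_monic (a := a) hm)
  have hdim : pb.dim = m := natDegree_X_pow_sub_C
  let bs := Algebra.TensorProduct.basis (KR m a) pb.basis
  have hbs : ∀ j, bs j = 1 ⊗ₜ (AdjoinRoot.root (kpol m a) ^ (j : ℕ)) := by
    intro j
    rw [Algebra.TensorProduct.basis_apply, pb.basis_eq_pow]
    rfl
  have hmu : ∀ k, kmu (γ (ζ ^ k)) (hz k) x =
      ∑ j, bs.repr x j * (AdjoinRoot.root (kpol m a) ^ (j : ℕ) *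
        AdjoinRoot.of _ (γ ((ζ ^ k) ^ (j : ℕ)))) := by
    intro k
    conv_lhs => rw [← bs.sum_repr x]
    rw [map_sum]
    refine Finset.sum_congr rfl fun j _ => ?_
    rw [map_smul, hbs, kmu_tmul, map_pow, ksig_root, one_mul, smul_eq_mul, mul_pow,
      mul_comm (AdjoinRoot.root _ ^ (j : ℕ))]
    simp only [map_pow]
  have key : ∀ i, bs.repr x i = 0 := by
    intro i
    have h1 : ∑ k ∈ Finset.range m, AdjoinRoot.of (kpol m a) (γ (ζ ^ ((m - i) * k))) *
        kmu (γ (ζ ^ k)) (hz k) x = 0 := by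
      refine Finset.sum_eq_zero fun k _ => ?_
      rw [hx, mul_zero]
    have h2 : ∑ k ∈ Finset.range m, AdjoinRoot.of (kpol m a) (γ (ζ ^ ((m - i) * k))) *
        kmu (γ (ζ ^ k)) (hz k) x = ∑ j, bs.repr x j * (AdjoinRoot.root (kpol m a) ^ (j : ℕ) *
        AdjoinRoot.of _ (γ (if (i : ℕ) = j then (m : ℂ) else 0))) := by
      simp_rw [hmu, Finset.mul_sum]
      rw [Finset.sum_comm]
      refine Finset.sum_congr rfl fun j _ => ?_
      rw [← sum_eta h i j (lt_of_lt_of_eq i.2 hdim) (lt_of_lt_of_eq j.2 hdim), map_sum, map_sum, Finset.mul_sum,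
        Finset.mul_sum]
      refine Finset.sum_congr rfl fun k _ => ?_
      rw [map_mul γ, map_mul (AdjoinRoot.of _)]
      ring
    rw [h1, Finset.sum_eq_single i] at h2
    · rw [if_pos rfl, ← mul_assoc] at h2
      have hu : IsUnit (AdjoinRoot.of (kpol m a) (γ (m : ℂ))) :=
        ((isUnit_iff_ne_zero.2 (Nat.cast_ne_zero.2 hm)).map γ).map _
      have h3 := (hu.mul_left_eq_zero).1 h2.symm
      exact root_pow_nzd hm ha _ _ h3
    · intro j _ hj
      rw [if_neg (fun h' => hj (Fin.ext h'.symm)), map_zero, map_zero, mul_zero, mul_zero]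
    · intro hi; exact (hi (Finset.mem_univ _)).elim
  apply bs.repr.injective
  ext i
  rw [key, map_zero, Finsupp.zero_apply]

/-- Kummer descent -/
theorem kdescent [Nontrivial R] (γ : ℂ →+* R) (hm : m ≠ 0) (ha : ∀ c : R, a * c = 0 → c = 0)
    {M : Scheme.{0}} (sM : M ⟶ Spec (.of ℂ)) [IsSeparated sM] (f : Spec (.of (KR m a)) ⟶ M)
    (hf : f ≫ sM = Spec.map (CommRingCat.ofHom ((AdjoinRoot.of (kpol m a)).comp γ)))
    (inv : ∀ (z : ℂ) (hz : (γ z) ^ m = 1), z ^ m = 1 →
      Spec.map (CommRingCat.ofHom (ksig (a := a) (γ z) hz).toRingHom) ≫ f = f) :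
    ∃ f' : Spec (.of R) ⟶ M,
      Spec.map (CommRingCat.ofHom (AdjoinRoot.of (kpol m a))) ≫ f' = f ∧
      f' ≫ sM = Spec.map (CommRingCat.ofHom γ) := by
  obtain ⟨ζ, hζ⟩ : ∃ ζ : ℂ, IsPrimitiveRoot ζ m := ⟨_, Complex.isPrimitiveRoot_exp m hm⟩
  have hff : (AdjoinRoot.of (kpol m a)).FaithfullyFlat := by
    have hfree : Module.Free R (KR m a) :=
      Module.Free.of_basis (AdjoinRoot.powerBasis' (kpol_monic (a := a) hm)).basis
    have hnt : Nontrivial (KR m a) := by
      let pb := AdjoinRoot.powerBasis' (kpol_monic (a := a) hm)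
      have hdim : pb.dim = m := natDegree_X_pow_sub_C
      exact ⟨_, 0, pb.basis.ne_zero ⟨0, by omega⟩⟩
    exact (RingHom.faithfullyFlat_algebraMap_iff (R := R) (S := KR m a)).2 inferInstance
  have h0 := (flat_and_surjective_SpecMap_iff (CommRingCat.ofHom (AdjoinRoot.of (kpol m a)))).2 hff
  have h1 : Flat (Spec.map (CommRingCat.ofHom (AdjoinRoot.of (kpol m a)))) := h0.1
  have h2 : Surjective (Spec.map (CommRingCat.ofHom (AdjoinRoot.of (kpol m a)))) := h0.2
  have h3 : IsRegularEpi (Spec.map (CommRingCat.ofHom (AdjoinRoot.of (kpol m a)))) :=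
    isRegularEpi_of_flat_of_surjective_of_isAffine _
  have h4 : IsKernelPair (Spec.map (CommRingCat.ofHom (AdjoinRoot.of (kpol m a)))) _ _ :=
    isPullback_SpecMap_of_isPushout _ _ _ _
      (CommRingCat.isPushout_tensorProduct R (KR m a) (KR m a))
  have hz : ∀ k, (γ (ζ ^ k)) ^ m = 1 := by
    intro k
    rw [← map_pow, ← pow_mul, mul_comm, pow_mul, hζ.pow_eq_one, one_pow, map_one]
  have h5 : Spec.map (CommRingCat.ofHom Algebra.TensorProduct.includeLeftRingHom) ≫ f =
      Spec.map (CommRingCat.ofHom (Algebra.TensorProduct.includeRight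
        (R := R) (A := KR m a) (B := KR m a)).toRingHom) ≫ f := by
    refine eq_of_jointly sM _ _ ?_ (ι := ℕ) (fun k => (kmu (γ (ζ ^ k)) (hz k)).toRingHom) ?_ ?_
    · rw [Category.assoc, Category.assoc, hf, ← Spec.map_comp, ← Spec.map_comp,
        ← CommRingCat.ofHom_comp, ← CommRingCat.ofHom_comp]
      congr 2
      rw [← RingHom.comp_assoc, ← RingHom.comp_assoc]
      congr 1
      exact Algebra.TensorProduct.includeLeftRingHom_comp_algebraMap
    · intro k
      rw [← Category.assoc, ← Category.assoc, ← Spec.map_comp, ← Spec.map_comp,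
        ← CommRingCat.ofHom_comp, ← CommRingCat.ofHom_comp]
      have e1 : (kmu (a := a) (γ (ζ ^ k)) (hz k)).toRingHom.comp
          Algebra.TensorProduct.includeLeftRingHom = RingHom.id _ := by
        refine RingHom.ext fun b => ?_
        change kmu (γ (ζ ^ k)) (hz k) (b ⊗ₜ 1) = b
        rw [kmu_tmul, map_one, mul_one]
      have e2 : (kmu (a := a) (γ (ζ ^ k)) (hz k)).toRingHom.comp
          (Algebra.TensorProduct.includeRight).toRingHom = (ksig (γ (ζ ^ k)) (hz k)).toRingHom := by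
        refine RingHom.ext fun b => ?_
        change kmu (γ (ζ ^ k)) (hz k) (1 ⊗ₜ b) = _
        rw [kmu_tmul, one_mul]
        rfl
      rw [e1, e2, inv (ζ ^ k) (hz k) (by rw [← pow_mul, mul_comm, pow_mul, hζ.pow_eq_one, one_pow])]
      have e3 : CommRingCat.ofHom (RingHom.id (KR m a)) = 𝟙 _ := rfl
      rw [e3, Spec.map_id]
      exact Category.id_comp f
    · intro x hx
      exact kmu_inj γ hζ hm ha x hz hx
  obtain ⟨f', hf'⟩ := IsRegularEpi.exists_of_isKernelPair _ h4 f h5
  refine ⟨f', hf', ?_⟩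
  have : Epi (Spec.map (CommRingCat.ofHom (AdjoinRoot.of (kpol m a)))) :=
    Flat.epi_of_flat_of_surjective _
  rw [← cancel_epi (Spec.map (CommRingCat.ofHom (AdjoinRoot.of (kpol m a)))), ← Category.assoc, hf',
    hf, CommRingCat.ofHom_comp, Spec.map_comp]

end algebra

end Pool.Agent.W523
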