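import Pool.Agent.W523.NonIso
import Pool.Agent.W523.Kummer

open AlgebraicGeometry CategoryTheory Limits Polynomial

namespace Pool.Agent.W523

section kummer

variable {R : Type} [CommRing R] {m : ℕ} {a : R}

lemma of_nzd (hm : m ≠ 0) (r : R) (hr : ∀ c : R, r * c = 0 → c = 0) (b : KR m a)
    (hb : AdjoinRoot.of (kpol m a) r * b = 0) : b = 0 := by
  have h2 : r • b = 0 := by
    rw [Algebra.smul_def]; exact hb
  let pb := AdjoinRoot.powerBasis' (kpol_monic (a := a) hm)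
  apply pb.basis.repr.injective
  rw [map_zero]
  ext i
  have h3 := congr($(congrArg pb.basis.repr h2) i)
  rw [map_smul, map_zero, Finsupp.smul_apply, smul_eq_mul, Finsupp.zero_apply] at h3
  rw [Finsupp.zero_apply]
  exact hr _ h3

lemma KR_nontrivial [Nontrivial R] (hm : m ≠ 0) : Nontrivial (KR m a) := by
  let pb := AdjoinRoot.powerBasis' (kpol_monic (a := a) hm)
  have hdim : pb.dim = m := natDegree_X_pow_sub_C
  exact ⟨_, 0, pb.basis.ne_zero ⟨0, by omega⟩⟩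

lemma KR_noeth [IsNoetherianRing R] : IsNoetherianRing (KR m a) :=
  isNoetherianRing_of_surjective _ _ (AdjoinRoot.mk (kpol m a)) AdjoinRoot.mk_surjective

lemma of_epi [Nontrivial R] (hm : m ≠ 0) :
    Epi (Spec.map (CommRingCat.ofHom (AdjoinRoot.of (kpol m a)))) := by
  have hff : (AdjoinRoot.of (kpol m a)).FaithfullyFlat := by
    have hfree : Module.Free R (KR m a) :=
      Module.Free.of_basis (AdjoinRoot.powerBasis' (kpol_monic (a := a) hm)).basis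
    have hnt : Nontrivial (KR m a) := KR_nontrivial hm
    exact (RingHom.faithfullyFlat_algebraMap_iff (R := R) (S := KR m a)).2 inferInstance
  have h0 := (flat_and_surjective_SpecMap_iff (CommRingCat.ofHom (AdjoinRoot.of (kpol m a)))).2 hff
  have h1 : Flat (Spec.map (CommRingCat.ofHom (AdjoinRoot.of (kpol m a)))) := h0.1
  have h2 : Surjective (Spec.map (CommRingCat.ofHom (AdjoinRoot.of (kpol m a)))) := h0.2
  exact Flat.epi_of_flat_of_surjective _

end kummer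

section main

variable (g : ℕ)

/-- `ℂ[S][s]/(s^n - S)` -/
abbrev Rone : Type := KR (2 * g + 2) (X : ℂ[X])

/-- the function `1 - S` -/
noncomputable def qq : Rone g := AdjoinRoot.of _ (1 - X)

/-- adjoin `t` with `t^(n-1) = 1 - S` -/
abbrev Rtwo : Type := KR (2 * g + 1) (qq g)

/-- scalars -/
noncomputable def γ₁ : ℂ →+* Rone g := (AdjoinRoot.of _).comp C

/-- scalars -/
noncomputable def γ₂ : ℂ →+* Rtwo g := (AdjoinRoot.of _).comp (γ₁ g)

/-- the function `s` -/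
noncomputable def ss : Rtwo g := AdjoinRoot.of _ (AdjoinRoot.root _)

/-- the function `t` -/
noncomputable def tt : Rtwo g := AdjoinRoot.root _

lemma ss_tt : ss g ^ (2 * g + 2) + tt g ^ (2 * g + 1) = 1 := by
  have h : AdjoinRoot.of (kpol (2 * g + 2) (X : ℂ[X])) X + qq g = 1 := by
    change AdjoinRoot.of (kpol (2 * g + 2) (X : ℂ[X])) X + AdjoinRoot.of _ (1 - X) = 1
    rw [← map_add, add_sub_cancel, map_one]
  rw [ss, tt, kroot_pow, ← map_pow, kroot_pow, ← map_add, h, map_one]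

variable {g} {α β : ℂ} (hα : ((2 * g + 1 : ℕ) : ℂ) ^ (2 * g + 1) * α ^ (2 * g + 2) = 1)
  (hβ : ((2 * g + 2 : ℕ) : ℂ) ^ (2 * g + 2) * β ^ (2 * g + 1) = -1)

include hα hβ in
lemma disc_two : disc g (γ₂ g α * ss g) (γ₂ g β * tt g) = 1 := by
  have h1 := congrArg (γ₂ g) hα
  have h2 := congrArg (γ₂ g) hβ
  simp only [map_mul, map_pow, map_natCast, map_one, map_neg] at h1 h2
  rw [disc, mul_pow, mul_pow, ← mul_assoc, ← mul_assoc, h1, h2]
  linear_combination ss_tt g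

include hα in
lemma disc_α : disc g α 0 = 1 := by
  rw [disc, hα, zero_pow (by omega)]; ring

include hβ in
lemma disc_β : disc g 0 β = 1 := by
  rw [disc, hβ, zero_pow (by omega)]; ring

include hα hβ in
lemma family : IsCurveFamily g (crvMap g (γ₂ g α * ss g) (γ₂ g β * tt g)) := by
  have : IsNoetherianRing (Rone g) := KR_noeth
  have : IsNoetherianRing (Rtwo g) := KR_noeth
  have : Nontrivial (Rone g) := KR_nontrivial (by omega)
  have : Nontrivial (Rtwo g) := KR_nontrivial (by omega)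
  refine isCurveFamily g _ _ ?_ ?_
  · rw [disc_two hα hβ]; exact isUnit_one
  · have : IsUnit (γ₂ g 2) := (isUnit_iff_ne_zero.2 two_ne_zero).map _
    rwa [map_ofNat] at this

lemma family_ℂ (a b : ℂ) (hd : disc g a b ≠ 0) : IsCurveFamily g (crvMap g a b) :=
  isCurveFamily g a b (isUnit_iff_ne_zero.2 hd) (isUnit_iff_ne_zero.2 two_ne_zero)

/-- a ring map over `ℂ` twisted by a unit preserves the classifying map -/
lemma cl_twist {M : Scheme.{0}} {sM : M ⟶ Spec (.of ℂ)} (τ : ModuliTransformation g sM)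
    {R S : Type} [CommRing R] [CommRing S] {φ : R →+* S} {c d : S} {a b : R} {a' b' : S}
    (t : Tw g φ c d a b a' b') (h : IsCurveFamily g (crvMap g a b))
    (h' : IsCurveFamily g (crvMap g a' b')) (γ : ℂ →+* R) (γ' : ℂ →+* S)
    (hγ : φ.comp γ = γ') :
    τ.cl (Spec.map (CommRingCat.ofHom γ')) (crvMap g a' b') h' =
      Spec.map (CommRingCat.ofHom φ) ≫
        τ.cl (Spec.map (CommRingCat.ofHom γ)) (crvMap g a b) h := by
  subst hγ
  rw [CommRingCat.ofHom_comp, Spec.map_comp]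
  exact τ.natural _ _ h _ h' t.m _ t.isPullback

lemma aux3 {A : Type} [CommRing A] (c d : A) (k : ℕ) (h : c * d = 1) (hn : c ^ (k + 1) = 1) :
    c ^ k = d := by
  calc c ^ k = c ^ k * (c * d) := by rw [h, mul_one]
    _ = c ^ (k + 1) * d := by ring
    _ = d := by rw [hn, one_mul]

lemma aux4 {A : Type} [CommRing A] (x y z : A) : x * (y * z) = y * (x * z) := by ring

lemma gpow {z : ℂ} (k : ℕ) (hz : z ^ k = 1) : γ₂ g z ^ k = 1 := by
  rw [← map_pow, hz, map_one]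

/-- the first symmetry -/
lemma tw_t {z : ℂ} (hz : (γ₁ g z) ^ (2 * g + 1) = 1) (hz' : z ^ (2 * g + 1) = 1) :
    Tw g (ksig (a := qq g) (γ₁ g z) hz).toRingHom (γ₂ g z) (γ₂ g (z ^ (2 * g)))
      (γ₂ g α * ss g) (γ₂ g β * tt g) (γ₂ g α * ss g) (γ₂ g β * tt g) := by
  have e1 : ∀ r, (ksig (a := qq g) (γ₁ g z) hz).toRingHom (AdjoinRoot.of _ r) = AdjoinRoot.of _ r :=
    fun r => (ksig (a := qq g) (γ₁ g z) hz).commutes r
  have e2 : (ksig (a := qq g) (γ₁ g z) hz).toRingHom (tt g) = γ₂ g z * tt g :=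
    ksig_root (γ₁ g z) hz
  refine ⟨?_, ?_, ?_⟩
  · rw [← map_mul, ← pow_succ', hz', map_one]
  · rw [gpow _ hz', one_mul, map_mul]
    congr 1
    · exact e1 _
    · exact e1 _
  · rw [pow_succ, gpow _ hz', one_mul, map_mul, e2]
    have e3 : (ksig (a := qq g) (γ₁ g z) hz).toRingHom (γ₂ g β) = γ₂ g β := e1 _
    rw [e3]
    exact aux4 _ _ _

/-- the second symmetry, on the larger ring -/
noncomputable def phi (z : ℂ) (hz : (C z : ℂ[X]) ^ (2 * g + 2) = 1) : Rtwo g →+* Rtwo g :=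
  klift ((AdjoinRoot.of _).comp (ksig (a := (X : ℂ[X])) (C z) hz).toRingHom) (tt g) (by
    have e : (ksig (a := (X : ℂ[X])) (C z) hz).toRingHom (qq g) = qq g :=
      (ksig (a := (X : ℂ[X])) (C z) hz).commutes (1 - X)
    rw [RingHom.comp_apply, e]
    exact kroot_pow)

lemma phi_of (z : ℂ) (hz : (C z : ℂ[X]) ^ (2 * g + 2) = 1) (r : Rone g) :
    phi z hz (AdjoinRoot.of _ r) = AdjoinRoot.of _ (ksig (a := (X : ℂ[X])) (C z) hz r) :=
  klift_of _ _ _ r

lemma phi_tt (z : ℂ) (hz : (C z : ℂ[X]) ^ (2 * g + 2) = 1) : phi z hz (tt g) = tt g :=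
  klift_root _ _ _

lemma phi_γ (z : ℂ) (hz : (C z : ℂ[X]) ^ (2 * g + 2) = 1) (c : ℂ) :
    phi z hz (γ₂ g c) = γ₂ g c := by
  have e : (ksig (a := (X : ℂ[X])) (C z) hz) (γ₁ g c) = γ₁ g c :=
    (ksig (a := (X : ℂ[X])) (C z) hz).commutes (C c)
  refine (phi_of z hz (γ₁ g c)).trans ?_
  rw [e]
  rfl

lemma phi_ss (z : ℂ) (hz : (C z : ℂ[X]) ^ (2 * g + 2) = 1) :
    phi z hz (ss g) = γ₂ g z * ss g := by
  refine (phi_of z hz (AdjoinRoot.root _)).trans ?_
  rw [ksig_root, map_mul]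
  rfl

lemma tw_s {z : ℂ} (hz : (C z : ℂ[X]) ^ (2 * g + 2) = 1) (hz' : z ^ (2 * g + 2) = 1) :
    Tw g (phi z hz) (γ₂ g (z ^ (2 * g + 1))) (γ₂ g z)
      (γ₂ g α * ss g) (γ₂ g β * tt g) (γ₂ g α * ss g) (γ₂ g β * tt g) := by
  have hc : γ₂ g (z ^ (2 * g + 1)) * γ₂ g z = 1 := by
    rw [← map_mul, ← pow_succ, hz', map_one]
  have hn : γ₂ g (z ^ (2 * g + 1)) ^ (2 * g + 2) = 1 :=
    gpow _ (by rw [← pow_mul, mul_comm, pow_mul, hz', one_pow])
  refine ⟨hc, ?_, ?_⟩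
  · rw [map_mul, phi_γ, phi_ss]
    rw [aux3 _ _ _ hc hn]
    exact aux4 _ _ _
  · rw [hn, one_mul, map_mul, phi_γ, phi_tt]

include hα hβ in
/-- descent of the classifying map to the affine line -/
theorem descend {M : Scheme.{0}} {sM : M ⟶ Spec (.of ℂ)} [IsSeparated sM]
    (τ : ModuliTransformation g sM) :
    ∃ ν₀ : Spec (.of ℂ[X]) ⟶ M, ν₀ ≫ sM = Spec.map (CommRingCat.ofHom C) ∧
      Spec.map (CommRingCat.ofHom ((AdjoinRoot.of (kpol (2 * g + 1) (qq g))).comp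
        (AdjoinRoot.of (kpol (2 * g + 2) (X : ℂ[X]))))) ≫ ν₀ =
      τ.cl (Spec.map (CommRingCat.ofHom (γ₂ g))) _ (family hα hβ) := by
  have : IsNoetherianRing (Rone g) := KR_noeth
  have : IsNoetherianRing (Rtwo g) := KR_noeth
  have : Nontrivial (Rone g) := KR_nontrivial (by omega)
  have : Nontrivial (Rtwo g) := KR_nontrivial (by omega)
  set ν := τ.cl (Spec.map (CommRingCat.ofHom (γ₂ g))) _ (family hα hβ) with hν
  -- first step
  obtain ⟨ν₁, h1, h1'⟩ := kdescent (R := Rone g) (m := 2 * g + 1) (a := qq g) (γ₁ g) (by omega)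
    (fun c hc => of_nzd (by omega) (1 - X) (fun c hc => by
      refine (mul_eq_zero.1 hc).resolve_left ?_
      intro h0
      have := congrArg (Polynomial.eval 0) h0
      simp at this) c hc) sM ν (τ.cl_over _ _ _) (by
      intro z hz hz'
      exact (cl_twist τ (tw_t hz hz') (family hα hβ) (family hα hβ) (γ₂ g) (γ₂ g)
        (RingHom.ext fun c => (ksig (a := qq g) (γ₁ g z) hz).commutes (γ₁ g c))).symm)
  -- second step
  have hepi : Epi (Spec.map (CommRingCat.ofHom (AdjoinRoot.of (kpol (2 * g + 1) (qq g))))) :=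
    of_epi (by omega)
  obtain ⟨ν₀, h0, h0'⟩ := kdescent (R := ℂ[X]) (m := 2 * g + 2) (a := X) C (by omega)
    (fun c hc => (mul_eq_zero.1 hc).resolve_left X_ne_zero) sM ν₁ h1' (by
      intro z hz hz'
      rw [← cancel_epi (Spec.map (CommRingCat.ofHom (AdjoinRoot.of (kpol (2 * g + 1) (qq g)))))]
      have h2 := cl_twist τ (tw_s hz hz') (family hα hβ) (family hα hβ) (γ₂ g) (γ₂ g)
        (RingHom.ext fun c => phi_γ z hz c)
      rw [← hν] at h2
      have h3 : (AdjoinRoot.of (kpol (2 * g + 1) (qq g))).comp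
          (ksig (a := (X : ℂ[X])) (C z) hz).toRingHom =
          (phi z hz).comp (AdjoinRoot.of (kpol (2 * g + 1) (qq g))) :=
        RingHom.ext fun r => (phi_of z hz r).symm
      rw [h1, ← Category.assoc, ← Spec.map_comp, ← CommRingCat.ofHom_comp, h3,
        CommRingCat.ofHom_comp, Spec.map_comp, Category.assoc, h1, ← h2])
  refine ⟨ν₀, h0', ?_⟩
  rw [CommRingCat.ofHom_comp, Spec.map_comp, Category.assoc, h0, h1]

/-- a complex point of the larger base -/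
lemma exists_ev (u s₀ t₀ : ℂ) (hs : s₀ ^ (2 * g + 2) = u) (ht : t₀ ^ (2 * g + 1) = 1 - u) :
    ∃ ev : Rtwo g →+* ℂ, ev (ss g) = s₀ ∧ ev (tt g) = t₀ ∧ ev.comp (γ₂ g) = RingHom.id ℂ ∧
      ev.comp ((AdjoinRoot.of (kpol (2 * g + 1) (qq g))).comp
        (AdjoinRoot.of (kpol (2 * g + 2) (X : ℂ[X])))) = evalRingHom u := by
  let e1 : Rone g →+* ℂ := klift (evalRingHom u) s₀ (by rw [coe_evalRingHom, eval_X, hs])
  have h1 : ∀ p, e1 (AdjoinRoot.of _ p) = p.eval u := fun p => klift_of _ _ _ p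
  have hq : t₀ ^ (2 * g + 1) = e1 (qq g) := by
    rw [ht]
    refine Eq.trans ?_ (h1 (1 - X)).symm
    simp
  let e2 : Rtwo g →+* ℂ := klift e1 t₀ hq
  have h2 : ∀ r, e2 (AdjoinRoot.of _ r) = e1 r := fun r => klift_of _ _ _ r
  refine ⟨e2, ?_, ?_, ?_, ?_⟩
  · exact (h2 _).trans (klift_root _ _ _)
  · exact klift_root _ _ _
  · refine RingHom.ext fun c => ?_
    refine (h2 _).trans ((h1 _).trans ?_)
    rw [eval_C]
    rfl
  · refine RingHom.ext fun p => ?_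
    exact (h2 _).trans (h1 _)

/-- every coarse moduli space of curves contains an affine line -/
theorem contains (hg : 2 ≤ g) (𝓜 : CoarseModuliSpace g) : ContainsA1 𝓜.sM := by
  obtain ⟨α, hα'⟩ := IsAlgClosed.exists_pow_nat_eq ((((2 * g + 1 : ℕ) : ℂ) ^ (2 * g + 1))⁻¹)
    (n := 2 * g + 2) (by omega)
  obtain ⟨β, hβ'⟩ := IsAlgClosed.exists_pow_nat_eq (-(((2 * g + 2 : ℕ) : ℂ) ^ (2 * g + 2))⁻¹)
    (n := 2 * g + 1) (by omega)
  have hα : ((2 * g + 1 : ℕ) : ℂ) ^ (2 * g + 1) * α ^ (2 * g + 2) = 1 := by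
    rw [hα']
    exact mul_inv_cancel₀ (pow_ne_zero _ (Nat.cast_ne_zero.2 (by omega)))
  have hβ : ((2 * g + 2 : ℕ) : ℂ) ^ (2 * g + 2) * β ^ (2 * g + 1) = -1 := by
    rw [hβ', mul_neg]
    rw [mul_inv_cancel₀ (pow_ne_zero _ (Nat.cast_ne_zero.2 (by omega)))]
  have hβ0 : β ≠ 0 := by
    rintro rfl
    rw [zero_pow (by omega), mul_zero] at hβ
    norm_num at hβ
  have := 𝓜.separated
  obtain ⟨ν₀, h1, h2⟩ := descend hα hβ 𝓜.τ
  refine ⟨ν₀, h1, 0, 1, ?_⟩
  obtain ⟨ev₀, a1, a2, a3, a4⟩ := exists_ev (g := g) 0 0 1 (by rw [zero_pow (by omega)])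
    (by rw [one_pow, sub_zero])
  obtain ⟨ev₁, b1, b2, b3, b4⟩ := exists_ev (g := g) 1 1 0 (one_pow _)
    (by rw [zero_pow (by omega), sub_self])
  have d1 : disc g α 0 ≠ 0 := by rw [disc_α hα]; exact one_ne_zero
  have d2 : disc g 0 β ≠ 0 := by rw [disc_β hβ]; exact one_ne_zero
  have f1 : IsCurveFamily g (crvMap g α 0) := family_ℂ α 0 d1
  have f2 : IsCurveFamily g (crvMap g 0 β) := family_ℂ 0 β d2
  have e₀ : ∀ c, ev₀ (γ₂ g c) = c := fun c => congr($a3 c)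
  have e₁ : ∀ c, ev₁ (γ₂ g c) = c := fun c => congr($b3 c)
  have t₀ : Tw g ev₀ 1 1 (γ₂ g α * ss g) (γ₂ g β * tt g) 0 β :=
    ⟨one_mul 1, by rw [map_mul, a1, mul_zero, mul_zero],
      by rw [map_mul, a2, mul_one, e₀, one_pow, one_mul]⟩
  have t₁ : Tw g ev₁ 1 1 (γ₂ g α * ss g) (γ₂ g β * tt g) α 0 :=
    ⟨one_mul 1, by rw [map_mul, b1, mul_one, e₁, one_pow, one_mul],
      by rw [map_mul, b2, mul_zero, mul_zero]⟩
  have c₀ := cl_twist 𝓜.τ t₀ (family hα hβ) f2 (γ₂ g) (RingHom.id ℂ) a3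
  have c₁ := cl_twist 𝓜.τ t₁ (family hα hβ) f1 (γ₂ g) (RingHom.id ℂ) b3
  have hid : Spec.map (CommRingCat.ofHom (RingHom.id ℂ)) = 𝟙 (Spec (CommRingCat.of ℂ)) :=
    Spec.map_id _
  rw [hid] at c₀ c₁
  have k₀ : Spec.map (CommRingCat.ofHom (evalRingHom 0)) ≫ ν₀ = 𝓜.τ.cl (𝟙 _) _ f2 := by
    rw [← a4, CommRingCat.ofHom_comp _ ev₀, Spec.map_comp, Category.assoc, h2, ← c₀]
  have k₁ : Spec.map (CommRingCat.ofHom (evalRingHom 1)) ≫ ν₀ = 𝓜.τ.cl (𝟙 _) _ f1 := by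
    rw [← b4, CommRingCat.ofHom_comp _ ev₁, Spec.map_comp, Category.assoc, h2, ← c₁]
  intro h3
  rw [k₀, k₁] at h3
  obtain ⟨e, he⟩ := 𝓜.injective _ f1 _ f2 h3.symm
  exact not_iso hg hβ0 d1 d2 e.hom he

end main

end Pool.Agent.W523
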