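import Pool.Agent.W523.Ker

open Polynomial

namespace Pool.Agent.W523

/-- homogenised value -/
noncomputable def homog (g : ℕ) (a b : ℂ) (P Q : ℂ[X]) : ℂ[X] :=
  P ^ (2 * g + 2) + C a * P * Q ^ (2 * g + 1) + C b * Q ^ (2 * g + 2)

namespace FF

variable {g : ℕ} {a b : ℂ} {L : Type} [Field L] [Algebra ℂ L] {ι : CL ℂ (F1 g a b) →+* L}
  (h : FF g a b L ι)

include h

lemma aeval_inj {p q : ℂ[X]} (hpq : aeval (ι (inc _ (xx _))) p = aeval (ι (inc _ (xx _))) q) :
    p = q := by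
  have h1 := h.isFF₁.eval p
  have h2 := h.isFF₁.eval q
  rw [RingHom.comp_apply, RingHom.comp_apply] at h1 h2
  rw [← h1, ← h2] at hpq
  exact congrArg QuadraticAlgebra.re (h.isFF₁.inj hpq)

/-- regular differentials force the coordinate to be a fractional linear function -/
theorem moebius (hd : disc g a b ≠ 0) (hg : 2 ≤ g) (D : Derivation ℂ L L)
    (hx : D (ι (inc _ (xx _))) = 2 * ι (inc _ ⟨0, 1⟩))
    (hy : D (ι (inc _ ⟨0, 1⟩)) = aeval (ι (inc _ (xx _))) (derivative (F1 g a b)))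
    (a₁ b₁ : ℂ) (ξ η : L) (hη : η ≠ 0) (hsq : η * η = aeval ξ (F1 g a₁ b₁))
    (hc : ∀ c, ξ ≠ algebraMap ℂ L c)
    (hreg : ∀ i < g, ∃ p : ℂ[X], p.natDegree ≤ g - 1 ∧
      ξ ^ i * (D ξ / η) = aeval (ι (inc _ (xx _))) p) :
    ∃ (P Q : ℂ[X]) (k : ℂ[X]), P.natDegree ≤ 1 ∧ Q.natDegree ≤ 1 ∧
      derivative P * Q - P * derivative Q ≠ 0 ∧
      k ^ 2 * homog g a₁ b₁ P Q =
        4 * (derivative P * Q - P * derivative Q) ^ 2 * F1 g a b := by
  classical
  set x := ι (inc _ (xx (F1 g a b))) with hxdef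
  set y := ι (inc _ ⟨0, 1⟩) with hydef
  have hDξ : D ξ ≠ 0 := by
    intro h0
    obtain ⟨c, hc'⟩ := h.isFF₁.ker (F1_squarefree g a b hd) (by rw [F1_natDegree]; omega) D hx hy ξ h0
    exact hc c hc'
  obtain ⟨p₀, -, hp₀⟩ := hreg 0 (by omega)
  obtain ⟨p₁, -, hp₁⟩ := hreg 1 (by omega)
  obtain ⟨r₀, hr₀d, hr₀⟩ := hreg 0 (by omega)
  obtain ⟨pg, hpgd, hpg⟩ := hreg (g - 1) (by omega)
  have hp0d : p₀.natDegree ≤ g - 1 := by
    rw [h.aeval_inj (hp₀.symm.trans hr₀)]; exact hr₀d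
  rw [pow_zero, one_mul] at hp₀
  rw [pow_one, hp₀] at hp₁
  rw [hp₀] at hpg
  have hp₀x : aeval x p₀ ≠ 0 := by
    rw [← hp₀]; exact div_ne_zero hDξ hη
  have hp₀0 : p₀ ≠ 0 := by
    rintro rfl
    exact hp₀x (map_zero _)
  -- lowest terms
  obtain ⟨Q, P, hcop, hQ, hP⟩ : ∃ N₁ p' : ℂ[X], IsCoprime N₁ p' ∧
      p₀ = gcd p₀ p₁ * N₁ ∧ p₁ = gcd p₀ p₁ * p' := by
    have hd : gcd p₀ p₁ ≠ 0 := gcd_ne_zero_of_left hp₀0
    obtain ⟨N₁, hN₁⟩ := gcd_dvd_left p₀ p₁
    obtain ⟨p', hp'⟩ := gcd_dvd_right p₀ p₁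
    refine ⟨N₁, p', ?_, hN₁, hp'⟩
    rw [← gcd_isUnit_iff]
    have h3 : gcd p₀ p₁ * gcd N₁ p' ∣ gcd p₀ p₁ * 1 := by
      rw [mul_one]
      have h4 : gcd p₀ p₁ * gcd N₁ p' ∣ p₀ := by
        nth_rw 2 [hN₁]; exact mul_dvd_mul_left _ (gcd_dvd_left _ _)
      have h5 : gcd p₀ p₁ * gcd N₁ p' ∣ p₁ := by
        nth_rw 2 [hp']; exact mul_dvd_mul_left _ (gcd_dvd_right _ _)
      exact dvd_gcd h4 h5
    exact isUnit_of_dvd_one ((mul_dvd_mul_iff_left hd).1 h3)
  set e := gcd p₀ p₁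
  have he0 : aeval x e ≠ 0 := by
    intro h0
    apply hp₀x
    rw [hQ, map_mul, h0, zero_mul]
  have hQ0 : Q ≠ 0 := by
    rintro rfl
    rw [mul_zero] at hQ
    exact hp₀0 hQ
  have hξQ : ξ * aeval x Q = aeval x P := by
    apply mul_left_cancel₀ he0
    rw [hQ, hP, map_mul, map_mul] at hp₁
    linear_combination hp₁
  have hξQn : ∀ n : ℕ, ξ ^ n * aeval x Q ^ n = aeval x P ^ n := by
    intro n
    rw [← mul_pow, hξQ]
  have h1 : P ^ (g - 1) * p₀ = pg * Q ^ (g - 1) := by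
    apply h.aeval_inj
    rw [← hxdef, map_mul, map_mul, map_pow, map_pow, ← hξQn, ← hpg]
    ring
  have h2 : Q ^ (g - 1) ∣ p₀ :=
    (hcop.pow (m := g - 1) (n := g - 1)).dvd_of_dvd_mul_left ⟨pg, by rw [h1]; ring⟩
  obtain ⟨k, hk⟩ := h2
  have hk0 : k ≠ 0 := by
    rintro rfl
    rw [mul_zero] at hk
    exact hp₀0 hk
  have h3 : pg = P ^ (g - 1) * k := by
    apply mul_right_cancel₀ (pow_ne_zero (g - 1) hQ0)
    rw [← h1]
    nth_rw 1 [hk]
    ring
  have hQd : Q.natDegree ≤ 1 := by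
    rw [hk, natDegree_mul (pow_ne_zero _ hQ0) hk0, natDegree_pow] at hp0d
    by_contra h4
    push Not at h4
    have h5 : (g - 1) * 2 ≤ (g - 1) * Q.natDegree := Nat.mul_le_mul_left _ h4
    omega
  have hPd : P.natDegree ≤ 1 := by
    by_cases hP0 : P = 0
    · rw [hP0, natDegree_zero]; omega
    · rw [h3, natDegree_mul (pow_ne_zero _ hP0) hk0, natDegree_pow] at hpgd
      by_contra h4
      push Not at h4
      have h5 : (g - 1) * 2 ≤ (g - 1) * P.natDegree := Nat.mul_le_mul_left _ h4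
      omega
  have hDQ : aeval x Q ^ 2 * D ξ = 2 * y * aeval x (derivative P * Q - P * derivative Q) := by
    have h4 := congrArg D hξQ
    rw [Derivation.leibniz, Derivation.map_aeval, Derivation.map_aeval, hx, smul_eq_mul,
      smul_eq_mul, smul_eq_mul, smul_eq_mul] at h4
    rw [map_sub, map_mul, map_mul, ← hξQ]
    linear_combination aeval x Q * h4
  have hQx : aeval x Q ≠ 0 := by
    intro h0
    exact hQ0 (h.aeval_inj (h0.trans (map_zero _).symm))
  refine ⟨P, Q, k, hPd, hQd, ?_, ?_⟩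
  · intro h0
    rw [h0, map_zero, mul_zero] at hDQ
    exact mul_ne_zero (pow_ne_zero _ hQx) hDξ hDQ
  · apply h.aeval_inj
    rw [← hxdef]
    have hysq : y * y = aeval x (F1 g a b) := h.isFF₁.sq
    have hDη : D ξ = aeval x Q ^ (g - 1) * aeval x k * η := by
      rw [div_eq_iff hη] at hp₀
      rw [hp₀, hk, map_mul, map_pow]
    have hgg : aeval x Q ^ 2 * aeval x Q ^ (g - 1) = aeval x Q ^ (g + 1) := by
      rw [← pow_add]; congr 1; omega
    have h5 : aeval x Q ^ (g + 1) * aeval x k * η =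
        2 * y * aeval x (derivative P * Q - P * derivative Q) := by
      rw [← hDQ, hDη, ← hgg]; ring
    have h6 : aeval x (homog g a₁ b₁ P Q) = aeval x Q ^ (2 * g + 2) * (η * η) := by
      rw [hsq, aeval_def ξ, eval₂_F1, homog]
      simp only [map_add, map_mul, map_pow, aeval_C]
      rw [← hξQn, ← hξQ]
      ring
    have h7 : aeval x Q ^ (2 * g + 2) = aeval x Q ^ (g + 1) * aeval x Q ^ (g + 1) := by
      rw [← pow_add]; congr 1; ring
    rw [map_mul, h6, map_mul, map_mul, ← hysq, map_pow, map_pow, h7]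
    have h8 : (aeval x) (4 : ℂ[X]) = 4 := map_ofNat _ 4
    rw [h8]
    linear_combination (aeval x Q ^ (g + 1) * aeval x k * η +
      2 * y * aeval x (derivative P * Q - P * derivative Q)) * h5

end FF

/-- coefficients of a power of a linear polynomial -/
lemma coeff_lin_pow (p q : ℂ) (n k : ℕ) :
    ((C p * X + C q) ^ n : ℂ[X]).coeff k = p ^ k * q ^ (n - k) * (n.choose k : ℂ) := by
  rw [add_pow, finsetSum_coeff]
  have h : ∀ m ∈ Finset.range (n + 1), ((C p * X) ^ m * C q ^ (n - m) * (n.choose m : ℂ[X])).coeff k =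
      if m = k then p ^ k * q ^ (n - k) * (n.choose k : ℂ) else 0 := by
    intro m _
    have e : ((C p * X) ^ m * C q ^ (n - m) * (n.choose m : ℂ[X])) =
        C (p ^ m * q ^ (n - m) * (n.choose m : ℂ)) * X ^ m := by
      simp only [map_mul, map_pow, map_natCast]
      ring
    rw [e, coeff_C_mul, coeff_X_pow]
    split_ifs with h1 h2 h2
    · subst h1; ring
    · exact (h2 h1.symm).elim
    · exact (h1 h2.symm).elim
    · ring
  rw [Finset.sum_congr rfl h, Finset.sum_ite_eq']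
  split_ifs with h1
  · rfl
  · rw [Finset.mem_range, not_lt] at h1
    rw [Nat.choose_eq_zero_of_lt (by omega), Nat.cast_zero, mul_zero]

/-- the two special curves have no common Moebius transform -/
lemma no_moebius (g : ℕ) (hg : 2 ≤ g) (α β : ℂ) (hβ : β ≠ 0) (P Q k : ℂ[X])
    (hP : P.natDegree ≤ 1) (hQ : Q.natDegree ≤ 1)
    (hW : derivative P * Q - P * derivative Q ≠ 0)
    (h : k ^ 2 * homog g 0 β P Q = 4 * (derivative P * Q - P * derivative Q) ^ 2 * F1 g α 0)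
    (hsf : Squarefree (F1 g α 0)) : False := by
  obtain ⟨p, q, rfl⟩ : ∃ p q : ℂ, P = C p * X + C q := ⟨_, _, Polynomial.eq_X_add_C_of_natDegree_le_one hP⟩
  obtain ⟨r, s, rfl⟩ : ∃ p q : ℂ, Q = C p * X + C q := ⟨_, _, Polynomial.eq_X_add_C_of_natDegree_le_one hQ⟩
  have hw : derivative (C p * X + C q) * (C r * X + C s) -
      (C p * X + C q) * derivative (C r * X + C s) = C (p * s - q * r) := by
    simp only [derivative_add, derivative_mul, derivative_C, derivative_X, zero_mul, mul_one,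
      add_zero, zero_add, map_sub, map_mul]
    ring
  rw [hw] at hW h
  have hδ : p * s - q * r ≠ 0 := by
    intro h0
    rw [h0, map_zero] at hW
    exact hW rfl
  have hku : IsUnit k := by
    apply hsf k
    have h4 : IsUnit (4 * C (p * s - q * r) ^ 2 : ℂ[X]) := by
      have : (4 * C (p * s - q * r) ^ 2 : ℂ[X]) = C (4 * (p * s - q * r) ^ 2) := by
        rw [map_mul, map_pow]; congr 1
      rw [this]
      exact isUnit_C.2 (isUnit_iff_ne_zero.2 (mul_ne_zero (by norm_num) (pow_ne_zero _ hδ)))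
    exact (h4.dvd_mul_left).1 ⟨homog g 0 β (C p * X + C q) (C r * X + C s), by rw [← h]; ring⟩
  obtain ⟨κ, hκ, rfl⟩ := Polynomial.isUnit_iff.1 hku
  have hκ0 : κ ≠ 0 := hκ.ne_zero
  -- compare coefficients
  have hcoef : ∀ j : ℕ, κ ^ 2 * (p ^ j * q ^ (2 * g + 2 - j) * ((2 * g + 2).choose j : ℂ) +
      β * (r ^ j * s ^ (2 * g + 2 - j) * ((2 * g + 2).choose j : ℂ))) =
      4 * (p * s - q * r) ^ 2 * (F1 g α 0).coeff j := by
    intro j
    have h5 := congrArg (fun w => Polynomial.coeff w j) h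
    have e1 : (C κ ^ 2 * homog g 0 β (C p * X + C q) (C r * X + C s) : ℂ[X]) =
        C (κ ^ 2) * ((C p * X + C q) ^ (2 * g + 2) + C β * (C r * X + C s) ^ (2 * g + 2)) := by
      rw [homog, map_zero, map_pow]; ring
    have e2 : (4 * C (p * s - q * r) ^ 2 * F1 g α 0 : ℂ[X]) =
        C (4 * (p * s - q * r) ^ 2) * F1 g α 0 := by
      rw [map_mul, map_pow]; congr 2
    simp only [e1, e2, coeff_C_mul, coeff_add, coeff_lin_pow] at h5
    exact h5
  have hF : ∀ j, 2 ≤ j → j < 2 * g + 2 → (F1 g α 0).coeff j = 0 := by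
    intro j h1 h2
    rw [F1, map_zero, add_zero, coeff_add, coeff_X_pow, coeff_C_mul, coeff_X,
      if_neg (by omega), if_neg (by omega)]
    ring
  have hF0 : (F1 g α 0).coeff 0 = 0 := by
    rw [F1, map_zero, add_zero, coeff_add, coeff_X_pow, coeff_C_mul, coeff_X_zero, if_neg (by omega)]
    ring
  have hmid : ∀ j, 2 ≤ j → j < 2 * g + 2 →
      p ^ j * q ^ (2 * g + 2 - j) + β * (r ^ j * s ^ (2 * g + 2 - j)) = 0 := by
    intro j h1 h2
    have h3 := hcoef j
    rw [hF j h1 h2, mul_zero] at h3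
    have h4 : ((2 * g + 2).choose j : ℂ) ≠ 0 := by
      rw [Nat.cast_ne_zero]; exact (Nat.choose_pos h2.le).ne'
    have h5 := (mul_eq_zero.1 h3).resolve_left (pow_ne_zero _ hκ0)
    apply mul_right_cancel₀ h4
    rw [zero_mul]
    linear_combination h5
  have h0 : q ^ (2 * g + 2) + β * s ^ (2 * g + 2) = 0 := by
    have h3 := hcoef 0
    rw [hF0, mul_zero] at h3
    have h5 := (mul_eq_zero.1 h3).resolve_left (pow_ne_zero _ hκ0)
    simpa using h5
  have hlast := hmid (2 * g + 1) (by omega) (by omega)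
  rw [show 2 * g + 2 - (2 * g + 1) = 1 by omega, pow_one, pow_one] at hlast
  by_cases hs : s = 0
  · subst hs
    rw [zero_pow (by omega), mul_zero, add_zero] at h0
    have hq : q = 0 := pow_eq_zero_iff (by omega) |>.1 h0
    subst hq
    apply hδ; ring
  by_cases hq : q = 0
  · subst hq
    rw [zero_pow (by omega), zero_add] at h0
    exact mul_ne_zero hβ (pow_ne_zero _ hs) h0
  by_cases hp : p = 0
  · subst hp
    rw [zero_pow (by omega), zero_mul, zero_add] at hlast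
    have hr : r = 0 := by
      by_contra hr
      exact mul_ne_zero hβ (mul_ne_zero (pow_ne_zero _ hr) hs) hlast
    subst hr
    apply hδ; ring
  by_cases hr : r = 0
  · subst hr
    rw [zero_pow (by omega), zero_mul, mul_zero, add_zero] at hlast
    exact mul_ne_zero (pow_ne_zero _ hp) hq hlast
  have h2 := hmid 2 le_rfl (by omega)
  have h3 := hmid 3 (by omega) (by omega)
  have e2 : 2 * g + 2 - 2 = (2 * g - 1) + 1 := by omega
  have e3 : 2 * g + 2 - 3 = 2 * g - 1 := by omega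
  rw [e2] at h2
  rw [e3] at h3
  apply hδ
  have h4 : p ^ 2 * q ^ (2 * g - 1) ≠ 0 := mul_ne_zero (pow_ne_zero _ hp) (pow_ne_zero _ hq)
  apply mul_left_cancel₀ h4
  rw [mul_zero]
  have : p ^ 2 * q ^ (2 * g - 1) * (p * s - q * r) = s * (p ^ 3 * q ^ (2 * g - 1)) -
    r * (p ^ 2 * q ^ (2 * g - 1 + 1)) := by ring
  rw [this]
  linear_combination s * h3 - r * h2

end Pool.Agent.W523
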