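import Pool.Agent.W523.Fin

open AlgebraicGeometry CategoryTheory Limits Polynomial

namespace Pool.Agent.W523

lemma exists_FF (g : ℕ) (a b : ℂ) (hd : disc g a b ≠ 0) :
    ∃ (L : Type) (_ : Field L) (_ : Algebra ℂ L) (ι : CL ℂ (F1 g a b) →+* L), FF g a b L ι := by
  have := domain₁₂ g a b hd
  let L := FractionRing (CL ℂ (F1 g a b))
  let ι : CL ℂ (F1 g a b) →+* L := algebraMap _ _
  let f : Field L := inferInstance
  let al : Algebra ℂ L := (ι.comp ((inc _).comp (sc _))).toAlgebra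
  have hsc : ∀ c, ι (inc _ (sc _ c)) = @algebraMap ℂ L _ _ al c := fun _ => rfl
  refine ⟨L, f, al, ι, ⟨IsFractionRing.injective _ _, ?_, hsc⟩⟩
  intro w
  obtain ⟨⟨n, s⟩, h⟩ := IsLocalization.surj (nonZeroDivisors (CL ℂ (F1 g a b))) w
  exact ⟨n, s, nonZeroDivisors.ne_zero s.2, h⟩

/-- a point with constant first coordinate is constant -/
lemma const_hom {L : Type} [Field L] [Algebra ℂ L] {F : ℂ[X]} (ψ : CR ℂ F →+* L)
    (hψ : ∀ c, ψ (sc F c) = algebraMap ℂ L c) (c : ℂ) (hc : ψ (xx F) = algebraMap ℂ L c) :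
    ∃ ψ₀ : CR ℂ F →+* ℂ, (algebraMap ℂ L).comp ψ₀ = ψ := by
  have h1 : ψ ⟨0, 1⟩ * ψ ⟨0, 1⟩ = algebraMap ℂ L (F.eval c) := by
    rw [← map_mul, om_sq, ← sc_eval, hom_eval₂, hc]
    have : ψ.comp (sc F) = algebraMap ℂ L := RingHom.ext hψ
    rw [this]
    exact Polynomial.eval₂_at_apply (algebraMap ℂ L) c
  obtain ⟨r, hr⟩ := IsAlgClosed.exists_pow_nat_eq (F.eval c) (n := 2) (by norm_num)
  obtain ⟨s, hs, hs2⟩ : ∃ s : ℂ, s * s = evalRingHom c F ∧ ψ ⟨0, 1⟩ = algebraMap ℂ L s := by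
    rw [← hr, map_pow, ← sq, sq_eq_sq_iff_eq_or_eq_neg] at h1
    rw [coe_evalRingHom]
    rcases h1 with h1 | h1
    · exact ⟨r, by rw [← hr]; ring, h1⟩
    · exact ⟨-r, by rw [← hr]; ring, by rw [h1, map_neg]⟩
  refine ⟨qlift (evalRingHom c) s hs, ?_⟩
  apply CR_ext
  · intro t
    rw [RingHom.comp_apply, hψ, sc_apply, qlift_apply, map_zero, zero_mul, add_zero,
      coe_evalRingHom, eval_C]
  · have hx : xx F = ⟨X, 0⟩ := rfl
    rw [RingHom.comp_apply, hc, hx, qlift_apply, map_zero, zero_mul, add_zero]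
    simp
  · rw [RingHom.comp_apply, hs2, qlift_apply, map_zero, map_one, one_mul, zero_add]

section

variable {g : ℕ} {a b : ℂ} {L : Type} [Field L] [Algebra ℂ L] {ι : CL ℂ (F1 g a b) →+* L}
  (h : FF g a b L ι)

/-- the generic point -/
noncomputable def gen (ι : CL ℂ (F1 g a b) →+* L) : Spec (.of L) ⟶ Crv g a b :=
  Spec.map (CommRingCat.ofHom (ι.comp (inc _))) ≫ (crvCharts g a b).j₁

omit [Algebra ℂ L] in
lemma gen_eq (ι : CL ℂ (F1 g a b) →+* L) : gen ι =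
    Spec.map (CommRingCat.ofHom (ι.comp (inc2 g a b))) ≫ (crvCharts g a b).j₂ := by
  have h3 : Spec.map (CommRingCat.ofHom (inc _)) ≫ (crvCharts g a b).j₁ =
    Spec.map (CommRingCat.ofHom (inc2 g a b)) ≫ (crvCharts g a b).j₂ := (crvCharts g a b).pb.w
  rw [gen, CommRingCat.ofHom_comp, CommRingCat.ofHom_comp, Spec.map_comp, Spec.map_comp,
    Category.assoc, Category.assoc, h3]

include h

lemma FF.x_ne (c : ℂ) : ι (inc _ (xx _)) ≠ algebraMap ℂ L c := by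
  intro h0
  have h1 : aeval (ι (inc _ (xx (F1 g a b)))) (X : ℂ[X]) =
      aeval (ι (inc _ (xx (F1 g a b)))) (C c) := by
    rw [aeval_X, aeval_C, h0]
  have := h.aeval_inj h1
  exact X_ne_C c this

lemma gen_over : gen ι ≫ crvMap g a b = Spec.map (CommRingCat.ofHom (algebraMap ℂ L)) := by
  rw [gen, Category.assoc, (crvCharts g a b).h₁, ← Spec.map_comp, ← CommRingCat.ofHom_comp]
  congr 2
  exact RingHom.ext h.hsc

lemma gen_not_const (pt : Spec (.of ℂ) ⟶ Crv g a b) :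
    Spec.map (CommRingCat.ofHom (algebraMap ℂ L)) ≫ pt ≠ gen ι := by
  intro h0
  rcases (crvCharts g a b).factor pt with ⟨χ, hχ⟩ | ⟨χ, hχ⟩
  · rw [hχ, gen, ← Category.assoc, cancel_mono, ← Spec.map_comp, ← CommRingCat.ofHom_comp] at h0
    have h1 := congrArg CommRingCat.Hom.hom (Spec.map_injective h0)
    exact h.x_ne (χ (xx _)) (congr($h1 (xx _))).symm
  · rw [hχ, gen_eq, ← Category.assoc, cancel_mono, ← Spec.map_comp, ← CommRingCat.ofHom_comp] at h0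
    have h1 := congrArg CommRingCat.Hom.hom (Spec.map_injective h0)
    have h2 : algebraMap ℂ L (χ (xx _)) = ι (inc2 g a b (xx _)) := congr($h1 (xx _))
    have hxu : ι (inc _ (xx _)) * ι (inc2 g a b (xx _)) = 1 := by
      rw [← map_mul, inc_mul_inc2, map_one]
    rw [← h2] at hxu
    have h3 : algebraMap ℂ L (χ (xx _)) ≠ 0 := right_ne_zero_of_mul_eq_one hxu
    apply h.x_ne (χ (xx _))⁻¹
    rw [map_inv₀]
    exact eq_inv_of_mul_eq_one_left hxu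

end

section target

variable {g : ℕ} {a b a₁ b₁ : ℂ} {L : Type} [Field L] [Algebra ℂ L]
  {ι : CL ℂ (F1 g a b) →+* L} (h : FF g a b L ι) (e : Crv g a b ⟶ Crv g a₁ b₁) [IsIso e]
  (he : e ≫ crvMap g a₁ b₁ = crvMap g a b)

omit [Algebra ℂ L] in
/-- the ring map in both charts -/
lemma charts_rel (θ : CR ℂ (F1 g a₁ b₁) →+* L) (ψ : CR ℂ (F2 g a₁ b₁) →+* L)
    (h0 : Spec.map (CommRingCat.ofHom θ) ≫ (crvCharts g a₁ b₁).j₁ =
      Spec.map (CommRingCat.ofHom ψ) ≫ (crvCharts g a₁ b₁).j₂) :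
    θ (xx _) * ψ (xx _) = 1 ∧ θ ⟨0, 1⟩ * ψ (xx _) ^ (g + 1) = ψ ⟨0, 1⟩ := by
  let c := crvCharts g a₁ b₁
  let χ := Spec.preimage (c.pb.lift _ _ h0)
  have h1 : Spec.map (CommRingCat.ofHom θ) =
      Spec.map (CommRingCat.ofHom c.r₁ ≫ χ) := by
    rw [Spec.map_comp, Spec.map_preimage, c.pb.lift_fst]
  have h2 : Spec.map (CommRingCat.ofHom ψ) =
      Spec.map (CommRingCat.ofHom c.r₂ ≫ χ) := by
    rw [Spec.map_comp, Spec.map_preimage, c.pb.lift_snd]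
  have h1' := congrArg CommRingCat.Hom.hom (Spec.map_injective h1)
  have h2' := congrArg CommRingCat.Hom.hom (Spec.map_injective h2)
  have e1 : ∀ z, θ z = χ.hom (inc _ z) := fun z => congr($h1' z)
  have e2 : ∀ z, ψ z = χ.hom (inc2 g a₁ b₁ z) := fun z => congr($h2' z)
  constructor
  · rw [e1, e2, ← map_mul, inc_mul_inc2, map_one]
  · rw [e1, e2, e2, inc2_yy, map_mul, map_pow]

include h he

/-- the generic point in the first chart of the target -/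
lemma exists_theta : ∃ θ : CR ℂ (F1 g a₁ b₁) →+* L,
    gen ι ≫ e = Spec.map (CommRingCat.ofHom θ) ≫ (crvCharts g a₁ b₁).j₁ ∧
    (∀ c, θ (sc _ c) = algebraMap ℂ L c) ∧ ∀ c, θ (xx _) ≠ algebraMap ℂ L c := by
  -- the maps are over the complex numbers
  have hover : (gen ι ≫ e) ≫ crvMap g a₁ b₁ = Spec.map (CommRingCat.ofHom (algebraMap ℂ L)) := by
    rw [Category.assoc, he, gen_over h]
  have over₁ : ∀ θ : CR ℂ (F1 g a₁ b₁) →+* L,
      gen ι ≫ e = Spec.map (CommRingCat.ofHom θ) ≫ (crvCharts g a₁ b₁).j₁ →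
      ∀ c, θ (sc _ c) = algebraMap ℂ L c := by
    intro θ hθ c
    rw [hθ, Category.assoc, (crvCharts g a₁ b₁).h₁, ← Spec.map_comp, ← CommRingCat.ofHom_comp] at hover
    have h1 := congrArg CommRingCat.Hom.hom (Spec.map_injective hover)
    exact congr($h1 c)
  have over₂ : ∀ ψ : CR ℂ (F2 g a₁ b₁) →+* L,
      gen ι ≫ e = Spec.map (CommRingCat.ofHom ψ) ≫ (crvCharts g a₁ b₁).j₂ →
      ∀ c, ψ (sc _ c) = algebraMap ℂ L c := by
    intro θ hθ c
    rw [hθ, Category.assoc, (crvCharts g a₁ b₁).h₂, ← Spec.map_comp, ← CommRingCat.ofHom_comp] at hover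
    have h1 := congrArg CommRingCat.Hom.hom (Spec.map_injective hover)
    exact congr($h1 c)
  -- constant maps are excluded
  have nc : ∀ pt : Spec (.of ℂ) ⟶ Crv g a₁ b₁,
      gen ι ≫ e ≠ Spec.map (CommRingCat.ofHom (algebraMap ℂ L)) ≫ pt := by
    intro pt hpt
    refine gen_not_const h (pt ≫ inv e) ?_
    rw [← Category.assoc, ← hpt, Category.assoc, IsIso.hom_inv_id, Category.comp_id]
  have main : ∀ θ : CR ℂ (F1 g a₁ b₁) →+* L,
      gen ι ≫ e = Spec.map (CommRingCat.ofHom θ) ≫ (crvCharts g a₁ b₁).j₁ →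
      ∀ c, θ (xx _) ≠ algebraMap ℂ L c := by
    intro θ hθ c hc
    obtain ⟨ψ₀, h1⟩ := const_hom θ (over₁ θ hθ) c hc
    refine nc (Spec.map (CommRingCat.ofHom ψ₀) ≫ (crvCharts g a₁ b₁).j₁) ?_
    rw [hθ, ← h1, CommRingCat.ofHom_comp, Spec.map_comp, Category.assoc]
  rcases (crvCharts g a₁ b₁).factor (gen ι ≫ e) with ⟨θ, hθ⟩ | ⟨ψ, hψ⟩
  · exact ⟨θ, hθ, over₁ θ hθ, main θ hθ⟩
  · by_cases h0 : ψ (xx _) = 0
    · obtain ⟨ψ₀, h1⟩ := const_hom ψ (over₂ ψ hψ) 0 (by rw [h0, map_zero])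
      refine (nc (Spec.map (CommRingCat.ofHom ψ₀) ≫ (crvCharts g a₁ b₁).j₂) ?_).elim
      rw [hψ, ← h1, CommRingCat.ofHom_comp, Spec.map_comp, Category.assoc]
    · obtain ⟨θ, -, h2⟩ := (crvCharts g a₁ b₁).swap.change ψ (isUnit_iff_ne_zero.2 h0)
      have hθ : gen ι ≫ e = Spec.map (CommRingCat.ofHom θ) ≫ (crvCharts g a₁ b₁).j₁ :=
        hψ.trans h2
      exact ⟨θ, hθ, over₁ θ hθ, main θ hθ⟩

omit [Algebra ℂ L] h he in
/-- the dichotomy in local rings -/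
lemma dich_of (θ : CR ℂ (F1 g a₁ b₁) →+* L) (O : Type) [CommRing O] [IsLocalRing O]
    (ρ : O →+* L) (l : Spec (.of O) ⟶ Crv g a₁ b₁)
    (hl : Spec.map (CommRingCat.ofHom ρ) ≫ l =
      Spec.map (CommRingCat.ofHom θ) ≫ (crvCharts g a₁ b₁).j₁) :
    Dich g ρ.range (θ (xx _)) (θ ⟨0, 1⟩) := by
  rcases (crvCharts g a₁ b₁).factor l with ⟨χ, hχ⟩ | ⟨χ, hχ⟩
  · left
    rw [hχ, ← Category.assoc, cancel_mono, ← Spec.map_comp, ← CommRingCat.ofHom_comp] at hl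
    have h1 := congrArg CommRingCat.Hom.hom (Spec.map_injective hl)
    have h2 : ∀ z, ρ (χ z) = θ z := fun z => congr($h1 z)
    exact ⟨⟨_, h2 _⟩, ⟨_, h2 _⟩⟩
  · right
    rw [hχ, ← Category.assoc, ← Spec.map_comp, ← CommRingCat.ofHom_comp] at hl
    obtain ⟨h1, h2⟩ := charts_rel θ (ρ.comp χ) hl.symm
    exact ⟨_, ⟨χ (xx _), rfl⟩, _, ⟨χ ⟨0, 1⟩, rfl⟩, h1, h2⟩

end target

/-- the curves `y² = x^n + α x` and `y² = x^n + β` are not isomorphic -/
theorem not_iso {g : ℕ} (hg : 2 ≤ g) {α β : ℂ} (hβ : β ≠ 0) (hd : disc g α 0 ≠ 0)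
    (hd₁ : disc g 0 β ≠ 0) (e : Crv g α 0 ⟶ Crv g 0 β) [IsIso e]
    (he : e ≫ crvMap g 0 β = crvMap g α 0) : False := by
  obtain ⟨L, _, _, ι, h⟩ := exists_FF g α 0 hd
  obtain ⟨θ, h1, h2, h3⟩ := exists_theta h e he
  have hsq : θ ⟨0, 1⟩ * θ ⟨0, 1⟩ = aeval (θ (xx _)) (F1 g 0 β) := by
    rw [← map_mul, om_sq, ← sc_eval, hom_eval₂, aeval_def]
    congr 1
    exact RingHom.ext h2
  refine no_map hg hβ hd hd₁ h (θ (xx _)) (θ ⟨0, 1⟩) hsq h3 ?_ ?_
  · intro P _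
    refine dich_of θ (Localization.AtPrime P) (rho h.isFF₁ P)
      (Spec.map (CommRingCat.ofHom (algebraMap _ _)) ≫ (crvCharts g α 0).j₁ ≫ e) ?_
    rw [← h1, gen, ← Category.assoc, ← Spec.map_comp, ← CommRingCat.ofHom_comp, rho_comp,
      Category.assoc]
  · intro P _
    refine dich_of θ (Localization.AtPrime P) (rho h.isFF₂ P)
      (Spec.map (CommRingCat.ofHom (algebraMap _ _)) ≫ (crvCharts g α 0).j₂ ≫ e) ?_
    rw [← h1, gen_eq, ← Category.assoc, ← Spec.map_comp, ← CommRingCat.ofHom_comp, rho_comp,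
      Category.assoc]

end Pool.Agent.W523
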