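import Pool.Agent.W523.Glue

open AlgebraicGeometry CategoryTheory Limits Polynomial

namespace Pool.Agent.W523

/-- Two affine charts `Spec A₁`, `Spec A₂` of a scheme `X` over `Spec R` with intersection
`Spec A₁₂`, the locus where `x` (in the first chart), `u` (in the second chart) is invertible. -/
structure Charts (R A₁ A₂ A₁₂ : Type) [CommRing R] [CommRing A₁] [CommRing A₂] [CommRing A₁₂]
    {X : Scheme.{0}} (f : X ⟶ Spec (.of R)) where
  s₁ : R →+* A₁
  s₂ : R →+* A₂
  r₁ : A₁ →+* A₁₂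
  r₂ : A₂ →+* A₁₂
  x : A₁
  u : A₂
  j₁ : Spec (.of A₁) ⟶ X
  j₂ : Spec (.of A₂) ⟶ X
  o₁ : IsOpenImmersion j₁
  o₂ : IsOpenImmersion j₂
  h₁ : j₁ ≫ f = Spec.map (CommRingCat.ofHom s₁)
  h₂ : j₂ ≫ f = Spec.map (CommRingCat.ofHom s₂)
  cov : ∀ p : X, (∃ q, j₁ q = p) ∨ ∃ q, j₂ q = p
  pb : IsPullback (Spec.map (CommRingCat.ofHom r₁)) (Spec.map (CommRingCat.ofHom r₂)) j₁ j₂
  mul : r₁ x * r₂ u = 1
  l₁ : ∀ {K : Type} [CommRing K] (φ : A₁ →+* K), IsUnit (φ x) → ∃ φ' : A₁₂ →+* K, φ'.comp r₁ = φ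
  l₂ : ∀ {K : Type} [CommRing K] (φ : A₂ →+* K), IsUnit (φ u) → ∃ φ' : A₁₂ →+* K, φ'.comp r₂ = φ

namespace Charts

attribute [instance] Charts.o₁ Charts.o₂

variable {R A₁ A₂ A₁₂ : Type} [CommRing R] [CommRing A₁] [CommRing A₂] [CommRing A₁₂]
    {X : Scheme.{0}} {f : X ⟶ Spec (.of R)} (c : Charts R A₁ A₂ A₁₂ f)

/-- exchange the two charts -/
def swap : Charts R A₂ A₁ A₁₂ f where
  s₁ := c.s₂
  s₂ := c.s₁
  r₁ := c.r₂
  r₂ := c.r₁
  x := c.u
  u := c.x
  j₁ := c.j₂
  j₂ := c.j₁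
  o₁ := c.o₂
  o₂ := c.o₁
  h₁ := c.h₂
  h₂ := c.h₁
  cov := fun p => (c.cov p).symm
  pb := c.pb.flip
  mul := by rw [mul_comm]; exact c.mul
  l₁ := c.l₂
  l₂ := c.l₁

/-- a morphism from a local scheme whose closed point lands in the first chart -/
lemma factor₁ {O : Type} [CommRing O] [IsLocalRing O] (l : Spec (.of O) ⟶ X)
    (h : ∃ q, c.j₁ q = l (IsLocalRing.closedPoint O)) :
    ∃ ψ : A₁ →+* O, l = Spec.map (CommRingCat.ofHom ψ) ≫ c.j₁ := by
  have hU : (l ⁻¹ᵁ c.j₁.opensRange) = ⊤ := Scheme.preimage_eq_top_of_closedPoint_mem l h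
  have hr : Set.range l ⊆ Set.range c.j₁ := by
    rintro _ ⟨z, rfl⟩
    have : z ∈ (l ⁻¹ᵁ c.j₁.opensRange) := by rw [hU]; trivial
    exact this
  refine ⟨(Spec.preimage (IsOpenImmersion.lift c.j₁ l hr)).hom, ?_⟩
  rw [CommRingCat.ofHom_hom, Spec.map_preimage, IsOpenImmersion.lift_fac]

lemma factor₂ {O : Type} [CommRing O] [IsLocalRing O] (l : Spec (.of O) ⟶ X)
    (h : ∃ q, c.j₂ q = l (IsLocalRing.closedPoint O)) :
    ∃ ψ : A₂ →+* O, l = Spec.map (CommRingCat.ofHom ψ) ≫ c.j₂ := c.swap.factor₁ l h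

lemma factor {O : Type} [CommRing O] [IsLocalRing O] (l : Spec (.of O) ⟶ X) :
    (∃ ψ : A₁ →+* O, l = Spec.map (CommRingCat.ofHom ψ) ≫ c.j₁) ∨
    ∃ ψ : A₂ →+* O, l = Spec.map (CommRingCat.ofHom ψ) ≫ c.j₂ := by
  rcases c.cov (l (IsLocalRing.closedPoint O)) with h | h
  · exact Or.inl (c.factor₁ l h)
  · exact Or.inr (c.factor₂ l h)

/-- a point of the first chart at which `x` is invertible is a point of the second chart -/
lemma change {K : Type} [CommRing K] (φ : A₁ →+* K) (h : IsUnit (φ c.x)) :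
    ∃ ψ : A₂ →+* K, ψ c.u * φ c.x = 1 ∧
      Spec.map (CommRingCat.ofHom φ) ≫ c.j₁ = Spec.map (CommRingCat.ofHom ψ) ≫ c.j₂ := by
  obtain ⟨φ', hφ'⟩ := c.l₁ φ h
  refine ⟨φ'.comp c.r₂, ?_, ?_⟩
  · rw [← hφ', RingHom.comp_apply, RingHom.comp_apply, ← map_mul, mul_comm, c.mul, map_one]
  · rw [← hφ', CommRingCat.ofHom_comp, CommRingCat.ofHom_comp, Spec.map_comp, Spec.map_comp,
      Category.assoc, Category.assoc, c.pb.w]

/-- if a point is in both charts then `x` and `u` are inverse to each other -/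
lemma mul_eq_one {K : Type} [CommRing K] (φ : A₁ →+* K) (ψ : A₂ →+* K)
    (h : Spec.map (CommRingCat.ofHom φ) ≫ c.j₁ = Spec.map (CommRingCat.ofHom ψ) ≫ c.j₂) :
    φ c.x * ψ c.u = 1 := by
  let χ := Spec.preimage (c.pb.lift _ _ h)
  have h1 : Spec.map (CommRingCat.ofHom φ) =
      Spec.map (CommRingCat.ofHom c.r₁ ≫ χ) := by
    rw [Spec.map_comp, Spec.map_preimage, c.pb.lift_fst]
  have h2 : Spec.map (CommRingCat.ofHom ψ) =
      Spec.map (CommRingCat.ofHom c.r₂ ≫ χ) := by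
    rw [Spec.map_comp, Spec.map_preimage, c.pb.lift_snd]
  have h1' := congrArg CommRingCat.Hom.hom (Spec.map_injective h1)
  have h2' := congrArg CommRingCat.Hom.hom (Spec.map_injective h2)
  have e1 : φ c.x = χ.hom (c.r₁ c.x) := congr($h1' c.x)
  have e2 : ψ c.u = χ.hom (c.r₂ c.u) := congr($h2' c.u)
  rw [e1, e2, ← map_mul, c.mul, map_one]

lemma map_mem_range {O K : Type} [CommRing O] [IsDomain O] [Field K]
    [Algebra O K] [IsFractionRing O K] [IsIntegrallyClosed O] {R A : Type} [CommRing R] [CommRing A]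
    (s : R →+* A) (x : A) (hint : (Polynomial.eval₂RingHom s x).IsIntegral) (φ : A →+* K)
    (τ : R →+* O) (hτ : (algebraMap O K).comp τ = φ.comp s) (x' : O) (hx : φ x = algebraMap O K x') :
    ∃ ψ : A →+* O, (algebraMap O K).comp ψ = φ := by
  have key : ∀ a : A, ∃ b : O, algebraMap O K b = φ a := by
    intro a
    obtain ⟨p, hp, hpa⟩ := hint a
    apply IsIntegrallyClosed.isIntegral_iff.1
    refine ⟨p.map (Polynomial.eval₂RingHom τ x'), hp.map _, ?_⟩
    rw [Polynomial.eval₂_map]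
    have h1 : (algebraMap O K).comp (Polynomial.eval₂RingHom τ x') =
        φ.comp (Polynomial.eval₂RingHom s x) := by
      apply Polynomial.ringHom_ext'
      · ext r
        have := congr($hτ r)
        simpa using this
      · simp [hx]
    rw [h1, ← Polynomial.hom_eval₂, hpa, map_zero]
  have hinj : Function.Injective (algebraMap O K) := IsFractionRing.injective O K
  have hle : ∀ a, φ a ∈ (algebraMap O K).range := fun a => (key a)
  let e := RingEquiv.ofLeftInverse (f := algebraMap O K) (Function.leftInverse_invFun hinj)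
  refine ⟨(e.symm : (algebraMap O K).range →+* O).comp (φ.codRestrict _ hle), ?_⟩
  ext a
  obtain ⟨b, hb⟩ := key a
  have h2 : (φ.codRestrict (algebraMap O K).range hle a) = e b := by
    apply Subtype.ext
    simp [e, hb]
  simp only [RingHom.coe_comp, Function.comp_apply, h2, RingHom.coe_coe, RingEquiv.symm_apply_apply]
  exact hb

/-- existence of lifts for a point whose coordinate is integral -/
lemma lift₁ (hint : (Polynomial.eval₂RingHom c.s₁ c.x).IsIntegral) (S : ValuativeCommSq f)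
    (φ : A₁ →+* S.K) (hφ : S.i₁ = Spec.map (CommRingCat.ofHom φ) ≫ c.j₁)
    (x' : S.R) (hx : φ c.x = algebraMap S.R S.K x') : S.commSq.HasLift := by
  let τ := (Spec.preimage S.i₂).hom
  have hτ : S.i₂ = Spec.map (CommRingCat.ofHom τ) := by
    rw [CommRingCat.ofHom_hom, Spec.map_preimage]
  have w := S.commSq.w
  rw [hφ, Category.assoc, c.h₁, hτ, ← Spec.map_comp, ← Spec.map_comp,
    ← CommRingCat.ofHom_comp, ← CommRingCat.ofHom_comp] at w
  have w' := congrArg CommRingCat.Hom.hom (Spec.map_injective w)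
  simp only [CommRingCat.hom_ofHom] at w'
  obtain ⟨ψ, hψ⟩ := map_mem_range c.s₁ c.x hint φ τ w'.symm x' hx
  refine ⟨⟨⟨Spec.map (CommRingCat.ofHom ψ) ≫ c.j₁, ?_, ?_⟩⟩⟩
  · rw [hφ, ← Category.assoc, ← Spec.map_comp, ← CommRingCat.ofHom_comp, hψ]
  · rw [Category.assoc, c.h₁, hτ, ← Spec.map_comp, ← CommRingCat.ofHom_comp]
    congr 2
    have hinj : Function.Injective (algebraMap S.R S.K) := IsFractionRing.injective S.R S.K
    ext r
    apply hinj
    have := congr($w' r)
    simp only [RingHom.comp_apply] at this ⊢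
    rw [← this, ← hψ]
    rfl

lemma hasLift₁ (hint₁ : (Polynomial.eval₂RingHom c.s₁ c.x).IsIntegral)
    (hint₂ : (Polynomial.eval₂RingHom c.s₂ c.u).IsIntegral) (S : ValuativeCommSq f)
    (φ : A₁ →+* S.K) (hφ : S.i₁ = Spec.map (CommRingCat.ofHom φ) ≫ c.j₁) :
    S.commSq.HasLift := by
  rcases ValuationRing.isInteger_or_isInteger S.R (φ c.x) with ⟨x', hx⟩ | ⟨x', hx⟩
  · exact c.lift₁ hint₁ S φ hφ x' hx.symm
  · by_cases h0 : φ c.x = 0
    · exact c.lift₁ hint₁ S φ hφ 0 (by rw [h0, map_zero])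
    · obtain ⟨ψ, h1, h2⟩ := c.change φ (isUnit_iff_ne_zero.2 h0)
      refine c.swap.lift₁ hint₂ S ψ (hφ.trans h2) x' ?_
      change ψ c.u = _
      rw [hx]
      exact eq_inv_of_mul_eq_one_left h1

lemma existence (hint₁ : (Polynomial.eval₂RingHom c.s₁ c.x).IsIntegral)
    (hint₂ : (Polynomial.eval₂RingHom c.s₂ c.u).IsIntegral) :
    ValuativeCriterion.Existence f := by
  intro S
  rcases c.factor S.i₁ with ⟨φ, hφ⟩ | ⟨φ, hφ⟩
  · exact c.hasLift₁ hint₁ hint₂ S φ hφ
  · exact c.swap.hasLift₁ hint₂ hint₁ S φ hφ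

lemma unique₁ {O K : Type} [CommRing O] [Field K] [Algebra O K]
    (hinj : Function.Injective (algebraMap O K)) (ψ ψ' : A₁ →+* O)
    (h : Spec.map (CommRingCat.ofHom (algebraMap O K)) ≫ Spec.map (CommRingCat.ofHom ψ) ≫ c.j₁ =
      Spec.map (CommRingCat.ofHom (algebraMap O K)) ≫ Spec.map (CommRingCat.ofHom ψ') ≫ c.j₁) :
    ψ = ψ' := by
  rw [← Category.assoc, ← Category.assoc, cancel_mono, ← Spec.map_comp, ← Spec.map_comp,
    ← CommRingCat.ofHom_comp, ← CommRingCat.ofHom_comp] at h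
  have h' := congrArg CommRingCat.Hom.hom (Spec.map_injective h)
  simp only [CommRingCat.hom_ofHom] at h'
  ext a
  exact hinj (congr($h' a))

lemma unique₁₂ {O K : Type} [CommRing O] [Field K] [Algebra O K]
    (hinj : Function.Injective (algebraMap O K)) (ψ : A₁ →+* O) (ψ' : A₂ →+* O)
    (h : Spec.map (CommRingCat.ofHom (algebraMap O K)) ≫ Spec.map (CommRingCat.ofHom ψ) ≫ c.j₁ =
      Spec.map (CommRingCat.ofHom (algebraMap O K)) ≫ Spec.map (CommRingCat.ofHom ψ') ≫ c.j₂) :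
    Spec.map (CommRingCat.ofHom ψ) ≫ c.j₁ = Spec.map (CommRingCat.ofHom ψ') ≫ c.j₂ := by
  have h' := h
  rw [← Category.assoc, ← Category.assoc, ← Spec.map_comp, ← Spec.map_comp,
    ← CommRingCat.ofHom_comp, ← CommRingCat.ofHom_comp] at h'
  have h1 := c.mul_eq_one _ _ h'
  have h2 : ψ c.x * ψ' c.u = 1 := by
    apply hinj
    rw [map_mul, map_one]
    exact h1
  obtain ⟨ψ'', -, h4⟩ := c.change ψ (IsUnit.of_mul_eq_one _ h2)
  rw [h4] at h ⊢
  have := c.swap.unique₁ hinj ψ'' ψ' h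
  rw [this]

include c in
lemma uniqueness : ValuativeCriterion.Uniqueness f := by
  intro S
  constructor
  rintro ⟨l, hl1, hl2⟩ ⟨l', hl1', hl2'⟩
  have hinj : Function.Injective (algebraMap S.R S.K) := IsFractionRing.injective S.R S.K
  have : l = l' := by
    have h := hl1.trans hl1'.symm
    rcases c.factor l with ⟨ψ, rfl⟩ | ⟨ψ, rfl⟩ <;> rcases c.factor l' with ⟨ψ', rfl⟩ | ⟨ψ', rfl⟩
    · rw [c.unique₁ hinj ψ ψ' h]
    · exact c.unique₁₂ hinj ψ ψ' h
    · exact c.swap.unique₁₂ hinj ψ ψ' h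
    · rw [c.swap.unique₁ hinj ψ ψ' h]
  subst this
  rfl

/-- the cover by the two charts -/
noncomputable def cover : Scheme.OpenCover.{0} X :=
  .mkOfCovers Bool (fun b => cond b (Spec (.of A₁)) (Spec (.of A₂)))
    (fun b => match b with
      | true => c.j₁
      | false => c.j₂)
    (fun p => by
      rcases c.cov p with ⟨q, hq⟩ | ⟨q, hq⟩
      · exact ⟨true, q, hq⟩
      · exact ⟨false, q, hq⟩)
    (fun b => match b with
      | true => c.o₁
      | false => c.o₂)

/-- a property which is local on the source can be checked on the two charts -/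
lemma local_iff (P : MorphismProperty Scheme.{0}) [IsZariskiLocalAtSource P]
    (h1 : P (Spec.map (CommRingCat.ofHom c.s₁))) (h2 : P (Spec.map (CommRingCat.ofHom c.s₂))) :
    P f := by
  rw [IsZariskiLocalAtSource.iff_of_openCover (P := P) c.cover]
  rintro (_ | _)
  · change P (c.j₂ ≫ f)
    rw [c.h₂]; exact h2
  · change P (c.j₁ ≫ f)
    rw [c.h₁]; exact h1

lemma proper [IsNoetherianRing R] (hint₁ : (Polynomial.eval₂RingHom c.s₁ c.x).IsIntegral)
    (hint₂ : (Polynomial.eval₂RingHom c.s₂ c.u).IsIntegral) (hft₁ : c.s₁.FiniteType)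
    (hft₂ : c.s₂.FiniteType) : IsProper f := by
  have hft : LocallyOfFiniteType f := by
    have : IsZariskiLocalAtSource @LocallyOfFiniteType :=
      HasRingHomProperty.instIsZariskiLocalAtSource (Q := RingHom.FiniteType)
    apply c.local_iff @LocallyOfFiniteType
    · rw [HasRingHomProperty.Spec_iff (P := @LocallyOfFiniteType)]; exact hft₁
    · rw [HasRingHomProperty.Spec_iff (P := @LocallyOfFiniteType)]; exact hft₂
  have hN : IsLocallyNoetherian (Spec (CommRingCat.of R)) := inferInstance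
  have hX : IsLocallyNoetherian X := LocallyOfFiniteType.isLocallyNoetherian f
  have hc : CompactSpace X := by
    constructor
    have h1 : (Set.univ : Set X) = Set.range c.j₁ ∪ Set.range c.j₂ := by
      ext p
      simp only [Set.mem_univ, true_iff]
      exact c.cov p
    rw [h1]
    exact (isCompact_range c.j₁.continuous).union (isCompact_range c.j₂.continuous)
  have hqs : QuasiSeparated f := by
    rw [quasiSeparated_iff_quasiSeparatedSpace]; infer_instance
  have hqc : QuasiCompact f := by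
    rw [quasiCompact_iff_compactSpace]; infer_instance
  exact IsProper.of_valuativeCriterion f
    (ValuativeCriterion.iff.2 ⟨c.existence hint₁ hint₂, c.uniqueness⟩)

end Charts

end Pool.Agent.W523
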