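import Pool.Agent.W523.Der
import Pool.Agent.W523.Conn

open Polynomial

namespace Pool.Agent.W523

section reg

variable {L : Type} [Field L] [Algebra ℂ L] {F : ℂ[X]} {ι : CR ℂ F →+* L}

lemma IsFF.apply (h : IsFF F L ι) (b : CR ℂ F) :
    ι b = aeval (ι (xx F)) b.re + aeval (ι (xx F)) b.im * ι ⟨0, 1⟩ := by
  nth_rw 1 [CR_decomp b]
  rw [map_add, map_mul, h.eval, h.eval]

lemma IsFF.pres (h : IsFF F L ι) (E : Derivation ℂ L L) (hx : E (ι (xx F)) = 2 * ι ⟨0, 1⟩)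
    (hy : E (ι ⟨0, 1⟩) = aeval (ι (xx F)) (derivative F)) (b : CR ℂ F) :
    E (ι b) = ι ⟨b.im * derivative F + 2 * derivative b.im * F, 2 * derivative b.re⟩ := by
  have hR := h.apply (⟨b.im * derivative F + 2 * derivative b.im * F, 2 * derivative b.re⟩ :
    CR ℂ F)
  rw [h.apply b, map_add, Derivation.leibniz, Derivation.map_aeval, Derivation.map_aeval, hx, hy,
    hR]
  simp only [map_add, map_mul, smul_eq_mul, map_ofNat, ← h.sq]
  ring

/-- the embedding of the local ring -/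
lemma loc_unit (h : IsFF F L ι) (P : Ideal (CR ℂ F)) [P.IsPrime] (y : P.primeCompl) :
    IsUnit (ι y) := by
  refine IsUnit.mk0 _ fun h0 => ?_
  have : (y : CR ℂ F) = 0 := h.inj (by rw [h0, map_zero])
  exact y.2 (this ▸ P.zero_mem)

/-- the embedding of the local ring -/
noncomputable def rho (h : IsFF F L ι) (P : Ideal (CR ℂ F)) [P.IsPrime] :
    Localization.AtPrime P →+* L :=
  IsLocalization.lift (M := P.primeCompl) (loc_unit h P)

lemma rho_eq (h : IsFF F L ι) (P : Ideal (CR ℂ F)) [P.IsPrime] (a : CR ℂ F) :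
    rho h P (algebraMap _ _ a) = ι a := IsLocalization.lift_eq _ _

lemma rho_comp (h : IsFF F L ι) (P : Ideal (CR ℂ F)) [P.IsPrime] :
    (rho h P).comp (algebraMap _ _) = ι := RingHom.ext (rho_eq h P)

lemma mem_rho (h : IsFF F L ι) (P : Ideal (CR ℂ F)) [P.IsPrime] (w : L) :
    w ∈ (rho h P).range ↔ ∃ n s, s ∉ P ∧ w * ι s = ι n := by
  constructor
  · rintro ⟨t, rfl⟩
    obtain ⟨⟨n, s⟩, hs⟩ := IsLocalization.surj P.primeCompl t
    refine ⟨n, s, s.2, ?_⟩
    rw [← rho_eq h P, ← map_mul, hs, rho_eq]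
  · rintro ⟨n, s, hs, hw⟩
    refine ⟨IsLocalization.mk' _ n (⟨s, hs⟩ : P.primeCompl), ?_⟩
    have hne : ι s ≠ 0 := (loc_unit h P ⟨s, hs⟩).ne_zero
    apply mul_right_cancel₀ hne
    rw [hw, ← rho_eq h P, ← map_mul]
    have := IsLocalization.mk'_spec (Localization.AtPrime P) n (⟨s, hs⟩ : P.primeCompl)
    rw [this, rho_eq]

lemma rho_closed (h : IsFF F L ι) (P : Ideal (CR ℂ F)) [P.IsPrime] (E : Derivation ℂ L L)
    (hE : ∀ b, ∃ b', E (ι b) = ι b') (w : L) (hw : w ∈ (rho h P).range) :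
    E w ∈ (rho h P).range := by
  have hw' := hw
  rw [mem_rho] at hw
  obtain ⟨n, s, hs, hws⟩ := hw
  have hne : ι s ≠ 0 := (loc_unit h P ⟨s, hs⟩).ne_zero
  have h1 := congrArg E hws
  rw [Derivation.leibniz, smul_eq_mul, smul_eq_mul] at h1
  obtain ⟨n', hn'⟩ := hE n
  obtain ⟨s', hs'⟩ := hE s
  have hi : (ι s)⁻¹ ∈ (rho h P).range := by
    rw [mem_rho]
    exact ⟨1, s, hs, by rw [inv_mul_cancel₀ hne, map_one]⟩
  have hι : ∀ a, ι a ∈ (rho h P).range := fun a => ⟨_, rho_eq h P a⟩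
  have h2 : E w = (ι s)⁻¹ * (ι n' - w * ι s') := by
    rw [← hn', ← hs', ← h1]
    field_simp
    ring
  rw [h2]
  exact Subring.mul_mem _ hi (Subring.sub_mem _ (hι _) (Subring.mul_mem _ hw' (hι _)))

lemma mem_of_forall_prime (h : IsFF F L ι) (z : L)
    (hz : ∀ (P : Ideal (CR ℂ F)) [P.IsPrime], z ∈ (rho h P).range) : ∃ b, z = ι b := by
  let I : Ideal (CR ℂ F) :=
    { carrier := {s | ∃ n, z * ι s = ι n}
      zero_mem' := ⟨0, by simp⟩
      add_mem' := by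
        rintro s t ⟨n, hn⟩ ⟨m, hm⟩
        exact ⟨n + m, by rw [map_add, map_add, mul_add, hn, hm]⟩
      smul_mem' := by
        rintro c s ⟨n, hn⟩
        exact ⟨c * n, by rw [smul_eq_mul, map_mul, map_mul, ← hn]; ring⟩ }
  have hI : I = ⊤ := by
    by_contra hne
    obtain ⟨M, hM, hIM⟩ := Ideal.exists_le_maximal I hne
    have := hM.isPrime
    obtain ⟨n, s, hs, hw⟩ := (mem_rho h M z).1 (hz M)
    exact hs (hIM ⟨n, hw⟩)
  have h1 : (1 : CR ℂ F) ∈ I := by rw [hI]; trivial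
  obtain ⟨n, hn⟩ := h1
  exact ⟨n, by rw [← hn, map_one, mul_one]⟩

/-- the quotient of a differential by the square root of a separable polynomial is regular -/
lemma key_mem (O : Subring L) (hO : ∀ c, algebraMap ℂ L c ∈ O) (E : Derivation ℂ L L)
    (hE : ∀ w ∈ O, E w ∈ O) {G : ℂ[X]} (hG : IsCoprime G (derivative G)) {ξ η : L} (hξ : ξ ∈ O)
    (hη : η ∈ O) (h0 : η ≠ 0) (hsq : η * η = aeval ξ G) : E ξ / η ∈ O := by
  obtain ⟨a, b, hab⟩ := hG
  have hev : ∀ p : ℂ[X], aeval ξ p ∈ O := by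
    intro p
    induction p using Polynomial.induction_on with
    | C c => rw [aeval_C]; exact hO c
    | add p q hp hq => rw [map_add]; exact O.add_mem hp hq
    | monomial n c hp =>
      rw [map_mul, aeval_C, map_pow, aeval_X]
      exact O.mul_mem (hO c) (O.pow_mem hξ _)
  have h1 : aeval ξ a * (η * η) + aeval ξ b * aeval ξ (derivative G) = 1 := by
    rw [hsq, ← map_mul, ← map_mul, ← map_add, hab, map_one]
  have h2 : 2 * η * E η = aeval ξ (derivative G) * E ξ := by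
    have := congrArg E hsq
    rw [Derivation.leibniz, Derivation.map_aeval, smul_eq_mul, smul_eq_mul] at this
    rw [← this]; ring
  have h3 : E ξ / η = aeval ξ a * η * E ξ + 2 * aeval ξ b * E η := by
    rw [div_eq_iff h0]
    linear_combination -E ξ * h1 - aeval ξ b * h2
  rw [h3]
  exact O.add_mem (O.mul_mem (O.mul_mem (hev _) hη) (hE _ hξ))
    (O.mul_mem (O.mul_mem (by exact_mod_cast natCast_mem O 2) (hev _)) (hE _ hη))

variable (g : ℕ) (a b : ℂ)

lemma aeval_F2 {ξ υ : L} (h : ξ * υ = 1) :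
    aeval ξ (F1 g a b) * υ ^ (2 * g + 2) = aeval υ (F2 g a b) := by
  rw [aeval_def, aeval_def, eval₂_F1, eval₂_F2]
  have h1 : ξ ^ (2 * g + 2) * υ ^ (2 * g + 2) = 1 := by rw [← mul_pow, h, one_pow]
  have h2 : ξ * υ ^ (2 * g + 2) = υ ^ (2 * g + 1) := by
    rw [pow_succ υ (2 * g + 1)]; linear_combination υ ^ (2 * g + 1) * h
  linear_combination h1 + algebraMap ℂ L a * h2

lemma F1_coprime (hd : disc g a b ≠ 0) : IsCoprime (F1 g a b) (derivative (F1 g a b)) := by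
  refine (Polynomial.isCoprime_iff_aeval_ne_zero_of_isAlgClosed ℂ ℂ _ _).2 ?_
  intro x
  by_contra h
  rw [not_or, not_not, not_not, aeval_def, aeval_def, eval₂_F1, eval₂_dF1] at h
  have h1 := disc_eq_zero g _ _ h.1 h.2
  rw [← disc_map] at h1
  exact hd ((map_eq_zero _).1 h1)

lemma F2_coprime (hd : disc g a b ≠ 0) : IsCoprime (F2 g a b) (derivative (F2 g a b)) := by
  refine (Polynomial.isCoprime_iff_aeval_ne_zero_of_isAlgClosed ℂ ℂ _ _).2 ?_
  intro u
  by_contra h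
  rw [not_or, not_not, not_not, aeval_def, aeval_def, eval₂_F2] at h
  have h2 : eval₂ (algebraMap ℂ ℂ) u (derivative (F2 g a b)) =
      a * ((2 * g + 1 : ℕ) * u ^ (2 * g)) + b * ((2 * g + 2 : ℕ) * u ^ (2 * g + 1)) := by
    rw [F2, derivative_add, derivative_add, derivative_one, derivative_C_mul, derivative_C_mul,
      derivative_X_pow, derivative_X_pow, zero_add, eval₂_add, eval₂_mul, eval₂_mul, eval₂_mul,
      eval₂_mul, eval₂_C, eval₂_C, eval₂_C, eval₂_C, eval₂_pow, eval₂_pow, eval₂_X]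
    rfl
  rw [h2] at h
  obtain ⟨h3, h4⟩ := h
  have hu : u ≠ 0 := by
    rintro rfl
    simp at h3
  obtain ⟨x, hx⟩ : ∃ x, x * u = 1 := ⟨u⁻¹, inv_mul_cancel₀ hu⟩
  have hx0 : x ≠ 0 := left_ne_zero_of_mul_eq_one hx
  have e0 : x ^ (2 * g + 2) * u ^ (2 * g + 2) = 1 := by rw [← mul_pow, hx, one_pow]
  have e1 : x ^ (2 * g + 2) * u ^ (2 * g + 1) = x := by
    rw [pow_succ x (2 * g + 1)]
    have : x ^ (2 * g + 1) * u ^ (2 * g + 1) = 1 := by rw [← mul_pow, hx, one_pow]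
    linear_combination x * this
  have e2 : x ^ (2 * g + 1) * u ^ (2 * g) = x := by
    rw [pow_succ x (2 * g)]
    have : x ^ (2 * g) * u ^ (2 * g) = 1 := by rw [← mul_pow, hx, one_pow]
    linear_combination x * this
  have e3 : x ^ (2 * g + 1) * u ^ (2 * g + 1) = 1 := by rw [← mul_pow, hx, one_pow]
  have h5 : x ^ (2 * g + 2) + a * x + b = 0 := by
    have h3' : 1 + a * u ^ (2 * g + 1) + b * u ^ (2 * g + 2) = 0 := h3
    linear_combination x ^ (2 * g + 2) * h3' - a * e1 - b * e0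
  have h6 : ((2 * g + 1 : ℕ) : ℂ) * a * x + (2 * g + 2 : ℕ) * b = 0 := by
    linear_combination x ^ (2 * g + 1) * h4 - a * (2 * g + 1 : ℕ) * e2 - b * (2 * g + 2 : ℕ) * e3
  apply hd
  refine disc_eq_zero g a b h5 ?_
  apply mul_left_cancel₀ hx0
  push_cast at h6 ⊢
  linear_combination (2 * g + 2) * h5 - h6

/-- regularity of the differentials `x^i dx / y` pulled back along a map -/
lemma regular_mem {E : Derivation ℂ L L} (O : Subring L) (hO : ∀ c, algebraMap ℂ L c ∈ O)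
    (hE : ∀ w ∈ O, E w ∈ O) (hd : disc g a b ≠ 0) {ξ η : L} (h0 : η ≠ 0)
    (hsq : η * η = aeval ξ (F1 g a b))
    (hdich : (ξ ∈ O ∧ η ∈ O) ∨ ∃ υ ∈ O, ∃ ν ∈ O, ξ * υ = 1 ∧ η * υ ^ (g + 1) = ν)
    (i : ℕ) (hi : i < g) : ξ ^ i * (E ξ / η) ∈ O := by
  rcases hdich with ⟨h1, h2⟩ | ⟨υ, hυ, ν, hν, h1, h2⟩
  · exact O.mul_mem (O.pow_mem h1 _) (key_mem O hO E hE (F1_coprime g a b hd) h1 h2 h0 hsq)
  · have hυ0 : υ ≠ 0 := right_ne_zero_of_mul_eq_one h1
    have hν0 : ν ≠ 0 := by rw [← h2]; exact mul_ne_zero h0 (pow_ne_zero _ hυ0)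
    have h3 : ν * ν = aeval υ (F2 g a b) := by
      rw [← aeval_F2 g a b h1, ← hsq, ← h2]; ring
    have h4 := key_mem O hO E hE (F2_coprime g a b hd) hυ hν hν0 h3
    have h5 : ξ * E υ + υ * E ξ = 0 := by
      have := congrArg E h1
      rw [Derivation.leibniz, smul_eq_mul, smul_eq_mul, Derivation.map_one_eq_zero] at this
      exact this
    obtain ⟨j, hj⟩ : ∃ j, g = i + 1 + j := ⟨g - i - 1, by omega⟩
    have h6 : ξ ^ i * (E ξ / η) = -(υ ^ j * (E υ / ν)) := by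
      rw [← h2]
      have hξi : ξ ^ i * υ ^ i = 1 := by rw [← mul_pow, h1, one_pow]
      have e1 : υ ^ (g + 1) = υ ^ i * υ ^ (j + 2) := by rw [← pow_add]; congr 1; omega
      have hEξ : υ ^ 2 * E ξ = - E υ := by
        linear_combination υ * h5 - E υ * h1
      have e2 : ξ ^ i * E ξ * υ ^ (g + 1) = -(υ ^ j * E υ) := by
        rw [e1, pow_add υ j 2]
        linear_combination υ ^ j * (υ ^ 2 * E ξ) * hξi + υ ^ j * hEξ
      have e3 : ξ ^ i * (E ξ / η) = (ξ ^ i * E ξ * υ ^ (g + 1)) / (η * υ ^ (g + 1)) := by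
        field_simp
      rw [e3, e2]
      ring
    rw [h6]
    exact O.neg_mem (O.mul_mem (O.pow_mem hυ _) h4)

end reg

end Pool.Agent.W523
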