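import Pool.Agent.W523.Curve

open AlgebraicGeometry CategoryTheory Limits Polynomial

namespace Pool.Agent.W523

section poly

variable (R : Type) [CommRing R]

lemma aeval_X_bij : Function.Bijective
    (MvPolynomial.aeval (R := R) (fun _ : Unit => (X : R[X]))) := by
  have h : (MvPolynomial.aeval (R := R) (fun _ : Unit => (X : R[X]))) =
      (MvPolynomial.uniqueAlgEquiv R Unit).toAlgHom := by
    ext i
    simp
  rw [h]
  exact (MvPolynomial.uniqueAlgEquiv R Unit).bijective

noncomputable def polyPres : Algebra.Presentation R R[X] Unit Empty where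
  __ := Algebra.Generators.ofSurjective (fun _ : Unit => (X : R[X])) (aeval_X_bij R).2
  relation := Empty.elim
  span_range_relation_eq_ker := by
    rw [Set.range_eq_empty, Ideal.span_empty]
    symm
    rw [Algebra.Generators.ker_eq_ker_aeval_val, ← RingHom.injective_iff_ker_eq_bot]
    exact (aeval_X_bij R).1

noncomputable def polyPre : Algebra.PreSubmersivePresentation R R[X] Unit Empty where
  __ := polyPres R
  map := Empty.elim
  map_inj := fun x => x.elim

noncomputable def polySub : Algebra.SubmersivePresentation R R[X] Unit Empty where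
  __ := polyPre R
  jacobian_isUnit := by
    rw [Algebra.PreSubmersivePresentation.jacobian_eq_jacobiMatrix_det]
    simp

lemma poly_smooth : (C : R →+* R[X]).IsStandardSmoothOfRelativeDimension 1 := by
  change (algebraMap R R[X]).IsStandardSmoothOfRelativeDimension 1
  rw [RingHom.isStandardSmoothOfRelativeDimension_algebraMap]
  refine (polySub R).isStandardSmoothOfRelativeDimension ?_
  rw [Algebra.Presentation.dimension]
  simp

end poly

section etale

variable {P : Type} [CommRing P] (h : P[X]) (hm : h.Monic)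

/-- the standard etale pair -/
noncomputable def sep : StandardEtalePair P where
  f := h
  monic_f := hm
  g := derivative h
  cond := ⟨1, 0, 1, by ring⟩

include hm in
lemma etale_aux : Algebra.IsStandardSmoothOfRelativeDimension 0 P
    (Localization.Away (AdjoinRoot.mk h (derivative h))) := by
  let S := (sep h hm).Ring
  have pr : StandardEtalePresentation P S :=
    ⟨sep h hm, (sep h hm).X, (sep h hm).hasMap_X, by
      rw [StandardEtalePair.lift_X_left]; exact Function.bijective_id⟩
  have : Algebra.IsStandardSmoothOfRelativeDimension 0 P S :=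
    pr.toSubmersivePresentation.isStandardSmoothOfRelativeDimension (by
      rw [Algebra.Presentation.dimension]; simp)
  exact Algebra.IsStandardSmoothOfRelativeDimension.of_algEquiv 0 (sep h hm).equivAwayAdjoinRoot

include hm in
/-- `S = P[Y]/(h)`; then `S[1/h'(y)]` is etale over `P` -/
lemma etale_of_equiv {S : Type} [CommRing S] (e : AdjoinRoot h ≃+* S) (d : S)
    (hd : d = e (AdjoinRoot.mk h (derivative h))) :
    ((algebraMap S (Localization.Away d)).comp
      (e.toRingHom.comp (AdjoinRoot.of h))).IsStandardSmoothOfRelativeDimension 0 := by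
  subst hd
  have h1 := etale_aux h hm
  rw [← RingHom.isStandardSmoothOfRelativeDimension_algebraMap] at h1
  let e' : Localization.Away (AdjoinRoot.mk h (derivative h)) ≃+*
      Localization.Away (e (AdjoinRoot.mk h (derivative h))) :=
    IsLocalization.ringEquivOfRingEquiv (M := .powers (AdjoinRoot.mk h (derivative h)))
      (T := .powers (e (AdjoinRoot.mk h (derivative h)))) _ _ e (by
        rw [Submonoid.map_powers]; rfl)
  have h2 := (RingHom.IsStandardSmoothOfRelativeDimension.equiv e').comp h1
  convert h2 using 1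
  ext r
  simp only [RingHom.comp_apply]
  rw [IsScalarTower.algebraMap_apply P (AdjoinRoot h)
    (Localization.Away (AdjoinRoot.mk h (derivative h)))]
  exact (IsLocalization.ringEquivOfRingEquiv_eq _ _).symm

end etale

section charts

variable {R : Type} [CommRing R] (f : R[X])

/-- `Y² - f` -/
noncomputable def hY : R[X][X] := X ^ 2 - C f

lemma hY_monic : (hY f).Monic := Polynomial.monic_X_pow_sub_C f (by norm_num)

lemma root_sq : AdjoinRoot.root (hY f) * AdjoinRoot.root (hY f) = AdjoinRoot.of (hY f) f := by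
  have h := AdjoinRoot.eval₂_root (hY f)
  have h2 : ∀ (T : Type) [CommRing T] (φ : R[X] →+* T) (z : T),
      eval₂ φ z (hY f) = z * z - φ f := by
    intro T _ φ z
    rw [hY, eval₂_sub, eval₂_pow, eval₂_X, eval₂_C, sq]
  rw [h2] at h
  exact sub_eq_zero.1 h

lemma om_sq : (⟨0, 1⟩ : CR R f) * ⟨0, 1⟩ = ⟨f, 0⟩ := by
  rw [QuadraticAlgebra.mk_mul_mk]
  congr 1 <;> ring

/-- `R[x][Y]/(Y² - f) → R[x,y]/(y² - f)` -/
noncomputable def eYto : AdjoinRoot (hY f) →+* CR R f :=
  AdjoinRoot.lift (algebraMap R[X] (QuadraticAlgebra R[X] f 0)) ⟨0, 1⟩ (by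
    rw [hY, eval₂_sub, eval₂_pow, eval₂_X, eval₂_C, sub_eq_zero, sq, om_sq]
    rfl)

/-- the inverse -/
noncomputable def eYinv : CR R f →+* AdjoinRoot (hY f) :=
  qlift (AdjoinRoot.of (hY f)) (AdjoinRoot.root (hY f)) (root_sq f)

lemma eYto_of (r : R[X]) : eYto f (AdjoinRoot.of (hY f) r) = ⟨r, 0⟩ := by
  rw [eYto, AdjoinRoot.lift_of]
  rfl

lemma eYto_root : eYto f (AdjoinRoot.root (hY f)) = ⟨0, 1⟩ := by
  rw [eYto, AdjoinRoot.lift_root]

/-- `R[x][Y]/(Y² - f) = R[x,y]/(y² - f)` -/
noncomputable def eY : AdjoinRoot (hY f) ≃+* CR R f :=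
  RingEquiv.ofRingHom (eYto f) (eYinv f)
    (by
      apply qlift_ext
      · intro r
        rw [RingHom.comp_apply, RingHom.id_apply, eYinv, qlift_apply, map_zero, zero_mul, add_zero,
          eYto_of]
      · rw [RingHom.comp_apply, RingHom.id_apply, eYinv, qlift_apply, map_zero, map_one, one_mul,
          zero_add, eYto_root])
    (by
      apply AdjoinRoot.ringHom_ext
      · refine RingHom.ext fun r => ?_
        rw [RingHom.comp_apply, RingHom.comp_apply, RingHom.comp_apply, RingHom.id_apply, eYto_of,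
          eYinv, qlift_apply, map_zero, zero_mul, add_zero]
      · rw [RingHom.comp_apply, RingHom.id_apply, eYto_root, eYinv, qlift_apply, map_zero, map_one,
          one_mul, zero_add])

lemma eY_of (r : R[X]) : eY f (AdjoinRoot.of (hY f) r) = ⟨r, 0⟩ := eYto_of f r

lemma eY_root : eY f (AdjoinRoot.root (hY f)) = ⟨0, 1⟩ := eYto_root f

lemma eY_deriv : (⟨0, 2⟩ : CR R f) = eY f (AdjoinRoot.mk (hY f) (derivative (hY f))) := by
  have c2 : (C (2 : R) : R[X]) = 2 := map_ofNat C 2
  have h : derivative (hY f) = C (C 2) * X := by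
    rw [hY, derivative_sub, derivative_C, sub_zero, derivative_X_pow, c2]
    norm_num
  have h2 : AdjoinRoot.mk (hY f) (derivative (hY f)) =
      AdjoinRoot.of (hY f) (C 2) * AdjoinRoot.root (hY f) := by
    rw [h, map_mul, AdjoinRoot.mk_X, AdjoinRoot.mk_C]
  rw [h2, map_mul, eY_of, eY_root, QuadraticAlgebra.mk_mul_mk]
  ext1
  · simp
  · simp [c2]

/-- away from the ramification the curve is smooth (etale over the line) -/
lemma smooth_y :
    ((algebraMap (CR R f) (Localization.Away (⟨0, 2⟩ : CR R f))).comp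
      (sc f)).IsStandardSmoothOfRelativeDimension 1 := by
  have h := etale_of_equiv (hY f) (hY_monic f) (eY f) (⟨0, 2⟩ : CR R f) (eY_deriv f)
  have h' := h.comp (poly_smooth R)
  have e : (algebraMap (CR R f) (Localization.Away (⟨0, 2⟩ : CR R f))).comp (sc f) =
      ((algebraMap (CR R f) (Localization.Away (⟨0, 2⟩ : CR R f))).comp
          ((eY f).toRingHom.comp (AdjoinRoot.of (hY f)))).comp C := by
    ext1 r
    simp only [RingHom.comp_apply]
    congr 1
    exact (eY_of f (C r)).symm
  rw [e]
  exact h'

/-- `f(X) - y²` over `R[y]` -/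
noncomputable def hX : R[X][X] := f.map C - C (X ^ 2)

lemma hX_monic (hf : f.Monic) (hd : 0 < f.natDegree) : (hX f).Monic := by
  nontriviality R
  refine (hf.map C).sub_of_left ?_
  rw [Polynomial.degree_map_eq_of_leadingCoeff_ne_zero]
  · refine lt_of_le_of_lt degree_C_le ?_
    exact natDegree_pos_iff_degree_pos.1 hd
  · rw [hf.leadingCoeff, map_one]; exact one_ne_zero

lemma hX_eval {T : Type} [CommRing T] (φ : R[X] →+* T) (z : T) :
    eval₂ φ z (hX f) = eval₂ (φ.comp C) z f - φ X * φ X := by
  rw [hX, eval₂_sub, eval₂_C, eval₂_map, map_pow, sq]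

/-- `R[x] → R[y][X]/(f(X) - y²)` -/
noncomputable def eXa : R[X] →+* AdjoinRoot (hX f) :=
  eval₂RingHom ((AdjoinRoot.of (hX f)).comp C) (AdjoinRoot.root (hX f))

lemma eXa_f : AdjoinRoot.of (hX f) X * AdjoinRoot.of (hX f) X = eXa f f := by
  have h := AdjoinRoot.eval₂_root (hX f)
  rw [hX_eval] at h
  exact (sub_eq_zero.1 h).symm

/-- `R[y][X]/(f(X) - y²) → R[x,y]/(y² - f)` -/
noncomputable def eXto : AdjoinRoot (hX f) →+* CR R f :=
  AdjoinRoot.lift (eval₂RingHom (sc f) ⟨0, 1⟩) (xx f) (by
    have h : eval₂ ((eval₂RingHom (sc f) ⟨0, 1⟩).comp C) (xx f) f = ⟨f, 0⟩ := by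
      have h1 : eval₂RingHom ((eval₂RingHom (sc f) (⟨0, 1⟩ : CR R f)).comp C) (xx f) =
          algebraMap R[X] (QuadraticAlgebra R[X] f 0) := by
        apply Polynomial.ringHom_ext
        · intro r; simp [sc]
        · simp; rfl
      exact congr($h1 f)
    rw [hX_eval, h, sub_eq_zero, coe_eval₂RingHom, eval₂_X, om_sq])

/-- the inverse -/
noncomputable def eXinv : CR R f →+* AdjoinRoot (hX f) :=
  qlift (eXa f) (AdjoinRoot.of (hX f) X) (eXa_f f)

lemma eXto_of (r : R[X]) :
    eXto f (AdjoinRoot.of (hX f) r) = eval₂RingHom (sc f) ⟨0, 1⟩ r := by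
  rw [eXto, AdjoinRoot.lift_of]

lemma eXto_root : eXto f (AdjoinRoot.root (hX f)) = xx f := by
  rw [eXto, AdjoinRoot.lift_root]

lemma eXto_a (r : R[X]) : eXto f (eXa f r) = ⟨r, 0⟩ := by
  have h1 : (eXto f).comp (eXa f) = algebraMap R[X] (QuadraticAlgebra R[X] f 0) := by
    apply Polynomial.ringHom_ext
    · intro r
      rw [RingHom.comp_apply, eXa, coe_eval₂RingHom, eval₂_C, RingHom.comp_apply, eXto_of,
        coe_eval₂RingHom, eval₂_C]
      rfl
    · rw [RingHom.comp_apply, eXa, coe_eval₂RingHom, eval₂_X, eXto_root]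
      rfl
  exact congr($h1 r)

/-- `R[y][X]/(f(X) - y²) = R[x,y]/(y² - f)` -/
noncomputable def eX : AdjoinRoot (hX f) ≃+* CR R f :=
  RingEquiv.ofRingHom (eXto f) (eXinv f)
    (by
      apply qlift_ext
      · intro r
        rw [RingHom.comp_apply, RingHom.id_apply, eXinv, qlift_apply, map_zero, zero_mul, add_zero,
          eXto_a]
      · rw [RingHom.comp_apply, RingHom.id_apply, eXinv, qlift_apply, map_zero, map_one, one_mul,
          zero_add, eXto_of, coe_eval₂RingHom, eval₂_X])
    (by
      apply AdjoinRoot.ringHom_ext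
      · apply Polynomial.ringHom_ext
        · intro r
          rw [RingHom.comp_apply, RingHom.comp_apply, RingHom.comp_apply, RingHom.id_apply,
            eXto_of, coe_eval₂RingHom, eval₂_C, sc_apply, eXinv, qlift_apply, map_zero, zero_mul,
            add_zero, eXa, coe_eval₂RingHom, eval₂_C, RingHom.comp_apply]
        · rw [RingHom.comp_apply, RingHom.comp_apply, RingHom.comp_apply, RingHom.id_apply,
            eXto_of, coe_eval₂RingHom, eval₂_X, eXinv, qlift_apply, map_zero, map_one, one_mul,
            zero_add]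
      · rw [RingHom.comp_apply, RingHom.id_apply, eXto_root, eXinv, xx, qlift_apply, map_zero,
          zero_mul, add_zero, eXa, coe_eval₂RingHom, eval₂_X])

lemma eX_deriv :
    (⟨derivative f, 0⟩ : CR R f) = eX f (AdjoinRoot.mk (hX f) (derivative (hX f))) := by
  have h : derivative (hX f) = (derivative f).map C := by
    rw [hX, derivative_sub, derivative_C, sub_zero, derivative_map]
  have h2 : AdjoinRoot.mk (hX f) (derivative (hX f)) = eXa f (derivative f) := by
    rw [h, ← AdjoinRoot.aeval_eq, aeval_def, eval₂_map]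
    rfl
  rw [h2]
  exact (eXto_a f _).symm

/-- away from `f' = 0` the curve is smooth (etale over the line with coordinate `y`) -/
lemma smooth_x (hf : f.Monic) (hd : 0 < f.natDegree) :
    ((algebraMap (CR R f) (Localization.Away (⟨derivative f, 0⟩ : CR R f))).comp
      (sc f)).IsStandardSmoothOfRelativeDimension 1 := by
  have h := etale_of_equiv (hX f) (hX_monic f hf hd) (eX f) (⟨derivative f, 0⟩ : CR R f)
    (eX_deriv f)
  have h' := h.comp (poly_smooth R)
  have e : (algebraMap (CR R f) (Localization.Away (⟨derivative f, 0⟩ : CR R f))).comp (sc f) =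
      ((algebraMap (CR R f) (Localization.Away (⟨derivative f, 0⟩ : CR R f))).comp
          ((eX f).toRingHom.comp (AdjoinRoot.of (hX f)))).comp C := by
    refine RingHom.ext fun r => ?_
    simp only [RingHom.comp_apply]
    congr 1
    have : (eX f).toRingHom (AdjoinRoot.of (hX f) (C r)) = sc f r := by
      refine (eXto_of f (C r)).trans ?_
      rw [coe_eval₂RingHom, eval₂_C]
    exact this.symm
  rw [e]
  exact h'

end charts

end Pool.Agent.W523
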