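import Pool.Agent.W523.Smooth

open AlgebraicGeometry CategoryTheory Limits Polynomial

namespace Pool.Agent.W523

variable {R : Type} [CommRing R] (g : ℕ) (a b : R)

/-- the discriminant of `x^(2g+2) + a x + b` up to sign -/
def disc : R :=
  (2 * g + 1 : ℕ) ^ (2 * g + 1) * a ^ (2 * g + 2) - (2 * g + 2 : ℕ) ^ (2 * g + 2) * b ^ (2 * g + 1)

lemma disc_map {T : Type} [CommRing T] (φ : R →+* T) : φ (disc g a b) = disc g (φ a) (φ b) := by
  simp only [disc, map_sub, map_mul, map_pow, map_natCast]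

lemma disc_eq_zero {x : R} (h1 : x ^ (2 * g + 2) + a * x + b = 0)
    (h2 : (2 * g + 2 : ℕ) * x ^ (2 * g + 1) + a = 0) : disc g a b = 0 := by
  have h3 : ((2 * g + 1 : ℕ) : R) * a * x = -(((2 * g + 2 : ℕ) : R) * b) := by
    have h : ((2 * g + 2 : ℕ) : R) * (x ^ (2 * g + 2) + a * x + b) -
      x * ((2 * g + 2 : ℕ) * x ^ (2 * g + 1) + a) = 0 := by rw [h1, h2]; ring
    push_cast at h ⊢
    linear_combination h
  have h4 : (((2 * g + 1 : ℕ) : R) * a * x) ^ (2 * g + 1) =
      (-(((2 * g + 2 : ℕ) : R) * b)) ^ (2 * g + 1) := by rw [h3]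
  rw [Odd.neg_pow ⟨g, rfl⟩, mul_pow, mul_pow, mul_pow] at h4
  have h5 : (((2 * g + 1 : ℕ) : R)) ^ (2 * g + 1) * a ^ (2 * g + 1) *
      (((2 * g + 2 : ℕ) : R) * x ^ (2 * g + 1)) =
      -(((2 * g + 2 : ℕ) : R) * (((2 * g + 2 : ℕ) : R) ^ (2 * g + 1) * b ^ (2 * g + 1))) := by
    linear_combination ((2 * g + 2 : ℕ) : R) * h4
  rw [eq_neg_of_add_eq_zero_left h2] at h5
  rw [disc, pow_succ a (2 * g + 1), pow_succ (((2 * g + 2 : ℕ) : R)) (2 * g + 1)]
  linear_combination -h5

section eval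

variable {T : Type} [CommRing T] (φ : R →+* T) (z : T)

lemma eval₂_F1 : eval₂ φ z (F1 g a b) = z ^ (2 * g + 2) + φ a * z + φ b := by
  simp [F1]

lemma eval₂_F2 :
    eval₂ φ z (F2 g a b) = 1 + φ a * z ^ (2 * g + 1) + φ b * z ^ (2 * g + 2) := by
  simp [F2]

lemma eval₂_dF1 :
    eval₂ φ z (derivative (F1 g a b)) = ((2 * g + 2 : ℕ) : T) * z ^ (2 * g + 1) + φ a := by
  have h2 : φ 2 = 2 := map_ofNat φ 2
  simp [F1, h2]
  ring

end eval

lemma F1_monic : (F1 g a b).Monic := by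
  nontriviality R
  have h : (F1 g a b) = X ^ (2 * g + 2) + (C a * X + C b) := by rw [F1]; ring
  rw [h]
  refine monic_X_pow_add ?_
  refine lt_of_le_of_lt degree_linear_le ?_
  norm_cast; omega

lemma F1_natDegree [Nontrivial R] : (F1 g a b).natDegree = 2 * g + 2 := by
  have h : (F1 g a b) = X ^ (2 * g + 2) + (C a * X + C b) := by rw [F1]; ring
  rw [h]
  refine natDegree_eq_of_degree_eq_some ?_
  rw [degree_add_eq_left_of_degree_lt, degree_X_pow]
  rw [degree_X_pow]
  refine lt_of_le_of_lt degree_linear_le ?_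
  norm_cast; omega

lemma sc_eval (f : R[X]) (p : R[X]) : eval₂ (sc f) (xx f) p = ⟨p, 0⟩ := by
  have h : Polynomial.eval₂RingHom (sc f) (xx f) = algebraMap R[X] (QuadraticAlgebra R[X] f 0) := by
    apply Polynomial.ringHom_ext
    · intro r; simp [sc]
    · simp; rfl
  exact congr($h p)

/-- a point of the curve where both partial derivatives vanish -/
lemma sing₁ {T : Type} [CommRing T] [Nontrivial T] (hd : IsUnit (disc g a b)) (h2 : IsUnit (2 : R))
    (ψ : CR R (F1 g a b) →+* T) (e1 : ψ ⟨0, 2⟩ = 0) (e2 : ψ ⟨derivative (F1 g a b), 0⟩ = 0) :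
    False := by
  have hy : ψ ⟨0, 1⟩ = 0 := by
    have h : (⟨0, 2⟩ : CR R (F1 g a b)) = sc _ 2 * ⟨0, 1⟩ := by
      have c2 : (C (2 : R) : R[X]) = 2 := map_ofNat C 2
      rw [sc_apply, QuadraticAlgebra.mk_mul_mk]
      ext1
      · simp
      · simp [c2]
    rw [h, map_mul] at e1
    have h3 : IsUnit (ψ (sc _ 2)) := (h2.map (sc _)).map ψ
    exact (h3.mul_right_eq_zero).1 e1
  have hf : ψ ⟨F1 g a b, 0⟩ = 0 := by
    rw [← om_sq, map_mul, hy, mul_zero]
  rw [← sc_eval, hom_eval₂] at hf e2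
  have hd' := (hd.map (ψ.comp (sc _)))
  rw [disc_map] at hd'
  have : disc g ((ψ.comp (sc (F1 g a b))) a) ((ψ.comp (sc (F1 g a b))) b) = 0 := by
    refine disc_eq_zero g _ _ (x := ψ (xx _)) ?_ ?_
    · rw [eval₂_F1] at hf
      exact hf
    · rw [eval₂_dF1] at e2
      exact e2
  rw [this] at hd'
  exact not_isUnit_zero hd'

lemma sing₂ {T : Type} [CommRing T] [Nontrivial T] (h2 : IsUnit (2 : R))
    (ψ : CR R (F2 g a b) →+* T) (e1 : ψ ⟨0, 2⟩ = 0) (e2 : ψ (xx _) = 0) : False := by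
  have hy : ψ ⟨0, 1⟩ = 0 := by
    have h : (⟨0, 2⟩ : CR R (F2 g a b)) = sc _ 2 * ⟨0, 1⟩ := by
      have c2 : (C (2 : R) : R[X]) = 2 := map_ofNat C 2
      rw [sc_apply, QuadraticAlgebra.mk_mul_mk]
      ext1
      · simp
      · simp [c2]
    rw [h, map_mul] at e1
    have h3 : IsUnit (ψ (sc _ 2)) := (h2.map (sc _)).map ψ
    exact (h3.mul_right_eq_zero).1 e1
  have hf : ψ ⟨F2 g a b, 0⟩ = 0 := by
    rw [← om_sq, map_mul, hy, mul_zero]
  rw [← sc_eval, hom_eval₂, e2] at hf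
  rw [eval₂_F2] at hf
  simp at hf

lemma sp_of_std {A : Type} [CommRing A] (φ : R →+* A)
    (h : φ.IsStandardSmoothOfRelativeDimension 1) :
    SmoothOfRelativeDimension 1 (Spec.map (CommRingCat.ofHom φ)) := by
  rw [HasRingHomProperty.Spec_iff (P := @SmoothOfRelativeDimension 1)]
  exact RingHom.locally_of RingHom.isStandardSmoothOfRelativeDimension_respectsIso _ h

/-- a field valued point over a given point -/
lemma exists_pt {A : Type} [CommRing A] (q : Spec (.of A)) :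
    ∃ (K : Type) (_ : Field K) (φ : A →+* K), ∀ x : Spec (.of K),
      Spec.map (CommRingCat.ofHom φ) x = q := by
  have : q.asIdeal.IsPrime := q.isPrime
  refine ⟨q.asIdeal.ResidueField, inferInstance, algebraMap A q.asIdeal.ResidueField, ?_⟩
  intro x
  apply PrimeSpectrum.ext
  have hx : x.asIdeal = ⊥ := (Ideal.eq_bot_or_top x.asIdeal).resolve_right x.isPrime.ne_top
  change Ideal.comap (algebraMap A q.asIdeal.ResidueField) x.asIdeal = q.asIdeal
  rw [hx, ← RingHom.ker_eq_comap_bot, Ideal.ker_algebraMap_residueField]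

/-- the image of a localization -/
lemma exists_away {A : Type} [CommRing A] (d : A) (q : Spec (.of A)) {K : Type} [Field K]
    (φ : A →+* K) (h : ∀ x : Spec (.of K), Spec.map (CommRingCat.ofHom φ) x = q) (hd : φ d ≠ 0) :
    ∃ z, Spec.map (CommRingCat.ofHom (algebraMap A (Localization.Away d))) z = q := by
  let ψ : Localization.Away d →+* K :=
    IsLocalization.Away.lift (S := Localization.Away d) d (isUnit_iff_ne_zero.2 hd)
  have h1 : ψ.comp (algebraMap A (Localization.Away d)) = φ := IsLocalization.Away.lift_comp _ _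
  let x : Spec (.of K) := ⟨⊥, Ideal.isPrime_bot⟩
  refine ⟨Spec.map (CommRingCat.ofHom ψ) x, ?_⟩
  rw [← h x, ← Scheme.Hom.comp_apply, ← Spec.map_comp, ← CommRingCat.ofHom_comp, h1]

instance away_open {A : Type} [CommRing A] (d : A) :
    IsOpenImmersion (Spec.map (CommRingCat.ofHom (algebraMap A (Localization.Away d)))) :=
  IsOpenImmersion.of_isLocalization d

/-- the members of the cover of the curve -/
noncomputable def c3obj : Fin 3 → Scheme.{0}
  | 0 => Spec (.of (Localization.Away (⟨0, 2⟩ : CR R (F1 g a b))))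
  | 1 => Spec (.of (Localization.Away (⟨derivative (F1 g a b), 0⟩ : CR R (F1 g a b))))
  | 2 => Spec (.of (Localization.Away (⟨0, 2⟩ : CR R (F2 g a b))))

/-- the inclusions of the members of the cover -/
noncomputable def c3map : (i : Fin 3) → (c3obj g a b i ⟶ Crv g a b)
  | 0 => Spec.map (CommRingCat.ofHom (algebraMap _ _)) ≫ (crvCharts g a b).j₁
  | 1 => Spec.map (CommRingCat.ofHom (algebraMap _ _)) ≫ (crvCharts g a b).j₁
  | 2 => Spec.map (CommRingCat.ofHom (algebraMap _ _)) ≫ (crvCharts g a b).j₂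

lemma c3_key (hd : IsUnit (disc g a b)) (h2 : IsUnit (2 : R)) (q) :
    ∃ (i : Fin 3) (z : _), c3map g a b i z = (crvCharts g a b).j₁ q := by
  obtain ⟨K, _, φ, hφ⟩ := exists_pt q
  by_cases e1 : φ ⟨0, 2⟩ = 0
  · by_cases e2 : φ ⟨derivative (F1 g a b), 0⟩ = 0
    · exact (sing₁ g a b hd h2 φ e1 e2).elim
    · obtain ⟨z, hz⟩ := exists_away _ q φ hφ e2
      refine ⟨1, z, ?_⟩
      change (crvCharts g a b).j₁ _ = _
      exact congrArg _ hz
  · obtain ⟨z, hz⟩ := exists_away _ q φ hφ e1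
    refine ⟨0, z, ?_⟩
    change (crvCharts g a b).j₁ _ = _
    exact congrArg _ hz

lemma c3_cov (hd : IsUnit (disc g a b)) (h2 : IsUnit (2 : R)) (p : Crv g a b) :
    ∃ (i : Fin 3) (z : _), c3map g a b i z = p := by
  rcases (crvCharts g a b).cov p with ⟨q, rfl⟩ | ⟨q, rfl⟩
  · exact c3_key g a b hd h2 q
  · obtain ⟨K, _, φ, hφ⟩ := exists_pt q
    by_cases e1 : φ ⟨0, 2⟩ = 0
    · have e2 : φ (xx _) ≠ 0 := fun h => sing₂ g a b h2 φ e1 h
      obtain ⟨ψ, -, hψ⟩ := (crvCharts g a b).swap.change φ (isUnit_iff_ne_zero.2 e2)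
      let x : Spec (.of K) := ⟨⊥, Ideal.isPrime_bot⟩
      obtain ⟨i, z, hz⟩ := c3_key g a b hd h2 (Spec.map (CommRingCat.ofHom ψ) x)
      refine ⟨i, z, hz.trans ?_⟩
      rw [← hφ x]
      exact (congr($hψ x)).symm
    · obtain ⟨z, hz⟩ := exists_away _ q φ hφ e1
      refine ⟨2, z, ?_⟩
      change (crvCharts g a b).j₂ _ = _
      exact congrArg _ hz

lemma c3_open (i : Fin 3) : IsOpenImmersion (c3map g a b i) := by
  match i with
  | 0 => exact inferInstanceAs (IsOpenImmersion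
          (Spec.map (CommRingCat.ofHom (algebraMap _ _)) ≫ (crvCharts g a b).j₁))
  | 1 => exact inferInstanceAs (IsOpenImmersion
          (Spec.map (CommRingCat.ofHom (algebraMap _ _)) ≫ (crvCharts g a b).j₁))
  | 2 => exact inferInstanceAs (IsOpenImmersion
          (Spec.map (CommRingCat.ofHom (algebraMap _ _)) ≫ (crvCharts g a b).j₂))

/-- the cover of the curve -/
noncomputable def cover3 (hd : IsUnit (disc g a b)) (h2 : IsUnit (2 : R)) :
    Scheme.OpenCover.{0} (Crv g a b) :=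
  .mkOfCovers (Fin 3) (c3obj g a b) (c3map g a b) (c3_cov g a b hd h2) (c3_open g a b)

lemma crv_smooth [Nontrivial R] (hd : IsUnit (disc g a b)) (h2 : IsUnit (2 : R)) :
    SmoothOfRelativeDimension 1 (crvMap g a b) := by
  have : IsZariskiLocalAtSource (@SmoothOfRelativeDimension 1) :=
    HasRingHomProperty.instIsZariskiLocalAtSource
      (Q := RingHom.Locally (RingHom.IsStandardSmoothOfRelativeDimension 1))
  rw [IsZariskiLocalAtSource.iff_of_openCover (P := @SmoothOfRelativeDimension 1)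
    (cover3 g a b hd h2)]
  have hdeg : 0 < (F1 g a b).natDegree := by rw [F1_natDegree]; omega
  have key : ∀ i : Fin 3, SmoothOfRelativeDimension 1 (c3map g a b i ≫ crvMap g a b) := ?_
  · exact fun i => key i
  intro i
  match i with
  | 0 =>
    change SmoothOfRelativeDimension 1 ((Spec.map (CommRingCat.ofHom (algebraMap _ _)) ≫
      (crvCharts g a b).j₁) ≫ crvMap g a b)
    rw [Category.assoc, (crvCharts g a b).h₁, ← Spec.map_comp, ← CommRingCat.ofHom_comp]
    exact sp_of_std _ (smooth_y (F1 g a b))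
  | 1 =>
    change SmoothOfRelativeDimension 1 ((Spec.map (CommRingCat.ofHom (algebraMap _ _)) ≫
      (crvCharts g a b).j₁) ≫ crvMap g a b)
    rw [Category.assoc, (crvCharts g a b).h₁, ← Spec.map_comp, ← CommRingCat.ofHom_comp]
    exact sp_of_std _ (smooth_x (F1 g a b) (F1_monic g a b) hdeg)
  | 2 =>
    change SmoothOfRelativeDimension 1 ((Spec.map (CommRingCat.ofHom (algebraMap _ _)) ≫
      (crvCharts g a b).j₂) ≫ crvMap g a b)
    rw [Category.assoc, (crvCharts g a b).h₂, ← Spec.map_comp, ← CommRingCat.ofHom_comp]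
    exact sp_of_std _ (smooth_y (F2 g a b))

end Pool.Agent.W523
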