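import Pool.Agent.W523.BC

open AlgebraicGeometry CategoryTheory Limits Polynomial

namespace Pool.Agent.W523

section ext

variable {R T : Type} [CommRing R] [CommRing T]

lemma CR_ext {f : R[X]} {φ ψ : CR R f →+* T} (h0 : ∀ r, φ (sc f r) = ψ (sc f r))
    (h1 : φ (xx f) = ψ (xx f)) (h2 : φ ⟨0, 1⟩ = ψ ⟨0, 1⟩) : φ = ψ := by
  apply qlift_ext _ _ _ h2
  intro r
  have : φ.comp (algebraMap R[X] (QuadraticAlgebra R[X] f 0)) =
      ψ.comp (algebraMap R[X] (QuadraticAlgebra R[X] f 0)) := by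
    apply Polynomial.ringHom_ext
    · intro r; exact h0 r
    · exact h1
  exact congr($this r)

end ext

section pushout

variable {R S : Type} [CommRing R] [CommRing S] (φ : R →+* S) (e : S)

/-- `x ↦ e x` over `φ` -/
noncomputable def scal : R[X] →+* S[X] := eval₂RingHom (C.comp φ) (C e * X)

lemma scal_C (r : R) : scal φ e (C r) = C (φ r) := by
  simp [scal]

lemma scal_X : scal φ e X = C e * X := by
  simp [scal]

lemma eval₂_scal {T : Type} [CommRing T] (β : S →+* T) (z : T) (F : R[X]) :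
    eval₂ β z (scal φ e F) = eval₂ (β.comp φ) (β e * z) F := by
  have h : (eval₂RingHom β z).comp (scal φ e) = eval₂RingHom (β.comp φ) (β e * z) := by
    apply Polynomial.ringHom_ext
    · intro r; simp [scal]
    · simp [scal]
  exact congr($h F)

variable {φ e} {F : R[X]} {F' : S[X]} {w : S} (h : scal φ e F = (C w) ^ 2 * F')

lemma tw_sc (r : R) : qmap (scal φ e) (C w) h (sc F r) = sc F' (φ r) := by
  rw [sc_apply, sc_apply]
  ext1
  · simp [scal_C]
  · simp

lemma tw_xx : qmap (scal φ e) (C w) h (xx F) = sc F' e * xx F' := by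
  rw [sc_apply, xx, xx, QuadraticAlgebra.mk_mul_mk]
  ext1
  · simp [scal_X]
  · simp

lemma tw_yy : qmap (scal φ e) (C w) h ⟨0, 1⟩ = sc F' w * ⟨0, 1⟩ := by
  rw [sc_apply, QuadraticAlgebra.mk_mul_mk]
  ext1
  · simp
  · simp

include h in
lemma tw_rel {T : Type} [CommRing T] (α : CR R F →+* T) (β : S →+* T)
    (hc : ∀ r, α (sc F r) = β (φ r)) {e' w' : S} (he : e * e' = 1) (hw : w * w' = 1) :
    (β w' * α ⟨0, 1⟩) * (β w' * α ⟨0, 1⟩) = eval₂ β (β e' * α (xx F)) F' := by
  have h1 : α ⟨0, 1⟩ * α ⟨0, 1⟩ = eval₂ (β.comp φ) (α (xx F)) F := by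
    rw [← map_mul, om_sq, ← sc_eval, hom_eval₂]
    congr 1
    ext r
    exact hc r
  have h2 : eval₂ β (β e' * α (xx F)) (scal φ e F) = eval₂ (β.comp φ) (α (xx F)) F := by
    rw [eval₂_scal, ← mul_assoc, ← map_mul, he, map_one, one_mul]
  have h3 : β w * β w' = 1 := by rw [← map_mul, hw, map_one]
  rw [h, eval₂_mul, eval₂_pow, eval₂_C] at h2
  linear_combination (β w' ^ 2) * h1 - (β w' ^ 2) * h2 +
    (β w * β w' + 1) * eval₂ β (β e' * α (xx F)) F' * h3

/-- the induced map -/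
noncomputable def twDesc {T : Type} [CommRing T] (α : CR R F →+* T) (β : S →+* T)
    (hc : ∀ r, α (sc F r) = β (φ r)) {e' w' : S} (he : e * e' = 1) (hw : w * w' = 1) :
    CR S F' →+* T :=
  qlift (eval₂RingHom β (β e' * α (xx F))) (β w' * α ⟨0, 1⟩)
    (by rw [coe_eval₂RingHom]; exact tw_rel h α β hc he hw)

section desc

variable {T : Type} [CommRing T] (α : CR R F →+* T) (β : S →+* T)
    (hc : ∀ r, α (sc F r) = β (φ r)) {e' w' : S} (he : e * e' = 1) (hw : w * w' = 1)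

lemma twDesc_sc (s : S) : twDesc h α β hc he hw (sc F' s) = β s := by
  rw [twDesc, sc_apply, qlift_apply, map_zero, zero_mul, add_zero, coe_eval₂RingHom, eval₂_C]

lemma twDesc_xx : twDesc h α β hc he hw (xx F') = β e' * α (xx F) := by
  have hx : xx F' = ⟨X, 0⟩ := rfl
  rw [twDesc, hx, qlift_apply, map_zero, zero_mul, add_zero, coe_eval₂RingHom, eval₂_X]

lemma twDesc_yy : twDesc h α β hc he hw ⟨0, 1⟩ = β w' * α ⟨0, 1⟩ := by
  rw [twDesc, qlift_apply, map_zero, map_one, one_mul, zero_add]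

lemma twDesc_comp : (twDesc h α β hc he hw).comp (qmap (scal φ e) (C w) h) = α := by
  have he' : β e * β e' = 1 := by rw [← map_mul, he, map_one]
  have hw' : β w * β w' = 1 := by rw [← map_mul, hw, map_one]
  apply CR_ext
  · intro r
    rw [RingHom.comp_apply, tw_sc, twDesc_sc, hc]
  · rw [RingHom.comp_apply, tw_xx, map_mul, twDesc_sc, twDesc_xx, ← mul_assoc, he', one_mul]
  · rw [RingHom.comp_apply, tw_yy, map_mul, twDesc_sc, twDesc_yy, ← mul_assoc, hw', one_mul]

end desc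

/-- the charts of the twisted base change are push outs -/
lemma tw_pushout {e' w' : S} (he : e * e' = 1) (hw : w * w' = 1) :
    IsPushout (CommRingCat.ofHom (sc F)) (CommRingCat.ofHom φ)
      (CommRingCat.ofHom (qmap (scal φ e) (C w) h)) (CommRingCat.ofHom (sc F')) := by
  have comm : CommRingCat.ofHom (sc F) ≫ CommRingCat.ofHom (qmap (scal φ e) (C w) h) =
      CommRingCat.ofHom φ ≫ CommRingCat.ofHom (sc F') := by
    rw [← CommRingCat.ofHom_comp, ← CommRingCat.ofHom_comp]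
    congr 1
    ext1 r
    exact tw_sc h r
  have hc : ∀ (s : PushoutCocone (CommRingCat.ofHom (sc F)) (CommRingCat.ofHom φ)) (r : R),
    s.inl.hom (sc F r) = s.inr.hom (φ r) := fun s r => congr(($(s.condition)).hom r)
  refine ⟨⟨comm⟩, ⟨PushoutCocone.IsColimit.mk _ (fun s =>
    CommRingCat.ofHom (twDesc h s.inl.hom s.inr.hom (hc s) he hw)) (fun s => ?_) (fun s => ?_)
    (fun s m h1 h2 => ?_)⟩⟩
  · rw [← CommRingCat.ofHom_comp, twDesc_comp]
    rfl
  · rw [← CommRingCat.ofHom_comp]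
    ext t
    exact twDesc_sc h _ _ (hc s) he hw t
  · ext1
    rw [CommRingCat.hom_ofHom]
    have h2' : ∀ t, m.hom (sc F' t) = s.inr.hom t := fun t => congr(($h2).hom t)
    have h1' : ∀ t, m.hom (qmap (scal φ e) (C w) h t) = s.inl.hom t := fun t => congr(($h1).hom t)
    have he' : s.inr.hom e' * s.inr.hom e = 1 := by rw [← map_mul, mul_comm, he, map_one]
    have hw' : s.inr.hom w' * s.inr.hom w = 1 := by rw [← map_mul, mul_comm, hw, map_one]
    apply CR_ext
    · intro t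
      rw [twDesc_sc, h2']
    · rw [twDesc_xx, ← h1', tw_xx, map_mul, h2', ← mul_assoc, he', one_mul]
    · rw [twDesc_yy, ← h1', tw_yy, map_mul, h2', ← mul_assoc, hw', one_mul]

end pushout

lemma aux1 {A : Type} [CommRing A] (c d x u : A) (h : c * d = 1) (h2 : x * u = 1) :
    c * x * (d * u) = 1 := by
  linear_combination x * u * h + h2

lemma aux2 {A : Type} [CommRing A] (c d y u : A) (k : ℕ) (h : c * d = 1) :
    c ^ k * y * (d * u) ^ k = y * u ^ k := by
  have h' : c ^ k * d ^ k = 1 := by rw [← mul_pow, h, one_pow]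
  rw [mul_pow]
  linear_combination y * u ^ k * h'

section curve

variable {R S : Type} [CommRing R] [CommRing S] (g : ℕ) (φ : R →+* S) (c d : S) (a b : R)
  (a' b' : S)

/-- The data of a morphism between two curves of the family: `c` is a unit which rescales the
coefficients. -/
structure Tw : Prop where
  unit : c * d = 1
  ha : φ a = c ^ (2 * g + 1) * a'
  hb : φ b = c ^ (2 * g + 2) * b'

variable {g φ c d a b a' b'} (t : Tw g φ c d a b a' b')

namespace Tw

include t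

lemma rel₁ : scal φ c (F1 g a b) = (C (c ^ (g + 1))) ^ 2 * F1 g a' b' := by
  simp only [F1, map_add, map_mul, map_pow, scal_C, scal_X, t.ha, t.hb]
  ring

lemma rel₂ : scal φ d (F2 g a b) = (C 1) ^ 2 * F2 g a' b' := by
  have h : (C d : S[X]) * C c = 1 := by rw [← map_mul, mul_comm, t.unit, map_one]
  have h1 : (C d : S[X]) ^ (2 * g + 1) * C c ^ (2 * g + 1) = 1 := by
    rw [← mul_pow, h, one_pow]
  have h2 : (C d : S[X]) ^ (2 * g + 2) * C c ^ (2 * g + 2) = 1 := by
    rw [← mul_pow, h, one_pow]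
  simp only [F2, map_add, map_mul, map_pow, scal_C, scal_X, t.ha, t.hb, map_one, one_pow, one_mul]
  linear_combination (C a' * X ^ (2 * g + 1)) * h1 + (C b' * X ^ (2 * g + 2)) * h2

/-- the map of the first charts -/
noncomputable def m₁ : CR R (F1 g a b) →+* CR S (F1 g a' b') :=
  qmap (scal φ c) (C (c ^ (g + 1))) t.rel₁

/-- the map of the second charts -/
noncomputable def m₂ : CR R (F2 g a b) →+* CR S (F2 g a' b') :=
  qmap (scal φ d) (C 1) t.rel₂

lemma m₁_sc (r : R) : t.m₁ (sc _ r) = sc _ (φ r) := tw_sc t.rel₁ r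

lemma m₂_sc (r : R) : t.m₂ (sc _ r) = sc _ (φ r) := tw_sc t.rel₂ r

lemma p₁ : IsPushout (CommRingCat.ofHom (sc (F1 g a b))) (CommRingCat.ofHom φ)
    (CommRingCat.ofHom t.m₁) (CommRingCat.ofHom (sc (F1 g a' b'))) :=
  tw_pushout t.rel₁ t.unit (w' := d ^ (g + 1)) (by rw [← mul_pow, t.unit, one_pow])

lemma p₂ : IsPushout (CommRingCat.ofHom (sc (F2 g a b))) (CommRingCat.ofHom φ)
    (CommRingCat.ofHom t.m₂) (CommRingCat.ofHom (sc (F2 g a' b'))) :=
  tw_pushout t.rel₂ (e' := c) (by rw [mul_comm]; exact t.unit) (w' := 1) (one_mul 1)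

omit t in
lemma _root_.Pool.Agent.W523.inc2_yy : inc2 g a b ⟨0, 1⟩ =
    inc (F1 g a b) ⟨0, 1⟩ * inc2 g a b (xx _) ^ (g + 1) := by
  have h : ∀ m : ℕ, (⟨LaurentPolynomial.T (-1), 0⟩ : CL R (F1 g a b)) ^ m =
      ⟨LaurentPolynomial.T (-m), 0⟩ := by
    intro m
    induction m with
    | zero => simp; rfl
    | succ m ih =>
      rw [pow_succ, ih]
      ext1
      · rw [QuadraticAlgebra.re_mul, ← LaurentPolynomial.T_add, mul_zero, add_zero, Nat.cast_succ,
          neg_add]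
      · rw [QuadraticAlgebra.im_mul]; simp only [mul_zero, zero_mul, add_zero]
  rw [inc2_xx, h]
  ext1
  · change LaurentPolynomial.invert (toLaurent 0) = _
    rw [QuadraticAlgebra.re_mul]
    simp [inc]
  · change LaurentPolynomial.invert (toLaurent 1 * 1) * LaurentPolynomial.T (-(g + 1 : ℤ)) = _
    rw [QuadraticAlgebra.im_mul]
    simp [inc]

lemma exists_m₁₂ : ∃ μ : CL R (F1 g a b) →+* CL S (F1 g a' b'),
    μ.comp (inc _) = (inc _).comp t.m₁ ∧ μ.comp (inc2 g a b) = (inc2 g a' b').comp t.m₂ := by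
  have hx : t.m₁ (xx _) = sc _ c * xx _ := tw_xx t.rel₁
  have hx2 : t.m₂ (xx _) = sc _ d * xx _ := tw_xx t.rel₂
  have hy : t.m₁ ⟨0, 1⟩ = sc _ (c ^ (g + 1)) * ⟨0, 1⟩ := tw_yy t.rel₁
  have hy2 : t.m₂ ⟨0, 1⟩ = ⟨0, 1⟩ := by
    refine (tw_yy t.rel₂).trans ?_
    rw [map_one, one_mul]
  have hsc : ∀ s : S, inc2 g a' b' (sc _ s) = inc (F1 g a' b') (sc _ s) := fun s =>
    (congr($(inc_sc g a' b') s)).symm
  have hsc' : ∀ s : R, inc2 g a b (sc _ s) = inc (F1 g a b) (sc _ s) := fun s =>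
    (congr($(inc_sc g a b) s)).symm
  have hcd : inc (F1 g a' b') (sc _ c) * inc (F1 g a' b') (sc _ d) = 1 := by
    rw [← map_mul, ← map_mul, t.unit, map_one, map_one]
  have hu : IsUnit (((inc (F1 g a' b')).comp t.m₁) (xx _)) := by
    rw [RingHom.comp_apply, hx, map_mul]
    exact (IsUnit.of_mul_eq_one _ hcd).mul (isUnit_inc_xx _)
  obtain ⟨μ, hμ⟩ := exists_extend _ _ hu
  have hμ' : ∀ z, μ (inc _ z) = inc _ (t.m₁ z) := fun z => congr($hμ z)
  have hU : μ (inc2 g a b (xx _)) = inc2 g a' b' (t.m₂ (xx _)) := by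
    have h1 : μ (inc (F1 g a b) (xx _)) * μ (inc2 g a b (xx _)) = 1 := by
      rw [← map_mul, inc_mul_inc2, map_one]
    have h2 : μ (inc (F1 g a b) (xx _)) * inc2 g a' b' (t.m₂ (xx _)) = 1 := by
      rw [hμ', hx, hx2, map_mul, map_mul, hsc]
      exact aux1 _ _ _ _ hcd (inc_mul_inc2 g a' b')
    exact (IsUnit.of_mul_eq_one _ h1).mul_left_cancel (h1.trans h2.symm)
  refine ⟨μ, hμ, ?_⟩
  apply CR_ext
  · intro r
    rw [RingHom.comp_apply, RingHom.comp_apply, hsc', hμ', t.m₁_sc, t.m₂_sc, hsc]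
  · exact hU
  · rw [RingHom.comp_apply, RingHom.comp_apply, hy2, inc2_yy, inc2_yy, map_mul, map_pow, hU, hμ',
      hy, hx2, map_mul, map_mul, hsc, map_pow, map_pow]
    exact aux2 _ _ _ _ _ hcd

lemma glue : Spec.map (CommRingCat.ofHom (inc (F1 g a' b'))) ≫
      Spec.map (CommRingCat.ofHom t.m₁) ≫ (crvCharts g a b).j₁ =
    Spec.map (CommRingCat.ofHom (inc2 g a' b')) ≫
      Spec.map (CommRingCat.ofHom t.m₂) ≫ (crvCharts g a b).j₂ := by
  obtain ⟨μ, h1, h2⟩ := t.exists_m₁₂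
  have h3 : Spec.map (CommRingCat.ofHom (inc _)) ≫ (crvCharts g a b).j₁ =
    Spec.map (CommRingCat.ofHom (inc2 g a b)) ≫ (crvCharts g a b).j₂ := (crvCharts g a b).pb.w
  rw [← Category.assoc, ← Category.assoc, ← Spec.map_comp, ← Spec.map_comp,
    ← CommRingCat.ofHom_comp, ← CommRingCat.ofHom_comp, ← h1, ← h2, CommRingCat.ofHom_comp,
    CommRingCat.ofHom_comp, Spec.map_comp, Spec.map_comp, Category.assoc, Category.assoc, h3]

/-- the map of the curves -/
noncomputable def m : Crv g a' b' ⟶ Crv g a b :=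
  pushout.desc (Spec.map (CommRingCat.ofHom t.m₁) ≫ (crvCharts g a b).j₁)
    (Spec.map (CommRingCat.ofHom t.m₂) ≫ (crvCharts g a b).j₂) t.glue

lemma m_inl : (crvCharts g a' b').j₁ ≫ t.m =
    Spec.map (CommRingCat.ofHom t.m₁) ≫ (crvCharts g a b).j₁ :=
  pushout.inl_desc _ _ _

lemma m_inr : (crvCharts g a' b').j₂ ≫ t.m =
    Spec.map (CommRingCat.ofHom t.m₂) ≫ (crvCharts g a b).j₂ :=
  pushout.inr_desc _ _ _

lemma m_comm : t.m ≫ crvMap g a b = crvMap g a' b' ≫ Spec.map (CommRingCat.ofHom φ) := by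
  apply pushout.hom_ext
  · have h1 := t.m_inl
    have h2 := (crvCharts g a' b').h₁
    have h3 := (crvCharts g a b).h₁
    change (crvCharts g a' b').j₁ ≫ t.m ≫ crvMap g a b = (crvCharts g a' b').j₁ ≫ _
    rw [← Category.assoc, h1, Category.assoc, h3, ← Category.assoc, h2, ← Spec.map_comp,
      ← Spec.map_comp, ← CommRingCat.ofHom_comp, ← CommRingCat.ofHom_comp]
    congr 2
    exact RingHom.ext fun r => t.m₁_sc r
  · have h1 := t.m_inr
    have h2 := (crvCharts g a' b').h₂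
    have h3 := (crvCharts g a b).h₂
    change (crvCharts g a' b').j₂ ≫ t.m ≫ crvMap g a b = (crvCharts g a' b').j₂ ≫ _
    rw [← Category.assoc, h1, Category.assoc, h3, ← Category.assoc, h2, ← Spec.map_comp,
      ← Spec.map_comp, ← CommRingCat.ofHom_comp, ← CommRingCat.ofHom_comp]
    congr 2
    exact RingHom.ext fun r => t.m₂_sc r

theorem isPullback : IsPullback t.m (crvMap g a' b') (crvMap g a b)
    (Spec.map (CommRingCat.ofHom φ)) :=
  (crvCharts g a b).cartesian (crvCharts g a' b') t.p₁ t.p₂ (sc _ c) (tw_xx t.rel₁) t.m t.m_comm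
    t.m_inl t.m_inr

end Tw

end curve

end Pool.Agent.W523
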